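import Pool.Agent.Lib.MP_0da313_nt.GC.E
import Pool.Agent.Lib.MP_89da58_nt.LargeArith

set_option autoImplicit false

/-!
Piece La.
-/

namespace Pool.Agent.GC.E

open Finset Filter
open ArithmeticFunction (vonMangoldt)
open Pool.Agent.SP80 (ex)

private theorem gc_La_nex (x : ℝ) : ‖ex x‖ = 1 := by
  unfold Pool.Agent.SP80.ex
  exact Complex.norm_exp_ofReal_mul_I _

/-- Summation by parts. -/
private theorem gc_La_parts (c : ℕ → ℝ) (g : ℕ → ℂ) (u t : ℕ) :
    ∑ n ∈ Ioc u (u + t), (c n : ℂ) * g n = (c (u + t) : ℂ) * ∑ n ∈ Ioc u (u + t), g n -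
      ∑ i ∈ range t, ((c (u + i + 1) - c (u + i) : ℝ) : ℂ) * ∑ n ∈ Ioc u (u + i), g n := by
  induction t with
  | zero => simp
  | succ t ih =>
    have h : Ioc u (u + (t + 1)) = insert (u + t + 1) (Ioc u (u + t)) := by
      ext n
      simp only [Finset.mem_insert, Finset.mem_Ioc]
      omega
    have h2 : (u + t + 1) ∉ Ioc u (u + t) := by
      simp only [Finset.mem_Ioc]
      omega
    rw [h, Finset.sum_insert h2, Finset.sum_insert h2, ih, Finset.sum_range_succ, ← add_assoc]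
    push_cast
    ring

private theorem gc_La_abel (g : ℕ → ℂ) (u v : ℕ) (C : ℝ) (hC : 0 ≤ C)
    (h : ∀ k ≤ v, ‖∑ n ∈ Ioc u k, g n‖ ≤ C) :
    ‖∑ n ∈ Ioc u v, ((Real.log (n : ℕ) : ℝ) : ℂ) * g n‖ ≤ 2 * Real.log v * C := by
  by_cases huv : v ≤ u
  · rw [Finset.Ioc_eq_empty_of_le huv, Finset.sum_empty, norm_zero]
    have := Real.log_natCast_nonneg v
    positivity
  obtain ⟨t, rfl⟩ := Nat.exists_eq_add_of_le (not_le.1 huv).le
  have hmono : ∀ i : ℕ, 0 ≤ Real.log ((u + i + 1 : ℕ) : ℝ) - Real.log ((u + i : ℕ) : ℝ) := by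
    intro i
    rw [sub_nonneg]
    by_cases h0 : u + i = 0
    · rw [h0]
      simp
    · exact Real.log_le_log (by exact_mod_cast Nat.pos_of_ne_zero h0)
        (by exact_mod_cast Nat.le_succ _)
  have htel : ∑ i ∈ range t, (Real.log ((u + i + 1 : ℕ) : ℝ) - Real.log ((u + i : ℕ) : ℝ))
      = Real.log ((u + t : ℕ) : ℝ) - Real.log ((u : ℕ) : ℝ) := by
    have := Finset.sum_range_sub (fun i : ℕ => Real.log ((u + i : ℕ) : ℝ)) t
    simpa [add_assoc] using this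
  rw [gc_La_parts (fun n => Real.log (n : ℕ)) g u t]
  refine (norm_sub_le _ _).trans ?_
  have h1 : ‖((Real.log ((u + t : ℕ) : ℝ) : ℝ) : ℂ) * ∑ n ∈ Ioc u (u + t), g n‖
      ≤ Real.log ((u + t : ℕ) : ℝ) * C := by
    rw [norm_mul, Complex.norm_real, Real.norm_of_nonneg (Real.log_natCast_nonneg _)]
    exact mul_le_mul_of_nonneg_left (h _ le_rfl) (Real.log_natCast_nonneg _)
  have h2 : ‖∑ i ∈ range t, ((Real.log ((u + i + 1 : ℕ) : ℝ) - Real.log ((u + i : ℕ) : ℝ) : ℝ) : ℂ)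
      * ∑ n ∈ Ioc u (u + i), g n‖ ≤ Real.log ((u + t : ℕ) : ℝ) * C := by
    calc ‖∑ i ∈ range t, ((Real.log ((u + i + 1 : ℕ) : ℝ) - Real.log ((u + i : ℕ) : ℝ) : ℝ) : ℂ)
          * ∑ n ∈ Ioc u (u + i), g n‖
        ≤ ∑ i ∈ range t, (Real.log ((u + i + 1 : ℕ) : ℝ) - Real.log ((u + i : ℕ) : ℝ)) * C := by
          refine (norm_sum_le _ _).trans (Finset.sum_le_sum fun i hi => ?_)
          rw [Finset.mem_range] at hi
          rw [norm_mul, Complex.norm_real, Real.norm_of_nonneg (hmono i)]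
          exact mul_le_mul_of_nonneg_left (h _ (by omega)) (hmono i)
      _ = (Real.log ((u + t : ℕ) : ℝ) - Real.log ((u : ℕ) : ℝ)) * C := by
          rw [← Finset.sum_mul, htel]
      _ ≤ Real.log ((u + t : ℕ) : ℝ) * C := by
          apply mul_le_mul_of_nonneg_right _ hC
          have := Real.log_natCast_nonneg u
          linarith
  calc _ ≤ Real.log ((u + t : ℕ) : ℝ) * C + Real.log ((u + t : ℕ) : ℝ) * C := add_le_add h1 h2
    _ = 2 * Real.log ((u + t : ℕ) : ℝ) * C := by ring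

private theorem gc_La_sum (Y W : ℕ) (κ : ℕ → ℝ) (G : ℕ → ℂ) (K : ℝ)
    (h1 : ∀ m, 1 ≤ m → m ≤ W → |κ m| ≤ K) (h2 : ∀ m, W < m → κ m = 0) :
    ‖∑ m ∈ Icc 1 Y, (κ m : ℂ) * G m‖ ≤ K * ∑ m ∈ Icc 1 W, ‖G m‖ := by
  have hr : ∑ m ∈ Icc 1 Y, (κ m : ℂ) * G m
      = ∑ m ∈ (Icc 1 Y).filter (fun m => m ≤ W), (κ m : ℂ) * G m := by
    rw [Finset.sum_filter]
    refine Finset.sum_congr rfl fun m _ => ?_
    split_ifs with h
    · rfl
    · rw [h2 m (not_le.1 h)]; simp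
  rw [hr]
  refine (norm_sum_le _ _).trans ?_
  have hs : (Icc 1 Y).filter (fun m => m ≤ W) ⊆ Icc 1 W := by
    intro m hm
    rw [Finset.mem_filter, Finset.mem_Icc] at hm
    exact Finset.mem_Icc.2 ⟨hm.1.1, hm.2⟩
  refine (Finset.sum_le_sum_of_subset_of_nonneg hs fun _ _ _ => norm_nonneg _).trans ?_
  rw [Finset.mul_sum]
  refine Finset.sum_le_sum fun m hm => ?_
  rw [Finset.mem_Icc] at hm
  rw [norm_mul, Complex.norm_real, Real.norm_eq_abs]
  exact mul_le_mul_of_nonneg_right (h1 m hm.1 hm.2) (norm_nonneg _)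

/-- The weight. -/
private noncomputable def gcLaW (U Y d a : ℕ) (θ : ℝ) (t : ℕ) : ℂ :=
  if U < t ∧ t ≤ Y ∧ t ≡ a [MOD d] then ex (θ * t) else 0

/-- The inner term. -/
private noncomputable def gcLaG (d a : ℕ) (θ : ℝ) (m n : ℕ) : ℂ :=
  if m * n ≡ a [MOD d] then ex (θ * ((m * n : ℕ) : ℝ)) else 0

private theorem gc_La_inner (U Y d a m : ℕ) (θ : ℝ) (φ : ℕ → ℂ) (hm : 1 ≤ m) :
    ∑ n ∈ Icc 1 Y, φ n * gcLaW U Y d a θ (m * n)
      = ∑ n ∈ Ioc (U / m) (Y / m), φ n * gcLaG d a θ m n := by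
  have hs : Ioc (U / m) (Y / m) ⊆ Icc 1 Y := by
    intro n hn
    rw [Finset.mem_Ioc] at hn
    rw [Finset.mem_Icc]
    exact ⟨Nat.lt_of_le_of_lt (Nat.zero_le _) hn.1, hn.2.trans (Nat.div_le_self Y m)⟩
  rw [← Finset.sum_subset hs]
  · refine Finset.sum_congr rfl fun n hn => ?_
    rw [Finset.mem_Ioc] at hn
    have h1 : U < m * n := by
      have := (Nat.div_lt_iff_lt_mul hm).1 hn.1
      rwa [mul_comm] at this
    have h2 : m * n ≤ Y := by
      have := (Nat.le_div_iff_mul_le hm).1 hn.2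
      rwa [mul_comm] at this
    unfold gcLaW gcLaG
    congr 1
    by_cases h3 : m * n ≡ a [MOD d]
    · rw [if_pos ⟨h1, h2, h3⟩, if_pos h3]
    · rw [if_neg (fun h => h3 h.2.2), if_neg h3]
  · intro n hn hn2
    unfold gcLaW
    rw [if_neg, mul_zero]
    rintro ⟨h1, h2, h3⟩
    apply hn2
    rw [Finset.mem_Ioc]
    refine ⟨(Nat.div_lt_iff_lt_mul hm).2 ?_, (Nat.le_div_iff_mul_le hm).2 ?_⟩
    · rwa [mul_comm]
    · rwa [mul_comm]

/-- The bound from `R_t1` for both type I sums. -/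
private theorem gc_La_t1 (ht1 : R_t1) (d a q M Y U : ℕ) (θ X : ℝ) (h : ℤ) (hd : 1 ≤ d)
    (had : a.Coprime d) (hq : 0 < q) (hh : IsCoprime h (q : ℤ))
    (hθ : |(d : ℝ) ^ 2 * θ - h / q| ≤ 1 / (q : ℝ) ^ 2) (hX : 0 ≤ X) (hM : 1 ≤ M)
    (hY : (Y : ℝ) ≤ 2 * X) :
    ∑ m ∈ Icc 1 M, ‖∑ n ∈ Ioc (U / m) (Y / m), gcLaG d a θ m n‖
      ≤ 200 * (2 * X / (d * q) + d * M + d * q) * (1 + Real.log q) * (1 + Real.log M) ∧
    ∑ m ∈ Icc 1 M, ‖∑ n ∈ Ioc (U / m) (Y / m), ((Real.log (n : ℕ) : ℝ) : ℂ) * gcLaG d a θ m n‖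
      ≤ 2 * Real.log Y *
        (200 * (2 * X / (d * q) + d * M + d * q) * (1 + Real.log q) * (1 + Real.log M)) := by
  have hkey : ∀ v : ℕ → ℕ, (∀ m ∈ Icc 1 M, v m ≤ Y / m) →
      ∑ m ∈ Icc 1 M, ‖∑ n ∈ Ioc (U / m) (v m), gcLaG d a θ m n‖
      ≤ 200 * (2 * X / (d * q) + d * M + d * q) * (1 + Real.log q) * (1 + Real.log M) := by
    intro v hv
    have h1 := ht1 d a q M θ (2 * X) h (fun m => U / m) v hd had hq hh hθ (by linarith) hM ?_
    · refine le_trans (le_of_eq ?_) h1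
      refine Finset.sum_congr rfl fun m _ => ?_
      rw [Finset.sum_filter]
      rfl
    · intro m hm
      have h2 : ((v m : ℕ) : ℝ) ≤ ((Y / m : ℕ) : ℝ) := by exact_mod_cast hv m hm
      have h3 : ((Y / m : ℕ) : ℝ) ≤ Y / m := Nat.cast_div_le
      refine (h2.trans h3).trans ?_
      exact div_le_div_of_nonneg_right hY (Nat.cast_nonneg _)
  refine ⟨hkey (fun m => Y / m) (fun m _ => le_rfl), ?_⟩
  have hex : ∀ m : ℕ, ∃ k : ℕ, k ≤ Y / m ∧ ∀ k' ≤ Y / m,
      ‖∑ n ∈ Ioc (U / m) k', gcLaG d a θ m n‖ ≤ ‖∑ n ∈ Ioc (U / m) k, gcLaG d a θ m n‖ := by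
    intro m
    obtain ⟨k, hk, hk2⟩ := Finset.exists_max_image (Finset.range (Y / m + 1))
      (fun k => ‖∑ n ∈ Ioc (U / m) k, gcLaG d a θ m n‖) ⟨0, by simp⟩
    refine ⟨k, by rw [Finset.mem_range] at hk; omega, fun k' hk' => ?_⟩
    exact hk2 k' (by rw [Finset.mem_range]; omega)
  choose v hv1 hv2 using hex
  have h2 := hkey v (fun m _ => hv1 m)
  calc ∑ m ∈ Icc 1 M, ‖∑ n ∈ Ioc (U / m) (Y / m),
        ((Real.log (n : ℕ) : ℝ) : ℂ) * gcLaG d a θ m n‖
      ≤ ∑ m ∈ Icc 1 M, 2 * Real.log Y * ‖∑ n ∈ Ioc (U / m) (v m), gcLaG d a θ m n‖ := by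
        refine Finset.sum_le_sum fun m _ => ?_
        refine (gc_La_abel _ _ _ _ (norm_nonneg _) (hv2 m)).trans ?_
        apply mul_le_mul_of_nonneg_right _ (norm_nonneg _)
        apply mul_le_mul_of_nonneg_left _ (by norm_num)
        by_cases h0 : Y / m = 0
        · rw [h0]
          simpa using Real.log_natCast_nonneg Y
        · exact Real.log_le_log (by exact_mod_cast Nat.pos_of_ne_zero h0)
            (by exact_mod_cast Nat.div_le_self Y m)
    _ = 2 * Real.log Y * ∑ m ∈ Icc 1 M, ‖∑ n ∈ Ioc (U / m) (v m), gcLaG d a θ m n‖ := by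
        rw [Finset.mul_sum]
    _ ≤ _ := mul_le_mul_of_nonneg_left h2 (by
        have := Real.log_natCast_nonneg Y
        positivity)

/-! ### Dyadic blocks -/

private theorem gc_La_split (U : ℕ) (g : ℕ → ℂ) (I : ℕ) :
    ∑ m ∈ Ioc U (2 ^ I * U), g m =
      ∑ i ∈ range I, ∑ m ∈ Ioc (2 ^ i * U) (2 * (2 ^ i * U)), g m := by
  induction I with
  | zero => simp
  | succ I ih =>
    rw [sum_range_succ, ← ih, show 2 * (2 ^ I * U) = 2 ^ (I + 1) * U by ring]
    have h1 : 1 ≤ 2 ^ I := Nat.one_le_two_pow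
    have h2 : 1 * U ≤ 2 ^ I * U := Nat.mul_le_mul_right U h1
    rw [one_mul] at h2
    exact (sum_Ioc_consecutive g h2
      (Nat.mul_le_mul_right U (Nat.pow_le_pow_right (by norm_num) (Nat.le_succ I)))).symm

private theorem gc_La_dya (U V X I : ℕ) (F : ℕ → ℕ → ℂ) (hU : 1 ≤ U) (hV : 1 ≤ V) (hI : X < 2 ^ I)
    (hF : ∀ m n : ℕ, 1 ≤ m → 1 ≤ n → F m n ≠ 0 → U < m ∧ V < n ∧ m * n ≤ X) :
    ∑ m ∈ Icc 1 X, ∑ n ∈ Icc 1 X, F m n =
      ∑ p ∈ range I ×ˢ range I, ∑ m ∈ Ioc (2 ^ p.1 * U) (2 * (2 ^ p.1 * U)),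
        ∑ n ∈ Ioc (2 ^ p.2 * V) (2 * (2 ^ p.2 * V)), F m n := by
  have h1 : ∑ m ∈ Icc 1 X, ∑ n ∈ Icc 1 X, F m n =
      ∑ m ∈ Ioc U (2 ^ I * U), ∑ n ∈ Ioc V (2 ^ I * V), F m n := by
    rw [← sum_product', ← sum_product']
    apply sum_congr_of_eq_on_inter
    · rintro ⟨m, n⟩ h1 h2
      rw [mem_product, mem_Icc, mem_Icc] at h1
      rw [mem_product, mem_Ioc, mem_Ioc] at h2
      by_contra h3
      obtain ⟨h4, h5, h6⟩ := hF m n h1.1.1 h1.2.1 h3
      apply h2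
      refine ⟨⟨h4, ?_⟩, ⟨h5, ?_⟩⟩
      · calc m ≤ X := h1.1.2
          _ ≤ 2 ^ I := hI.le
          _ = 2 ^ I * 1 := (mul_one _).symm
          _ ≤ 2 ^ I * U := Nat.mul_le_mul_left _ hU
      · calc n ≤ X := h1.2.2
          _ ≤ 2 ^ I := hI.le
          _ = 2 ^ I * 1 := (mul_one _).symm
          _ ≤ 2 ^ I * V := Nat.mul_le_mul_left _ hV
    · rintro ⟨m, n⟩ h1 h2
      rw [mem_product, mem_Ioc, mem_Ioc] at h1
      rw [mem_product, mem_Icc, mem_Icc] at h2
      simp only at h1 h2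
      by_contra h3
      obtain ⟨h4, h5, h6⟩ := hF m n (by omega) (by omega) h3
      apply h2
      have hm : 1 ≤ m := by omega
      have hn : 1 ≤ n := by omega
      have h7 : m * 1 ≤ m * n := Nat.mul_le_mul_left _ hn
      have h8 : 1 * n ≤ m * n := Nat.mul_le_mul_right _ hm
      refine ⟨⟨hm, ?_⟩, ⟨hn, ?_⟩⟩ <;> omega
    · intro a _ _
      rfl
  rw [h1, gc_La_split, sum_product]
  apply sum_congr rfl
  intro i _
  simp only
  exact (sum_congr rfl fun m _ => gc_La_split V (F m) I).trans sum_comm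

/-- One block. -/
private theorem gc_La_block (ht2 : R_t2) (d a q M N U Y B : ℕ) (θ X L : ℝ) (h : ℤ) (e : ℕ → ℝ)
    (hd : 1 ≤ d) (had : a.Coprime d) (hq : 0 < q) (hh : IsCoprime h (q : ℤ))
    (hθ : |(d : ℝ) ^ 2 * θ - h / q| ≤ 1 / (q : ℝ) ^ 2) (hX : 0 < X)
    (he : ∀ n, |e n| ≤ n.divisors.card) (hL : 1000000 ≤ L) (hU1 : 1 ≤ U) (hN1 : 1 ≤ N)
    (hUM : U ≤ M) (hMN : ((M : ℝ) * N) ≤ 2 * X)
    (hMl : Real.log (2 * M) ≤ 2 * L) (hNl : Real.log (2 * N) ≤ 2 * L) (hql : Real.log q ≤ L)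
    (hqB : L ^ B ≤ q) (hqB2 : (q : ℝ) ≤ X / ((d : ℝ) ^ 2 * L ^ B))
    (hMd : d * L ^ B ≤ M) (hNd : d * L ^ B ≤ N) (hdX : 2 * (d : ℝ) ^ 2 * L ^ B ≤ X) :
    ‖∑ m ∈ Ioc M (2 * M), ∑ n ∈ Ioc N (2 * N),
      ((if U < m then vonMangoldt m else 0 : ℝ) : ℂ) * (e n : ℂ) *
        gcLaW U Y d a θ (m * n)‖ ^ 2 ≤ L ^ 7 * ((X / d) ^ 2 / L ^ B) := by
  have hL0 : 0 < L := by linarith
  have hd0 : (0 : ℝ) < d := by exact_mod_cast hd
  have hq0 : (0 : ℝ) < q := by exact_mod_cast hq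
  have hM1 : 1 ≤ M := hU1.trans hUM
  have hM0 : (0 : ℝ) < M := by exact_mod_cast hM1
  have hN0 : (0 : ℝ) < N := by exact_mod_cast hN1
  have hLB : 0 < L ^ B := by positivity
  have h1 := ht2 d a q M N Y θ h (fun m => (vonMangoldt m : ℂ)) (fun n => (e n : ℂ)) hd had hq hh hθ
  have h2 : ∑ m ∈ Ioc M (2 * M), ∑ n ∈ Ioc N (2 * N),
      ((if U < m then vonMangoldt m else 0 : ℝ) : ℂ) * (e n : ℂ) *
        gcLaW U Y d a θ (m * n) = ∑ m ∈ Ioc M (2 * M), ∑ l ∈ Ioc N (2 * N),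
        (if m * l ≡ a [MOD d] ∧ m * l ≤ Y then
          (vonMangoldt m : ℂ) * (e l : ℂ) * ex (θ * ((m * l : ℕ) : ℝ)) else 0) := by
    refine Finset.sum_congr rfl fun m hm => Finset.sum_congr rfl fun n hn => ?_
    rw [Finset.mem_Ioc] at hm hn
    have h3 : U < m := lt_of_le_of_lt hUM hm.1
    have h4 : U < m * n := lt_of_lt_of_le h3 (Nat.le_mul_of_pos_right m (by omega))
    rw [if_pos h3]
    unfold gcLaW
    by_cases h5 : m * n ≡ a [MOD d] ∧ m * n ≤ Y
    · rw [if_pos h5, if_pos ⟨h4, h5.2, h5.1⟩]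
    · rw [if_neg h5, if_neg (fun h6 => h5 ⟨h6.2.2, h6.2.1⟩), mul_zero]
  rw [h2]
  refine h1.trans ?_
  have hS1 : ∑ m ∈ Ioc M (2 * M), ‖(vonMangoldt m : ℂ)‖ ^ 2 ≤ M * (2 * L) ^ 2 := by
    calc ∑ m ∈ Ioc M (2 * M), ‖(vonMangoldt m : ℂ)‖ ^ 2
        ≤ ∑ m ∈ Ioc M (2 * M), (2 * L) ^ 2 := by
          refine Finset.sum_le_sum fun m hm => ?_
          rw [Finset.mem_Ioc] at hm
          rw [Complex.norm_real, Real.norm_of_nonneg ArithmeticFunction.vonMangoldt_nonneg]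
          refine pow_le_pow_left₀ ArithmeticFunction.vonMangoldt_nonneg ?_ 2
          refine (ArithmeticFunction.vonMangoldt_le_log).trans (le_trans ?_ hMl)
          apply Real.log_le_log (by exact_mod_cast (by omega : 0 < m))
          exact_mod_cast hm.2
      _ = M * (2 * L) ^ 2 := by
          rw [Finset.sum_const, Nat.card_Ioc, nsmul_eq_mul]
          congr 2
          omega
  have hS2 : ∑ n ∈ Ioc N (2 * N), ‖(e n : ℂ)‖ ^ 2 ≤ N * (54 * L ^ 3) := by
    calc ∑ n ∈ Ioc N (2 * N), ‖(e n : ℂ)‖ ^ 2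
        ≤ ∑ n ∈ Ioc N (2 * N), ((n.divisors.card : ℝ)) ^ 2 := by
          refine Finset.sum_le_sum fun n _ => ?_
          rw [Complex.norm_real, Real.norm_eq_abs]
          exact pow_le_pow_left₀ (abs_nonneg _) (he n) 2
      _ ≤ ∑ n ∈ Icc 1 (2 * N), ((n.divisors.card : ℝ)) ^ 2 := by
          refine Finset.sum_le_sum_of_subset_of_nonneg ?_ fun _ _ _ => sq_nonneg _
          intro n hn
          rw [Finset.mem_Ioc] at hn
          rw [Finset.mem_Icc]
          omega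
      _ ≤ ((2 * N : ℕ) : ℝ) * (1 + Real.log ((2 * N : ℕ) : ℝ)) ^ 3 :=
          Pool.Agent.MP89da58.sum_tau_sq _
      _ ≤ ((2 * N : ℕ) : ℝ) * (3 * L) ^ 3 := by
          apply mul_le_mul_of_nonneg_left _ (Nat.cast_nonneg _)
          have h0 : 0 ≤ Real.log ((2 * N : ℕ) : ℝ) := Real.log_natCast_nonneg _
          apply pow_le_pow_left₀ (by linarith)
          push_cast
          linarith
      _ = N * (54 * L ^ 3) := by
          push_cast
          ring
  have hS2n : 0 ≤ ∑ n ∈ Ioc N (2 * N), ‖(e n : ℂ)‖ ^ 2 := Finset.sum_nonneg fun _ _ => sq_nonneg _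
  have hprod : (∑ m ∈ Ioc M (2 * M), ‖(vonMangoldt m : ℂ)‖ ^ 2) *
      ∑ n ∈ Ioc N (2 * N), ‖(e n : ℂ)‖ ^ 2 ≤ (M * N) * (216 * L ^ 5) := by
    calc _ ≤ (M * (2 * L) ^ 2) * (N * (54 * L ^ 3)) :=
          mul_le_mul hS1 hS2 hS2n (by positivity)
      _ = (M * N) * (216 * L ^ 5) := by ring
  set Z : ℝ := (X / d) ^ 2 / L ^ B with hZ
  have hZ0 : 0 < Z := by positivity
  have hZX : Z * L ^ B = (X / d) ^ 2 := by
    rw [hZ]; field_simp
  -- the main factor
  have hfac : ((N : ℝ) / (d * q) + 1) * ((M : ℝ) / d + 1 + q * (1 + Real.log q)) * (M * N)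
      ≤ 50 * L * Z := by
    have hq1 : q * (1 + Real.log q) ≤ 2 * L * q := by
      have : 1 + Real.log q ≤ 2 * L := by linarith
      calc q * (1 + Real.log q) ≤ q * (2 * L) := mul_le_mul_of_nonneg_left this hq0.le
        _ = 2 * L * q := by ring
    have e0 : ((N : ℝ) / (d * q) + 1) * ((M : ℝ) / d + 1 + q * (1 + Real.log q)) * (M * N)
        ≤ ((N : ℝ) / (d * q) + 1) * ((M : ℝ) / d + 1 + 2 * L * q) * (M * N) := by
      apply mul_le_mul_of_nonneg_right _ (by positivity)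
      apply mul_le_mul_of_nonneg_left _ (by positivity)
      linarith
    refine e0.trans ?_
    have e1 : ((N : ℝ) / (d * q) + 1) * ((M : ℝ) / d + 1 + 2 * L * q) * (M * N) =
        (M * N) ^ 2 / (d ^ 2 * q) + (M * N) * N / (d * q) + 2 * L * ((M * N) * N / d) +
          (M * N) * M / d + (M * N) + 2 * L * (q * (M * N)) := by
      field_simp
      ring
    rw [e1]
    have hMN0 : (0 : ℝ) < M * N := by positivity
    -- (MN)^2/(d^2 q)
    have f1 : ((M : ℝ) * N) ^ 2 / (d ^ 2 * q) ≤ 4 * Z := by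
      have : ((M : ℝ) * N) ^ 2 ≤ (2 * X) ^ 2 := pow_le_pow_left₀ hMN0.le hMN 2
      calc ((M : ℝ) * N) ^ 2 / (d ^ 2 * q) ≤ (2 * X) ^ 2 / (d ^ 2 * L ^ B) := by
            apply div_le_div₀ (by positivity) this (by positivity)
            exact mul_le_mul_of_nonneg_left hqB (by positivity)
        _ = 4 * Z := by
            rw [hZ]; field_simp; ring
    -- MN * N/d
    have f2 : ((M : ℝ) * N) * N / d ≤ 4 * Z := by
      have g1 : (N : ℝ) * (d * L ^ B) ≤ 2 * X := by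
        calc (N : ℝ) * (d * L ^ B) ≤ N * M := mul_le_mul_of_nonneg_left hMd hN0.le
          _ = M * N := by ring
          _ ≤ 2 * X := hMN
      have g2 : (N : ℝ) ≤ 2 * X / (d * L ^ B) := by
        rw [le_div_iff₀ (by positivity)]
        exact g1
      calc ((M : ℝ) * N) * N / d ≤ (2 * X) * (2 * X / (d * L ^ B)) / d := by
            apply div_le_div_of_nonneg_right _ hd0.le
            exact mul_le_mul hMN g2 hN0.le (by positivity)
        _ = 4 * Z := by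
            rw [hZ]; field_simp; ring
    have f3 : ((M : ℝ) * N) * M / d ≤ 4 * Z := by
      have g1 : (M : ℝ) * (d * L ^ B) ≤ 2 * X :=
        (mul_le_mul_of_nonneg_left hNd hM0.le).trans hMN
      have g2 : (M : ℝ) ≤ 2 * X / (d * L ^ B) := by
        rw [le_div_iff₀ (by positivity)]
        exact g1
      calc ((M : ℝ) * N) * M / d ≤ (2 * X) * (2 * X / (d * L ^ B)) / d := by
            apply div_le_div_of_nonneg_right _ hd0.le
            exact mul_le_mul hMN g2 hM0.le (by positivity)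
        _ = 4 * Z := by
            rw [hZ]; field_simp; ring
    have f2' : ((M : ℝ) * N) * N / (d * q) ≤ 4 * Z := by
      refine le_trans ?_ f2
      apply div_le_div_of_nonneg_left (by positivity) hd0
      have : (1 : ℝ) ≤ q := by exact_mod_cast hq
      nlinarith
    have f4 : ((M : ℝ) * N) ≤ Z := by
      refine hMN.trans ?_
      rw [hZ, le_div_iff₀ hLB, div_pow, le_div_iff₀ (by positivity)]
      calc 2 * X * L ^ B * (d : ℝ) ^ 2 = X * (2 * (d : ℝ) ^ 2 * L ^ B) := by ring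
        _ ≤ X * X := mul_le_mul_of_nonneg_left hdX hX.le
        _ = X ^ 2 := by ring
    have f5 : (q : ℝ) * (M * N) ≤ 2 * Z := by
      calc (q : ℝ) * (M * N) ≤ (X / ((d : ℝ) ^ 2 * L ^ B)) * (2 * X) :=
            mul_le_mul hqB2 hMN hMN0.le (by positivity)
        _ = 2 * Z := by
            rw [hZ]; field_simp
    have f6 : 2 * L * ((M * N) * N / d) ≤ 2 * L * (4 * Z) :=
      mul_le_mul_of_nonneg_left f2 (by positivity)
    have f7 : 2 * L * (q * (M * N)) ≤ 2 * L * (2 * Z) :=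
      mul_le_mul_of_nonneg_left f5 (by positivity)
    have f8 : Z ≤ L * Z := by
      have : 1 * Z ≤ L * Z := mul_le_mul_of_nonneg_right (by linarith) hZ0.le
      linarith
    linarith only [f1, f2', f6, f3, f4, f7, f8, hZ0]
  calc 13 * ((N : ℝ) / (d * q) + 1) * ((M : ℝ) / d + 1 + q * (1 + Real.log q)) *
      ((∑ m ∈ Ioc M (2 * M), ‖(vonMangoldt m : ℂ)‖ ^ 2) *
        ∑ n ∈ Ioc N (2 * N), ‖(e n : ℂ)‖ ^ 2)
      ≤ 13 * ((N : ℝ) / (d * q) + 1) * ((M : ℝ) / d + 1 + q * (1 + Real.log q)) *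
        ((M * N) * (216 * L ^ 5)) := by
        apply mul_le_mul_of_nonneg_left hprod
        have : 0 ≤ 1 + Real.log q := by
          have := Real.log_natCast_nonneg q
          linarith
        positivity
    _ = (((N : ℝ) / (d * q) + 1) * ((M : ℝ) / d + 1 + q * (1 + Real.log q)) * (M * N)) *
        (2808 * L ^ 5) := by ring
    _ ≤ (50 * L * Z) * (2808 * L ^ 5) := mul_le_mul_of_nonneg_right hfac (by positivity)
    _ = (140400 * L ^ 6) * Z := by ring
    _ ≤ L ^ 7 * Z := by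
        apply mul_le_mul_of_nonneg_right _ hZ0.le
        have : 0 < L ^ 6 := by positivity
        nlinarith


private theorem gc_La_log (k : ℕ) : ∀ᶠ X : ℝ in atTop,
    (Real.log X) ^ k ≤ X ^ (1 / 50 : ℝ) := by
  have h := isLittleO_log_rpow_rpow_atTop (s := (1 / 50 : ℝ)) (k : ℝ) (by norm_num)
  have h2 := h.bound (show (0 : ℝ) < 1 by norm_num)
  filter_upwards [h2, eventually_ge_atTop 1] with X hX h1
  have hl : 0 ≤ Real.log X := Real.log_nonneg h1
  rw [one_mul, Real.rpow_natCast, Real.norm_of_nonneg (pow_nonneg hl _),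
    Real.norm_of_nonneg (Real.rpow_nonneg (by linarith) _)] at hX
  exact hX

/-- The type I part. -/
private theorem gc_La_typeI (ht1 : R_t1) (d a q U Y : ℕ) (θ X L E : ℝ) (h : ℤ) (c dd : ℕ → ℝ)
    (hd : 1 ≤ d) (had : a.Coprime d) (hq : 0 < q) (hh : IsCoprime h (q : ℤ))
    (hθ : |(d : ℝ) ^ 2 * θ - h / q| ≤ 1 / (q : ℝ) ^ 2) (hX : 0 < X) (hY : (Y : ℝ) ≤ 2 * X)
    (hL : 1 ≤ L) (hU1 : 1 ≤ U) (hE : 0 ≤ E)
    (hlY : Real.log Y ≤ 2 * L) (hlq : Real.log q ≤ L) (hlU : Real.log ((U * U : ℕ) : ℝ) ≤ L)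
    (hE1 : X / (d * q) ≤ E) (hE2 : (d : ℝ) * q ≤ E) (hE3 : (d : ℝ) * ((U * U : ℕ) : ℝ) ≤ E)
    (hc1 : ∀ n, |c n| ≤ 1) (hc0 : ∀ n, U < n → c n = 0)
    (hd1 : ∀ n, 1 ≤ n → |dd n| ≤ Real.log n) (hd0 : ∀ n, U * U < n → dd n = 0) :
    ‖∑ m ∈ Icc 1 Y, ∑ n ∈ Icc 1 Y, (c m : ℂ) * (Real.log n : ℂ) * gcLaW U Y d a θ (m * n)‖
      ≤ 12800 * E * L ^ 3 ∧
    ‖∑ m ∈ Icc 1 Y, ∑ n ∈ Icc 1 Y, (dd m : ℂ) * gcLaW U Y d a θ (m * n)‖
      ≤ 3200 * E * L ^ 3 := by
  have hL0 : 0 < L := by linarith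
  have hUU : U ≤ U * U := Nat.le_mul_of_pos_right U hU1
  have hP : ∀ M : ℕ, 1 ≤ M → M ≤ U * U →
      200 * (2 * X / (d * q) + d * M + d * q) * (1 + Real.log q) * (1 + Real.log M)
        ≤ 3200 * E * L ^ 2 := by
    intro M hM1 hM
    have h1 : 2 * X / (d * q) + d * M + d * q ≤ 4 * E := by
      have g1 : 2 * X / ((d : ℝ) * q) = 2 * (X / (d * q)) := by ring
      have g2 : (d : ℝ) * M ≤ d * ((U * U : ℕ) : ℝ) := by
        apply mul_le_mul_of_nonneg_left _ (Nat.cast_nonneg _)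
        exact_mod_cast hM
      linarith
    have h2 : 1 + Real.log q ≤ 2 * L := by linarith
    have h3 : 1 + Real.log M ≤ 2 * L := by
      have : Real.log M ≤ Real.log ((U * U : ℕ) : ℝ) :=
        Real.log_le_log (by exact_mod_cast hM1) (by exact_mod_cast hM)
      linarith
    have h4 : 0 ≤ Real.log q := Real.log_natCast_nonneg q
    have h5 : 0 ≤ Real.log M := Real.log_natCast_nonneg M
    calc 200 * (2 * X / (d * q) + d * M + d * q) * (1 + Real.log q) * (1 + Real.log M)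
        ≤ 200 * (4 * E) * (2 * L) * (2 * L) := by
          apply mul_le_mul _ h3 (by linarith) (by positivity)
          apply mul_le_mul _ h2 (by linarith) (by positivity)
          exact mul_le_mul_of_nonneg_left h1 (by norm_num)
      _ = 3200 * E * L ^ 2 := by ring
  constructor
  · have e1 : ∑ m ∈ Icc 1 Y, ∑ n ∈ Icc 1 Y,
        (c m : ℂ) * (Real.log n : ℂ) * gcLaW U Y d a θ (m * n)
        = ∑ m ∈ Icc 1 Y, (c m : ℂ) * ∑ n ∈ Ioc (U / m) (Y / m),
          ((Real.log (n : ℕ) : ℝ) : ℂ) * gcLaG d a θ m n := by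
      refine Finset.sum_congr rfl fun m hm => ?_
      rw [Finset.mem_Icc] at hm
      rw [← gc_La_inner U Y d a m θ (fun n => ((Real.log (n : ℕ) : ℝ) : ℂ)) hm.1, Finset.mul_sum]
      refine Finset.sum_congr rfl fun n _ => ?_
      ring
    rw [e1]
    refine (gc_La_sum Y U c _ 1 (fun m _ _ => hc1 m) hc0).trans ?_
    rw [one_mul]
    refine (gc_La_t1 ht1 d a q U Y U θ X h hd had hq hh hθ hX.le hU1 hY).2.trans ?_
    have h1 := hP U hU1 hUU
    have h2 : 0 ≤ Real.log Y := Real.log_natCast_nonneg Y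
    calc _ ≤ 2 * (2 * L) * (3200 * E * L ^ 2) := by
          apply mul_le_mul _ h1 _ (by positivity)
          · linarith
          · have h4 : 0 ≤ Real.log q := Real.log_natCast_nonneg q
            have h5 : 0 ≤ Real.log U := Real.log_natCast_nonneg U
            positivity
      _ = 12800 * E * L ^ 3 := by ring
  · have e1 : ∑ m ∈ Icc 1 Y, ∑ n ∈ Icc 1 Y, (dd m : ℂ) * gcLaW U Y d a θ (m * n)
        = ∑ m ∈ Icc 1 Y, (dd m : ℂ) * ∑ n ∈ Ioc (U / m) (Y / m), gcLaG d a θ m n := by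
      refine Finset.sum_congr rfl fun m hm => ?_
      rw [Finset.mem_Icc] at hm
      have := gc_La_inner U Y d a m θ (fun _ => 1) hm.1
      simp only [one_mul] at this
      rw [← this, Finset.mul_sum]
    rw [e1]
    refine (gc_La_sum Y (U * U) dd _ L (fun m hm1 hm2 => (hd1 m hm1).trans ?_) hd0).trans ?_
    · refine le_trans (Real.log_le_log (by exact_mod_cast hm1) ?_) hlU
      exact_mod_cast hm2
    · have h1 := (gc_La_t1 ht1 d a q (U * U) Y U θ X h hd had hq hh hθ hX.le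
        (hU1.trans hUU) hY).1
      have h2 := hP (U * U) (hU1.trans hUU) le_rfl
      calc _ ≤ L * (3200 * E * L ^ 2) := mul_le_mul_of_nonneg_left (h1.trans h2) hL0.le
        _ = 3200 * E * L ^ 3 := by ring

/-- The type II part. -/
private theorem gc_La_typeII (ht2 : R_t2) (d a q U Y A : ℕ) (θ X L : ℝ) (h : ℤ) (e : ℕ → ℝ)
    (hd : 1 ≤ d) (had : a.Coprime d) (hq : 0 < q) (hh : IsCoprime h (q : ℤ))
    (hθ : |(d : ℝ) ^ 2 * θ - h / q| ≤ 1 / (q : ℝ) ^ 2) (hX : 0 < X) (hY1 : 1 ≤ Y)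
    (hY : (Y : ℝ) ≤ 2 * X)
    (he : ∀ n, |e n| ≤ n.divisors.card) (he0 : ∀ n, n ≤ U → e n = 0)
    (hL : 1000000 ≤ L) (hLX : L = Real.log X) (hU1 : 1 ≤ U)
    (hql : Real.log q ≤ L)
    (hqB : L ^ (2 * A + 40) ≤ q) (hqB2 : (q : ℝ) ≤ X / ((d : ℝ) ^ 2 * L ^ (2 * A + 40)))
    (hUd : d * L ^ (2 * A + 40) ≤ U) (hdX : 2 * (d : ℝ) ^ 2 * L ^ (2 * A + 40) ≤ X) :
    ‖∑ m ∈ Icc 1 Y, ∑ n ∈ Icc 1 Y,
      ((if U < m then vonMangoldt m else 0 : ℝ) : ℂ) * (e n : ℂ) *
        gcLaW U Y d a θ (m * n)‖ ≤ X / d / L ^ A * (1 / 4) := by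
  have hL0 : 0 < L := by linarith
  have hd0 : (0 : ℝ) < d := by exact_mod_cast hd
  set I : ℕ := Nat.log 2 Y + 1 with hI
  have hI2 : Y < 2 ^ I := Nat.lt_pow_succ_log_self (by norm_num) Y
  have hlog2X : Real.log (2 * (2 * X)) ≤ 2 * L := by
    rw [← mul_assoc, Real.log_mul (by norm_num) hX.ne', ← hLX]
    have : Real.log (2 * 2) ≤ 2 * 2 - 1 := Real.log_le_sub_one_of_pos (by norm_num)
    linarith
  have hI4 : (I : ℝ) ≤ 4 * L := by
    have h1 : 2 ^ (Nat.log 2 Y) ≤ Y := Nat.pow_log_le_self 2 (by omega)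
    have h2 : ((2 : ℝ)) ^ (Nat.log 2 Y) ≤ (Y : ℝ) := by exact_mod_cast h1
    have h3 : ((2 : ℝ)) ^ (Nat.log 2 Y) ≤ 2 * (2 * X) := by linarith
    have h4 := Real.log_le_log (by positivity) h3
    rw [Real.log_pow] at h4
    have h5 := Real.log_two_gt_d9
    have h6 : (0 : ℝ) ≤ ((Nat.log 2 Y : ℕ) : ℝ) := Nat.cast_nonneg _
    have h7 : ((Nat.log 2 Y : ℕ) : ℝ) * (0.6 : ℝ) ≤ 2 * L := by
      refine le_trans ?_ (h4.trans hlog2X)
      exact mul_le_mul_of_nonneg_left (by linarith) h6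
    rw [hI]
    push_cast
    linarith
  rw [gc_La_dya U U Y I _ hU1 hU1 hI2]
  · have hblk : ∀ p ∈ range I ×ˢ range I,
        ‖∑ m ∈ Ioc (2 ^ p.1 * U) (2 * (2 ^ p.1 * U)), ∑ n ∈ Ioc (2 ^ p.2 * U) (2 * (2 ^ p.2 * U)),
          ((if U < m then vonMangoldt m else 0 : ℝ) : ℂ) * (e n : ℂ) *
          gcLaW U Y d a θ (m * n)‖ ≤ X / d / L ^ (A + 16) := by
      rintro ⟨i, k⟩ _
      simp only
      have hi : 1 ≤ 2 ^ i := Nat.one_le_two_pow
      have hk : 1 ≤ 2 ^ k := Nat.one_le_two_pow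
      have hUM : U ≤ 2 ^ i * U := by
        have := Nat.mul_le_mul_right U hi
        rwa [one_mul] at this
      have hUN : U ≤ 2 ^ k * U := by
        have := Nat.mul_le_mul_right U hk
        rwa [one_mul] at this
      generalize 2 ^ i * U = M at hUM ⊢
      generalize 2 ^ k * U = N at hUN ⊢
      have hR0 : 0 ≤ X / d / L ^ (A + 16) := by positivity
      by_cases hMN : M * N ≤ Y
      · have hMN' : (M : ℝ) * N ≤ 2 * X := by
          refine le_trans ?_ hY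
          exact_mod_cast hMN
        have hM1 : 1 ≤ M := hU1.trans hUM
        have hN1 : 1 ≤ N := hU1.trans hUN
        have hM2 : (M : ℝ) ≤ 2 * X := by
          refine le_trans ?_ hMN'
          exact_mod_cast Nat.le_mul_of_pos_right M hN1
        have hN2 : (N : ℝ) ≤ 2 * X := by
          refine le_trans ?_ hMN'
          exact_mod_cast Nat.le_mul_of_pos_left N hM1
        have hM0 : (0 : ℝ) < M := by exact_mod_cast hM1
        have hN0 : (0 : ℝ) < N := by exact_mod_cast hN1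
        have hb := gc_La_block ht2 d a q M N U Y (2 * A + 40) θ X L h e hd had hq hh hθ hX he hL
          hU1 hN1 hUM hMN'
          ((Real.log_le_log (by positivity) (by linarith)).trans hlog2X)
          ((Real.log_le_log (by positivity) (by linarith)).trans hlog2X) hql hqB hqB2
          (hUd.trans (by exact_mod_cast hUM)) (hUd.trans (by exact_mod_cast hUN)) hdX
        refine (sq_le_sq₀ (norm_nonneg _) hR0).1 ?_
        refine hb.trans ?_
        have h1 : L ^ 7 * ((X / d) ^ 2 / L ^ (2 * A + 40)) = (X / d) ^ 2 * (L ^ 7 / L ^ (2 * A + 40)) := by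
          ring
        rw [h1, div_pow (X / d) (L ^ (A + 16)) 2, div_eq_mul_inv ((X / d) ^ 2) ((L ^ (A + 16)) ^ 2)]
        apply mul_le_mul_of_nonneg_left _ (by positivity)
        rw [div_le_iff₀ (by positivity), inv_mul_eq_div, le_div_iff₀ (by positivity), ← pow_mul,
          ← pow_add]
        exact pow_le_pow_right₀ (by linarith) (by omega)
      · refine le_trans (le_of_eq ?_) hR0
        rw [norm_eq_zero]
        refine Finset.sum_eq_zero fun m hm => Finset.sum_eq_zero fun n hn => ?_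
        rw [Finset.mem_Ioc] at hm hn
        have hw : gcLaW U Y d a θ (m * n) = 0 := by
          unfold gcLaW
          rw [if_neg]
          rintro ⟨-, h2, -⟩
          apply hMN
          exact (Nat.mul_le_mul hm.1.le hn.1.le).trans h2
        rw [hw, mul_zero]
    refine (norm_sum_le _ _).trans ((Finset.sum_le_sum hblk).trans ?_)
    rw [Finset.sum_const, Finset.card_product, Finset.card_range, nsmul_eq_mul]
    have h1 : ((I * I : ℕ) : ℝ) ≤ 16 * L ^ 2 := by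
      push_cast
      calc (I : ℝ) * I ≤ (4 * L) * (4 * L) :=
            mul_le_mul hI4 hI4 (Nat.cast_nonneg _) (by positivity)
        _ = 16 * L ^ 2 := by ring
    calc ((I * I : ℕ) : ℝ) * (X / d / L ^ (A + 16))
        ≤ 16 * L ^ 2 * (X / d / L ^ (A + 16)) := mul_le_mul_of_nonneg_right h1 (by positivity)
      _ = X / d / L ^ A * (16 * L ^ 2 / L ^ 16) := by
          rw [pow_add]
          field_simp
      _ ≤ X / d / L ^ A * (1 / 4) := by
          apply mul_le_mul_of_nonneg_left _ (by positivity)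
          rw [div_le_div_iff₀ (by positivity) (by norm_num), one_mul]
          have g1 : L ^ 3 ≤ L ^ 16 := pow_le_pow_right₀ (by linarith) (by norm_num)
          have g2 : 64 * L ^ 2 ≤ L ^ 3 := by
            have : 0 < L ^ 2 := by positivity
            nlinarith
          linarith
  · intro m n hm hn hne
    have h1 : U < m := by
      by_contra h
      apply hne
      rw [if_neg h]
      simp
    have h2 : U < n := by
      by_contra h
      apply hne
      rw [he0 n (not_lt.1 h)]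
      simp
    refine ⟨h1, h2, ?_⟩
    by_contra h3
    apply hne
    have hw : gcLaW U Y d a θ (m * n) = 0 := by
      unfold gcLaW
      rw [if_neg]
      rintro ⟨-, h4, -⟩
      exact h3 h4
    rw [hw, mul_zero]

/-- The small `t`. -/
private theorem gc_La_small (U Y d a : ℕ) (θ L : ℝ) (hL : Real.log U ≤ L) :
    ‖∑ t ∈ Icc 1 Y, (vonMangoldt t : ℂ) *
      (if t ≤ U ∧ t ≡ a [MOD d] then ex (θ * t) else 0)‖ ≤ U * L := by
  have hL0 : 0 ≤ L := le_trans (Real.log_natCast_nonneg U) hL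
  have hr : ∑ t ∈ Icc 1 Y, (vonMangoldt t : ℂ) *
      (if t ≤ U ∧ t ≡ a [MOD d] then ex (θ * t) else 0)
      = ∑ t ∈ (Icc 1 Y).filter (fun t => t ≤ U), (vonMangoldt t : ℂ) *
      (if t ≤ U ∧ t ≡ a [MOD d] then ex (θ * t) else 0) := by
    rw [Finset.sum_filter]
    refine Finset.sum_congr rfl fun t _ => ?_
    by_cases h : t ≤ U
    · rw [if_pos h]
    · rw [if_neg h, if_neg (fun h2 => h h2.1), mul_zero]
  rw [hr]
  refine (norm_sum_le _ _).trans ?_
  have hs : (Icc 1 Y).filter (fun t => t ≤ U) ⊆ Icc 1 U := by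
    intro m hm
    rw [Finset.mem_filter, Finset.mem_Icc] at hm
    exact Finset.mem_Icc.2 ⟨hm.1.1, hm.2⟩
  refine (Finset.sum_le_sum_of_subset_of_nonneg hs fun _ _ _ => norm_nonneg _).trans ?_
  calc ∑ t ∈ Icc 1 U, ‖(vonMangoldt t : ℂ) *
      (if t ≤ U ∧ t ≡ a [MOD d] then ex (θ * t) else 0)‖ ≤ ∑ t ∈ Icc 1 U, L := by
        refine Finset.sum_le_sum fun t ht => ?_
        rw [Finset.mem_Icc] at ht
        rw [norm_mul, Complex.norm_real, Real.norm_of_nonneg ArithmeticFunction.vonMangoldt_nonneg]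
        have h1 : vonMangoldt t ≤ L := by
          refine (ArithmeticFunction.vonMangoldt_le_log).trans (le_trans ?_ hL)
          exact Real.log_le_log (by exact_mod_cast ht.1) (by exact_mod_cast ht.2)
        have h2 : ‖(if t ≤ U ∧ t ≡ a [MOD d] then ex (θ * t) else 0 : ℂ)‖ ≤ 1 := by
          split_ifs
          · rw [gc_La_nex]
          · simp
        calc _ ≤ L * 1 := mul_le_mul h1 h2 (norm_nonneg _) hL0
          _ = L := mul_one _
    _ = U * L := by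
        rw [Finset.sum_const, Nat.card_Icc, nsmul_eq_mul]
        simp

theorem p_La : S_La := by
  intro ht1 ht2 hvau A
  refine ⟨2 * A + 40, ?_⟩
  filter_upwards [gc_La_log (3 * A + 60), Real.tendsto_log_atTop.eventually_ge_atTop 1000000,
    eventually_ge_atTop 1] with X hXy hXL hX1
  intro d a q Y h θ hd hdX had hqB hqB2 hh hθ hY
  set L : ℝ := Real.log X with hLdef
  set y : ℝ := X ^ (1 / 50 : ℝ) with hy
  have hX0 : 0 < X := by linarith
  have hL0 : 0 < L := by linarith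
  have hL1 : 1 ≤ L := by linarith
  have hd0 : (0 : ℝ) < d := by exact_mod_cast hd
  have hd1 : (1 : ℝ) ≤ d := by exact_mod_cast hd
  have hyX : y ^ 50 = X := by
    rw [hy, ← Real.rpow_natCast, ← Real.rpow_mul hX0.le]
    norm_num
  have hyL : ∀ k : ℕ, k ≤ 3 * A + 60 → L ^ k ≤ y := fun k hk =>
    (pow_le_pow_right₀ hL1 hk).trans hXy
  have hy6 : 1000000 ≤ y := by
    have := hyL 1 (by omega)
    rw [pow_one] at this
    linarith
  have hy1 : 1 ≤ y := by linarith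
  have hy0 : 0 < y := by linarith
  have hLB : 0 < L ^ (2 * A + 40) := by positivity
  have hLB1 : 1 ≤ L ^ (2 * A + 40) := one_le_pow₀ hL1
  have hq0' : (0 : ℝ) < q := lt_of_lt_of_le hLB hqB
  have hq0 : 0 < q := by exact_mod_cast hq0'
  have hq1 : (1 : ℝ) ≤ q := by exact_mod_cast hq0
  have hR0 : 0 ≤ X / d / L ^ A := by positivity
  -- Y
  by_cases hY0 : Y = 0
  · subst hY0
    simpa using hR0
  have hY1 : 1 ≤ Y := Nat.pos_of_ne_zero hY0
  -- U
  obtain ⟨U, hU⟩ : ∃ U : ℕ, U = ⌊y ^ 10⌋₊ := ⟨_, rfl⟩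
  have hUle : (U : ℝ) ≤ y ^ 10 := by
    rw [hU]
    exact Nat.floor_le (by positivity)
  have hy10 : y ≤ y ^ 10 := by
    calc y = y ^ 1 := (pow_one y).symm
      _ ≤ y ^ 10 := pow_le_pow_right₀ hy1 (by norm_num)
  have hUge : y ^ 10 / 2 ≤ U := by
    have := Nat.lt_floor_add_one (y ^ 10)
    rw [← hU] at this
    linarith
  have hU1 : 1 ≤ U := by
    have : (1 : ℝ) ≤ U := by linarith
    exact_mod_cast this
  have hUU : ((U * U : ℕ) : ℝ) ≤ y ^ 20 := by
    push_cast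
    calc (U : ℝ) * U ≤ y ^ 10 * y ^ 10 := mul_le_mul hUle hUle (Nat.cast_nonneg _) (by positivity)
      _ = y ^ 20 := by ring
  have hd2 : (d : ℝ) ^ 2 ≤ y ^ 2 := pow_le_pow_left₀ hd0.le hdX 2
  have hBy : L ^ (2 * A + 40) ≤ y := hyL _ (by omega)
  have hUd : (d : ℝ) * L ^ (2 * A + 40) ≤ U := by
    refine le_trans ?_ hUge
    have h1 : (d : ℝ) * L ^ (2 * A + 40) ≤ y * y := mul_le_mul hdX hBy hLB.le hy0.le
    have h2 : y * y * 2 ≤ y ^ 10 := by
      calc y * y * 2 ≤ y * y * y := mul_le_mul_of_nonneg_left (by linarith) (by positivity)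
        _ = y ^ 3 := by ring
        _ ≤ y ^ 10 := pow_le_pow_right₀ hy1 (by norm_num)
    linarith
  have hdXX : 2 * (d : ℝ) ^ 2 * L ^ (2 * A + 40) ≤ X := by
    calc 2 * (d : ℝ) ^ 2 * L ^ (2 * A + 40) ≤ y * y ^ 2 * y := by
          apply mul_le_mul _ hBy hLB.le (by positivity)
          exact mul_le_mul (by linarith) hd2 (by positivity) hy0.le
      _ = y ^ 4 := by ring
      _ ≤ y ^ 50 := pow_le_pow_right₀ hy1 (by norm_num)
      _ = X := hyX
  have hqX : (q : ℝ) ≤ X := by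
    refine hqB2.trans ?_
    apply div_le_self hX0.le
    have : (1 : ℝ) ≤ (d : ℝ) ^ 2 := one_le_pow₀ hd1
    calc (1 : ℝ) = 1 * 1 := by ring
      _ ≤ (d : ℝ) ^ 2 * L ^ (2 * A + 40) := mul_le_mul this hLB1 (by norm_num) (by positivity)
  have hlq : Real.log q ≤ L := Real.log_le_log hq0' hqX
  have hlY : Real.log Y ≤ 2 * L := by
    have h1 : Real.log Y ≤ Real.log (2 * X) := Real.log_le_log (by exact_mod_cast hY1) hY
    rw [Real.log_mul (by norm_num) hX0.ne'] at h1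
    have : Real.log 2 ≤ 2 - 1 := Real.log_le_sub_one_of_pos (by norm_num)
    linarith
  have hy20 : y ^ 20 ≤ X := by
    rw [← hyX]
    exact pow_le_pow_right₀ hy1 (by norm_num)
  have hlUU : Real.log ((U * U : ℕ) : ℝ) ≤ L := by
    apply Real.log_le_log
    · exact_mod_cast Nat.mul_pos hU1 hU1
    · exact hUU.trans hy20
  have hlU : Real.log U ≤ L := by
    refine le_trans (Real.log_le_log (by exact_mod_cast hU1) ?_) hlUU
    exact_mod_cast Nat.le_mul_of_pos_right U hU1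
  -- E
  set E : ℝ := X / d / L ^ (2 * A + 40) with hE
  have hE0 : 0 ≤ E := by positivity
  have hE1 : X / (d * q) ≤ E := by
    rw [hE, div_div]
    apply div_le_div_of_nonneg_left hX0.le (by positivity)
    exact mul_le_mul_of_nonneg_left hqB hd0.le
  have hE2 : (d : ℝ) * q ≤ E := by
    calc (d : ℝ) * q ≤ d * (X / ((d : ℝ) ^ 2 * L ^ (2 * A + 40))) :=
          mul_le_mul_of_nonneg_left hqB2 hd0.le
      _ = E := by
          rw [hE]; field_simp
  have hE3 : (d : ℝ) * ((U * U : ℕ) : ℝ) ≤ E := by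
    rw [hE, div_div, le_div_iff₀ (by positivity)]
    calc (d : ℝ) * ((U * U : ℕ) : ℝ) * (d * L ^ (2 * A + 40))
        ≤ y * y ^ 20 * (y * y) := by
          apply mul_le_mul (mul_le_mul hdX hUU (Nat.cast_nonneg _) hy0.le)
            (mul_le_mul hdX hBy hLB.le hy0.le) (by positivity) (by positivity)
      _ = y ^ 23 := by ring
      _ ≤ y ^ 50 := pow_le_pow_right₀ hy1 (by norm_num)
      _ = X := hyX
  obtain ⟨c, dd, e, hc1, hc0, hdd1, hdd0, he1, he0, hid⟩ := hvau U U Y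
  have hid2 := hid (gcLaW U Y d a θ) (fun n hn => by
      unfold gcLaW
      rw [if_neg]
      rintro ⟨h1, -⟩
      omega) (fun n hn => by
      unfold gcLaW
      rw [if_neg]
      rintro ⟨-, h1, -⟩
      omega)
  have hsplit : ∑ t ∈ (Icc 1 Y).filter (fun t => t ≡ a [MOD d]), (vonMangoldt t : ℂ) * ex (θ * t)
      = ∑ t ∈ Icc 1 Y, (vonMangoldt t : ℂ) * gcLaW U Y d a θ t +
        ∑ t ∈ Icc 1 Y, (vonMangoldt t : ℂ) *
          (if t ≤ U ∧ t ≡ a [MOD d] then ex (θ * t) else 0) := by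
    rw [Finset.sum_filter, ← Finset.sum_add_distrib]
    refine Finset.sum_congr rfl fun t ht => ?_
    rw [Finset.mem_Icc] at ht
    unfold gcLaW
    by_cases h1 : t ≡ a [MOD d]
    · rw [if_pos h1]
      by_cases h2 : t ≤ U
      · rw [if_neg (fun h3 => by omega), if_pos ⟨h2, h1⟩]
        simp
      · rw [if_pos ⟨by omega, ht.2, h1⟩, if_neg (fun h3 => h2 h3.1)]
        simp
    · rw [if_neg h1, if_neg (fun h3 => h1 h3.2.2), if_neg (fun h3 => h1 h3.2)]
      simp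
  obtain ⟨hT1, hT2⟩ := gc_La_typeI ht1 d a q U Y θ X L E h c dd hd had hq0 hh hθ hX0 hY hL1 hU1
    hE0 hlY hlq hlUU hE1 hE2 hE3 hc1 hc0 hdd1 hdd0
  have hT3 := gc_La_typeII ht2 d a q U Y A θ X L h e hd had hq0 hh hθ hX0 hY1 hY he1 he0 hXL rfl
    hU1 hlq hqB hqB2 hUd hdXX
  have hT4 := gc_La_small U Y d a θ L hlU
  rw [hsplit, hid2]
  refine (norm_add_le _ _).trans ?_
  refine (add_le_add ((norm_add_le _ _).trans (add_le_add ((norm_sub_le _ _).trans
    (add_le_add hT1 hT2)) hT3)) hT4).trans ?_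
  have b1 : 16000 * E * L ^ 3 ≤ X / d / L ^ A * (1 / 4) := by
    have h1 : E * L ^ (A + 40) = X / d / L ^ A := by
      rw [hE, show 2 * A + 40 = A + (A + 40) by ring, pow_add]
      field_simp
    have h2 : 64000 * L ^ 3 ≤ L ^ (A + 40) := by
      calc 64000 * L ^ 3 ≤ L * L ^ 3 := mul_le_mul_of_nonneg_right (by linarith) (by positivity)
        _ = L ^ 4 := by ring
        _ ≤ L ^ (A + 40) := pow_le_pow_right₀ hL1 (by omega)
    have h3 := mul_le_mul_of_nonneg_left h2 hE0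
    rw [h1] at h3
    linarith
  have b2 : (U : ℝ) * L ≤ X / d / L ^ A * (1 / 4) := by
    rw [div_div, div_mul_div_comm, mul_one, le_div_iff₀ (by positivity)]
    have h1 : 4 * L ^ (A + 1) ≤ y := by
      refine le_trans ?_ (hyL (A + 2) (by omega))
      calc 4 * L ^ (A + 1) ≤ L * L ^ (A + 1) :=
            mul_le_mul_of_nonneg_right (by linarith) (by positivity)
        _ = L ^ (A + 2) := by ring
    calc (U : ℝ) * L * (d * L ^ A * 4) = U * d * (4 * L ^ (A + 1)) := by ring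
      _ ≤ y ^ 10 * y * y := by
          apply mul_le_mul (mul_le_mul hUle hdX hd0.le (by positivity)) h1 (by positivity)
            (by positivity)
      _ = y ^ 12 := by ring
      _ ≤ y ^ 50 := pow_le_pow_right₀ hy1 (by norm_num)
      _ = X := hyX
  linarith

end Pool.Agent.GC.E
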