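import Pool.Agent.Lib.MP_0da313_nt.GC.M

set_option autoImplicit false

/-!
Project GC, piece MA: the major arcs.
-/

namespace Pool.Agent.GC.M

open Finset Filter
open Pool.Agent.CM (wd mu)
open Pool.Agent.SP80 (ex mn)

/-- the harmonic sum -/
private theorem gc_MA_harm (n : ℕ) (y : ℝ) (hy : 1 ≤ y) (hn : (n : ℝ) ≤ y) :
    ∑ d ∈ Icc 1 n, 1 / (d : ℝ) ≤ 1 + Real.log y := by
  have h1 : (∑ d ∈ Icc 1 n, 1 / (d : ℝ)) = ((harmonic n : ℚ) : ℝ) := by
    rw [harmonic_eq_sum_Icc]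
    push_cast
    exact Finset.sum_congr rfl fun d _ => one_div _
  rw [h1]
  rcases Nat.eq_zero_or_pos n with h | h
  · subst h
    simp only [harmonic_zero, Rat.cast_zero]
    have := Real.log_nonneg hy
    linarith
  · have h2 := harmonic_le_one_add_log n
    have h3 : Real.log n ≤ Real.log y := Real.log_le_log (by exact_mod_cast h) hn
    linarith

private theorem gc_MA_log9 : -(1 / 9 : ℝ) ≤ Real.log (9 / 10) := by
  have h := Real.one_sub_inv_le_log_of_pos (show (0 : ℝ) < 9 / 10 by norm_num)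
  norm_num at h ⊢
  linarith

private theorem gc_MA_log11 : Real.log (11 / 10) ≤ 1 / 10 := by
  have h := Real.log_le_sub_one_of_pos (show (0 : ℝ) < 11 / 10 by norm_num)
  linarith

/-- comparison of the parameters at `X` and at `Y ∈ [0.9 X, 1.1 X]` -/
private theorem gc_MA_par (B K0 w k : ℕ) (X Y : ℝ) (hX : 0 < X) (hL : 6 ≤ Real.log X)
    (hB : (2 : ℝ) ^ (B + 1) + 1 ≤ Real.log X) (hK : (2 : ℝ) ^ K0 ≤ Real.log X)
    (h1 : 9 / 10 * X ≤ Y) (h2 : Y ≤ 11 / 10 * X) (hP : Pm X (1 / 100) (K0 + 1) w k) :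
    Real.log X - 1 ≤ Real.log Y ∧ (Real.log X) ^ B ≤ (Real.log Y) ^ (B + 1) ∧
      X ^ (1 / 50 : ℝ) ≤ Y ^ (1 / 49 : ℝ) ∧ Pm Y (1 / 50) K0 w k := by
  set L := Real.log X with hLd
  have hY : 0 < Y := by nlinarith
  have hlow : L - 1 / 9 ≤ Real.log Y := by
    have h3 : Real.log (9 / 10 * X) ≤ Real.log Y := Real.log_le_log (by positivity) h1
    rw [Real.log_mul (by norm_num) hX.ne'] at h3
    have := gc_MA_log9
    linarith
  have hup : Real.log Y ≤ L + 1 / 10 := by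
    have h3 : Real.log Y ≤ Real.log (11 / 10 * X) := Real.log_le_log hY h2
    rw [Real.log_mul (by norm_num) hX.ne'] at h3
    have := gc_MA_log11
    linarith
  have hLY : L / 2 ≤ Real.log Y := by linarith
  have hLpow : ∀ n : ℕ, (L + 1 / 10) ^ n ≤ 2 ^ n * L ^ n := by
    intro n
    rw [← mul_pow]
    apply pow_le_pow_left₀ (by linarith)
    linarith
  refine ⟨by linarith, ?_, ?_, ?_⟩
  · have h3 : (L / 2) ^ (B + 1) ≤ (Real.log Y) ^ (B + 1) := pow_le_pow_left₀ (by linarith) hLY _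
    refine le_trans ?_ h3
    rw [div_pow, le_div_iff₀ (by positivity), pow_succ L B]
    apply mul_le_mul_of_nonneg_left _ (by positivity)
    linarith
  · rw [Real.rpow_def_of_pos hX, Real.rpow_def_of_pos hY]
    apply Real.exp_le_exp.2
    show L * (1 / 50) ≤ Real.log Y * (1 / 49)
    linarith
  · refine ⟨?_, ?_, hP.even, ?_⟩
    · have h3 : (Real.log Y) ^ K0 ≤ (L + 1 / 10) ^ K0 := pow_le_pow_left₀ (by linarith) hup _
      have h4 : L ^ (K0 + 1) ≤ w := hP.w_ge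
      have h5 : 2 ^ K0 * L ^ K0 ≤ L ^ (K0 + 1) := by
        rw [pow_succ L K0, mul_comm]
        exact mul_le_mul_of_nonneg_left hK (by positivity)
      exact h3.trans ((hLpow K0).trans (h5.trans h4))
    · have h4 : ((K0 + 1 : ℕ) : ℝ) * Real.log L ≤ k := hP.k_ge
      refine le_trans ?_ h4
      have h3 : (Real.log Y) ^ K0 ≤ L ^ (K0 + 1) := by
        have h3 : (Real.log Y) ^ K0 ≤ (L + 1 / 10) ^ K0 := pow_le_pow_left₀ (by linarith) hup _
        have h5 : 2 ^ K0 * L ^ K0 ≤ L ^ (K0 + 1) := by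
          rw [pow_succ L K0, mul_comm]
          exact mul_le_mul_of_nonneg_left hK (by positivity)
        exact h3.trans ((hLpow K0).trans h5)
      rw [← Real.log_pow, ← Real.log_pow]
      apply Real.log_le_log _ h3
      apply pow_pos
      linarith
    · refine hP.wk.trans ?_
      rw [Real.rpow_def_of_pos hX, Real.rpow_def_of_pos hY]
      apply Real.exp_le_exp.2
      show L * (1 / 100) ≤ Real.log Y * (1 / 50)
      linarith

/-- the indices `j` -/
private theorem gc_MA_j (X lam : ℝ) (hX : 0 < X) (hl : 1 ≤ lam) (j : ℕ)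
    (hj : j ∈ Icc ⌈lam * Real.log (9 / 10 * X)⌉₊ ⌊lam * Real.log (11 / 10 * X)⌋₊)
    (hL : 6 ≤ Real.log X) :
    9 / 10 * X ≤ Real.exp (j / lam) ∧ Real.exp (j / lam) ≤ 11 / 10 * X := by
  rw [mem_Icc] at hj
  have hl0 : 0 < lam := by linarith
  have h0 : 0 ≤ lam * Real.log (11 / 10 * X) := by
    apply mul_nonneg hl0.le
    rw [Real.log_mul (by norm_num) hX.ne']
    have : 0 ≤ Real.log (11 / 10) := Real.log_nonneg (by norm_num)
    linarith
  have h1 : lam * Real.log (9 / 10 * X) ≤ j := Nat.ceil_le.1 hj.1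
  have h2 : (j : ℝ) ≤ lam * Real.log (11 / 10 * X) := (Nat.le_floor_iff h0).1 hj.2
  constructor
  · rw [← Real.log_le_iff_le_exp (by positivity), le_div_iff₀ hl0]
    linarith
  · rw [← Real.le_log_iff_exp_le (by positivity), div_le_iff₀ hl0]
    linarith

private theorem gc_MA_card (X lam : ℝ) (hX : 0 < X) (hl : 1 ≤ lam) (hL : 6 ≤ Real.log X) :
    ((Icc ⌈lam * Real.log (9 / 10 * X)⌉₊ ⌊lam * Real.log (11 / 10 * X)⌋₊).card : ℝ) ≤ 2 * lam := by
  rw [Nat.card_Icc]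
  have hl0 : 0 < lam := by linarith
  set a := lam * Real.log (9 / 10 * X) with ha
  set b := lam * Real.log (11 / 10 * X) with hb
  have hb0 : 0 ≤ b := by
    apply mul_nonneg hl0.le
    rw [Real.log_mul (by norm_num) hX.ne']
    have : 0 ≤ Real.log (11 / 10) := Real.log_nonneg (by norm_num)
    linarith
  have hab : b - a ≤ lam := by
    rw [ha, hb, Real.log_mul (by norm_num) hX.ne', Real.log_mul (by norm_num) hX.ne']
    have h1 := gc_MA_log9
    have h2 := gc_MA_log11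
    nlinarith
  have h1 : (⌊b⌋₊ : ℝ) ≤ b := Nat.floor_le hb0
  have h2 : a ≤ ⌈a⌉₊ := Nat.le_ceil a
  by_cases h3 : ⌈a⌉₊ ≤ ⌊b⌋₊ + 1
  · rw [Nat.cast_sub h3, Nat.cast_add, Nat.cast_one]
    linarith
  · rw [Nat.sub_eq_zero_of_le (by omega), Nat.cast_zero]
    linarith

theorem p_MA : S_MA := by
  intro htz hdf A B
  obtain ⟨E, hE⟩ := htz (A + 2) B
  obtain ⟨K0, hK0⟩ := hdf (A + E + 3) (B + 1)
  refine ⟨K0 + 1, ?_⟩
  obtain ⟨X1, hX1⟩ := eventually_atTop.1 hK0
  have hlog : ∀ c : ℝ, ∀ᶠ X : ℝ in atTop, c ≤ Real.log X := fun c =>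
    Real.tendsto_log_atTop.eventually_ge_atTop c
  filter_upwards [hE, eventually_ge_atTop (max 1 (10 / 9 * X1)), hlog 6, hlog (2 ^ (B + 1) + 1),
    hlog (2 ^ K0), hlog (10 * 2 ^ (A + E + 3))] with X hEX hXX hL6 hLB hLK hLA
  intro w k hP a q b θ S hS ha hq
  have hX1' : 1 ≤ X := (le_max_left _ _).trans hXX
  have hXX1 : 10 / 9 * X1 ≤ X := (le_max_right _ _).trans hXX
  have hX : 0 < X := by linarith
  set L := Real.log X with hLd
  have hL1 : 1 ≤ L := by linarith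
  have hL0 : 0 < L := by linarith
  set lam := L ^ E with hlam
  have hlam1 : 1 ≤ lam := one_le_pow₀ hL1
  set J := Icc ⌈lam * Real.log (9 / 10 * X)⌉₊ ⌊lam * Real.log (11 / 10 * X)⌋₊ with hJ
  -- the parameters with `K = 1`
  have hP1 : Pm X (1 / 100) 1 w k := by
    refine ⟨?_, ?_, hP.even, hP.wk⟩
    · refine le_trans ?_ hP.w_ge
      exact pow_le_pow_right₀ hL1 (by omega)
    · refine le_trans ?_ hP.k_ge
      have : 0 ≤ Real.log L := Real.log_nonneg hL1
      apply mul_le_mul_of_nonneg_right _ this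
      push_cast
      have : (0 : ℝ) ≤ K0 := Nat.cast_nonneg _
      linarith
  have hSd : ∀ d ∈ S, 1 ≤ d ∧ (d : ℝ) ≤ X ^ (1 / 50 : ℝ) := by
    intro d hd
    have h1 := mem_Icc.1 (hS hd)
    exact ⟨h1.1, (Nat.le_floor_iff (by positivity)).1 h1.2⟩
  -- the terms
  let T : (ℕ → ℕ) → (ℕ → ℤ) → ℕ → ℕ → ℝ := fun q b d j =>
    ‖∑ t ∈ (Icc 1 ⌊3 * Real.exp (j / lam)⌋₊).filter (fun t => t ≡ a d [MOD d]),
      ((CH.thP t - HH w k t : ℝ) : ℂ) * ex ((b d : ℝ) * t / ((d : ℝ) ^ 2 * q d)) *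
        (wd lam (Real.exp (j / lam)) t : ℂ)‖
  have hT0 : ∀ q b d j, 0 ≤ T q b d j := fun q b d j => norm_nonneg _
  have h1 : ∀ d ∈ S, ‖ES w k X d (a d) (θ d)‖ ≤ ∑ j ∈ J, T q b d j + X / d / L ^ (A + 2) := by
    intro d hd
    exact hEX w k hP1 d (a d) (q d) (b d) (θ d) (hSd d hd).1 (hSd d hd).2 (ha d) (hq d hd).1
      (hq d hd).2.2 lam rfl
  -- the sum over `d` for fixed `j`
  classical
  let q' : ℕ → ℕ := fun d => if d ∈ S then q d else 1
  let b' : ℕ → ℤ := fun d => if d ∈ S then b d else 0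
  have h2 : ∀ j ∈ J, ∑ d ∈ S, T q b d j ≤ 11 / 10 * X * 2 ^ (A + E + 3) / L ^ (A + E + 3) := by
    intro j hj
    obtain ⟨e1, e2⟩ := gc_MA_j X lam hX hlam1 j hj hL6
    set Y := Real.exp (j / lam) with hY
    obtain ⟨f1, f2, f3, f4⟩ := gc_MA_par B K0 w k X Y hX hL6 hLB hLK e1 e2 hP
    have hYpos : 0 < Y := Real.exp_pos _
    have hYX1 : X1 ≤ Y := by linarith
    have h3 := hX1 Y hYX1 w k f4 lam hlam1 a q' b' ha (by
      intro d
      by_cases hd : d ∈ S
      · simp only [q', if_pos hd]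
        exact ⟨(hq d hd).1, (hq d hd).2.1.trans f2⟩
      · simp only [q', if_neg hd]
        refine ⟨le_rfl, ?_⟩
        rw [Nat.cast_one]
        exact one_le_pow₀ (by linarith))
    have h4 : ∑ d ∈ S, T q b d j ≤ ∑ d ∈ Icc 1 ⌊Y ^ (1 / 49 : ℝ)⌋₊, T q' b' d j := by
      have h5 : ∑ d ∈ S, T q b d j = ∑ d ∈ S, T q' b' d j := by
        apply sum_congr rfl
        intro d hd
        simp only [T, q', b', if_pos hd]
      rw [h5]
      apply sum_le_sum_of_subset_of_nonneg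
      · intro d hd
        rw [mem_Icc]
        refine ⟨(hSd d hd).1, ?_⟩
        rw [Nat.le_floor_iff (by positivity)]
        exact (hSd d hd).2.trans f3
      · intro d _ _
        exact hT0 _ _ _ _
    refine h4.trans (h3.trans ?_)
    have h5 : (L / 2) ^ (A + E + 3) ≤ Real.log Y ^ (A + E + 3) :=
      pow_le_pow_left₀ (by linarith) (by linarith) _
    have h6 : 0 < (L / 2) ^ (A + E + 3) := by positivity
    calc Y / Real.log Y ^ (A + E + 3) ≤ Y / (L / 2) ^ (A + E + 3) :=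
          div_le_div_of_nonneg_left hYpos.le h6 h5
      _ ≤ (11 / 10 * X) / (L / 2) ^ (A + E + 3) := div_le_div_of_nonneg_right e2 h6.le
      _ = 11 / 10 * X * 2 ^ (A + E + 3) / L ^ (A + E + 3) := by
          rw [div_pow]
          field_simp
  -- the total
  have h3 : ∑ d ∈ S, ‖ES w k X d (a d) (θ d)‖ ≤
      ∑ j ∈ J, ∑ d ∈ S, T q b d j + ∑ d ∈ S, X / d / L ^ (A + 2) := by
    rw [sum_comm, ← sum_add_distrib]
    exact sum_le_sum h1
  have h4 : ∑ j ∈ J, ∑ d ∈ S, T q b d j ≤ X / (2 * L ^ A) := by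
    have h5 : ∑ j ∈ J, ∑ d ∈ S, T q b d j ≤
        J.card * (11 / 10 * X * 2 ^ (A + E + 3) / L ^ (A + E + 3)) := by
      have := sum_le_card_nsmul J _ _ h2
      rwa [nsmul_eq_mul] at this
    have h6 : (J.card : ℝ) ≤ 2 * lam := gc_MA_card X lam hX hlam1 hL6
    have h7 : 0 ≤ 11 / 10 * X * 2 ^ (A + E + 3) / L ^ (A + E + 3) := by positivity
    have h8 := mul_le_mul_of_nonneg_right h6 h7
    refine h5.trans (h8.trans ?_)
    have h9 : 2 * lam * (11 / 10 * X * 2 ^ (A + E + 3) / L ^ (A + E + 3)) =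
        (22 / 10 * 2 ^ (A + E + 3)) * (X / L ^ (A + 3)) := by
      rw [hlam, show A + E + 3 = E + (A + 3) by ring, pow_add L E (A + 3)]
      field_simp
      ring
    rw [h9]
    have h10 : X / (2 * L ^ A) = (L ^ 3 / 2) * (X / L ^ (A + 3)) := by
      rw [pow_add]
      field_simp
    rw [h10]
    apply mul_le_mul_of_nonneg_right _ (by positivity)
    have h11 : L ≤ L ^ 3 := by nlinarith [sq_nonneg L, mul_pos hL0 hL0]
    linarith
  have h5 : ∑ d ∈ S, X / d / L ^ (A + 2) ≤ X / (2 * L ^ A) := by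
    have h6 : ∑ d ∈ S, X / d / L ^ (A + 2) ≤
        ∑ d ∈ Icc 1 ⌊X ^ (1 / 50 : ℝ)⌋₊, X / d / L ^ (A + 2) := by
      apply sum_le_sum_of_subset_of_nonneg hS
      intro d _ _
      positivity
    have h7 : ∑ d ∈ Icc 1 ⌊X ^ (1 / 50 : ℝ)⌋₊, X / d / L ^ (A + 2) =
        X / L ^ (A + 2) * ∑ d ∈ Icc 1 ⌊X ^ (1 / 50 : ℝ)⌋₊, 1 / (d : ℝ) := by
      rw [mul_sum]
      apply sum_congr rfl
      intro d _
      rw [div_div, mul_one_div, div_div, mul_comm (d : ℝ)]
    have h8 : ((⌊X ^ (1 / 50 : ℝ)⌋₊ : ℕ) : ℝ) ≤ X := by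
      refine (Nat.floor_le (by positivity)).trans ?_
      have := Real.rpow_le_rpow_of_exponent_le hX1' (show (1 / 50 : ℝ) ≤ 1 by norm_num)
      rwa [Real.rpow_one] at this
    have h9 := gc_MA_harm _ X hX1' h8
    refine h6.trans ?_
    rw [h7]
    have h10 : X / (2 * L ^ A) = X / L ^ (A + 2) * (L ^ 2 / 2) := by
      rw [pow_add]
      field_simp
    rw [h10]
    apply mul_le_mul_of_nonneg_left _ (by positivity)
    refine h9.trans ?_
    show 1 + L ≤ L ^ 2 / 2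
    nlinarith
  have h6 : X / L ^ A = X / (2 * L ^ A) + X / (2 * L ^ A) := by
    field_simp
    ring
  rw [h6]
  exact h3.trans (add_le_add h4 h5)

end Pool.Agent.GC.M
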