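import Pool.Agent.Lib.MP_0da313_nt.GC.E

set_option autoImplicit false

namespace Pool.Agent.GC.E

open Finset Filter
open Pool.Agent.SP80 (ex mn SW1 SW3)

private theorem gc_ap_ex_add (x y : ℝ) : ex (x + y) = ex x * ex y := by
  unfold ex
  rw [← Complex.exp_add]
  congr 1
  push_cast
  ring

private theorem gc_ap_norm_ex (x : ℝ) : ‖ex x‖ = 1 := by
  unfold ex
  exact Complex.norm_exp_ofReal_mul_I _

private theorem gc_ap_mn_nonneg (H x : ℝ) (hH : 0 ≤ H) : 0 ≤ mn H x := by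
  unfold mn
  split_ifs
  · exact hH
  · exact le_min hH (by positivity)

private theorem gc_ap_mn_mono (H H' x : ℝ) (h : H ≤ H') : mn H x ≤ mn H' x := by
  unfold mn
  split_ifs
  · exact h
  · exact min_le_min_right _ h

/-- the elements of a residue class in an interval form an arithmetic progression -/
private theorem gc_ap_set (d b u v l0 : ℕ) (hd : 1 ≤ d) (h0 : u < l0) (h0v : l0 ≤ v)
    (h0b : l0 ≡ b [MOD d]) (hmin : ∀ l, u < l → l ≤ v → l ≡ b [MOD d] → l0 ≤ l) :
    (Ioc u v).filter (fun l => l ≡ b [MOD d]) =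
      (range ((v - l0) / d + 1)).image (fun j => l0 + d * j) := by
  ext l
  rw [mem_filter, mem_Ioc, mem_image]
  constructor
  · rintro ⟨⟨h1, h2⟩, h3⟩
    have hle := hmin l h1 h2 h3
    have hdvd : d ∣ l - l0 := (Nat.modEq_iff_dvd' hle).mp (h0b.trans h3.symm)
    obtain ⟨j, hj⟩ := hdvd
    refine ⟨j, ?_, by omega⟩
    rw [mem_range, Nat.lt_succ_iff, Nat.le_div_iff_mul_le (by omega)]
    have : d * j ≤ v - l0 := by omega
    rw [mul_comm]; exact this
  · rintro ⟨j, hj, rfl⟩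
    rw [mem_range, Nat.lt_succ_iff, Nat.le_div_iff_mul_le (by omega)] at hj
    rw [mul_comm] at hj
    refine ⟨⟨by omega, by omega⟩, ?_⟩
    have h1 : l0 + d * j ≡ l0 + 0 [MOD d] := Nat.ModEq.add_left _ (Nat.modEq_zero_iff_dvd.mpr ⟨j, rfl⟩)
    exact h1.trans (by simpa using h0b)

theorem p_ap : S_ap := by
  intro hSW d b u v x H hd hH hle
  by_cases hne : ((Ioc u v).filter (fun l => l ≡ b [MOD d])).Nonempty
  · set l0 := ((Ioc u v).filter (fun l => l ≡ b [MOD d])).min' hne with hl0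
    have hmem := min'_mem _ hne
    rw [← hl0, mem_filter, mem_Ioc] at hmem
    obtain ⟨⟨h1, h2⟩, h3⟩ := hmem
    have hmin : ∀ l, u < l → l ≤ v → l ≡ b [MOD d] → l0 ≤ l := by
      intro l a1 a2 a3
      exact min'_le _ _ (mem_filter.mpr ⟨mem_Ioc.mpr ⟨a1, a2⟩, a3⟩)
    rw [gc_ap_set d b u v l0 hd h1 h2 h3 hmin]
    have hinj : Set.InjOn (fun j => l0 + d * j) (range ((v - l0) / d + 1) : Set ℕ) := by
      intro j _ j' _ hjj
      have : d * j = d * j' := by simpa using hjj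
      exact Nat.eq_of_mul_eq_mul_left (by omega) this
    rw [sum_image hinj]
    have hterm : ∀ j ∈ range ((v - l0) / d + 1), ex (x * ((l0 + d * j : ℕ) : ℝ)) =
        ex (x * l0) * ex ((j : ℝ) * (d * x)) := by
      intro j _
      rw [← gc_ap_ex_add]
      congr 1
      push_cast
      ring
    rw [sum_congr rfl hterm, ← mul_sum, norm_mul, gc_ap_norm_ex, one_mul]
    have hs := hSW 0 ((v - l0) / d + 1) (d * x)
    rw [zero_add, ← range_eq_Ico] at hs
    refine hs.trans (gc_ap_mn_mono _ _ _ (le_trans ?_ hle))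
    have hdR : (0 : ℝ) < d := by exact_mod_cast hd
    have q1 : (((v - l0) / d : ℕ) : ℝ) ≤ ((v - l0 : ℕ) : ℝ) / d := Nat.cast_div_le
    have q2 : ((v - l0 : ℕ) : ℝ) ≤ (v : ℝ) - u := by
      rw [Nat.cast_sub h2]
      have : (u : ℝ) ≤ l0 := by exact_mod_cast h1.le
      linarith
    have q3 : ((v - l0 : ℕ) : ℝ) / d ≤ ((v : ℝ) - u) / d := div_le_div_of_nonneg_right q2 hdR.le
    push_cast
    push_cast at q1
    linarith
  · rw [not_nonempty_iff_eq_empty] at hne
    rw [hne, sum_empty, norm_zero]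
    exact gc_ap_mn_nonneg _ _ hH

end Pool.Agent.GC.E
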