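import Pool.Agent.Lib.MP_0da313_nt.GC.M
import Pool.Agent.Lib.MP_89da58_nt.Bv

set_option autoImplicit false

/-! Piece bL of the project GC. -/

namespace Pool.Agent.GC.M

open Finset Filter
open ArithmeticFunction (vonMangoldt)
open Pool.Agent.MP89da58 (tri primChars kapD sum_not_coprime_le' inv_totient_le)
open Pool.Agent.Lib.MP_0da313_nt (W U)
open Pool.Agent.CH (thP)
open Pool.Agent.CM (wd mu)
open Pool.Agent.SP80 (ex mn)

private lemma gc_bL_ex_add (x y : ℝ) : ex (x + y) = ex x * ex y := by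
  unfold ex
  rw [← Complex.exp_add]
  congr 1
  push_cast
  ring

private lemma gc_bL_ex_int (k : ℤ) : ex (k : ℝ) = 1 := by
  unfold ex
  rw [Complex.exp_eq_one_iff]
  exact ⟨k, by push_cast; ring⟩

private lemma gc_bL_norm_ex (x : ℝ) : ‖ex x‖ = 1 := by
  unfold ex
  rw [Complex.norm_exp_ofReal_mul_I]

private lemma gc_bL_zsum (K : ℕ) [NeZero K] (g : ℕ → ℂ) :
    ∑ x : ZMod K, g x.val = ∑ r ∈ range K, g r := by
  cases K with
  | zero => exact absurd rfl (NeZero.ne 0)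
  | succ m => exact Fin.sum_univ_eq_sum_range g (m + 1)

private lemma gc_bL_wd0 (lam X : ℝ) (n : ℕ) : 0 ≤ wd lam X n := le_max_left _ _

private lemma gc_bL_wd1 (lam X : ℝ) (n : ℕ) : wd lam X n ≤ 1 :=
  max_le zero_le_one (by linarith [abs_nonneg (lam * Real.log (n / X))])

/-- the exponential is periodic -/
private lemma gc_bL_per (b : ℤ) (n K : ℕ) (hK : 1 ≤ K) :
    ex ((b : ℝ) * ((n % K : ℕ) : ℝ) / K) = ex ((b : ℝ) * n / K) := by
  have hK0 : (K : ℝ) ≠ 0 := by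
    have : (0 : ℝ) < K := by exact_mod_cast hK
    exact this.ne'
  have h1 : (n : ℝ) = ((n % K : ℕ) : ℝ) + K * ((n / K : ℕ) : ℝ) := by
    exact_mod_cast (Nat.mod_add_div n K).symm
  have h2 : (b : ℝ) * n / K = (b : ℝ) * ((n % K : ℕ) : ℝ) / K + ((b * ((n / K : ℕ) : ℤ) : ℤ) : ℝ) := by
    rw [h1, Int.cast_mul, Int.cast_natCast]
    field_simp
  rw [h2, gc_bL_ex_add, gc_bL_ex_int, mul_one]

/-- the number of the residues modulo `d e` in a class modulo `d` -/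
private lemma gc_bL_card (d e a : ℕ) (hd : 1 ≤ d) :
    ((range (d * e)).filter (fun r => r ≡ a [MOD d])).card = e := by
  have h1 := Nat.count_modEq_card (d * e) (show 0 < d by omega) a
  rw [Nat.mul_mod_right, if_neg (by omega), add_zero, Nat.mul_div_cancel_left _ (by omega)] at h1
  rw [← Nat.count_eq_card_filter_range]
  exact h1

/-- the pieces for one modulus -/
private lemma gc_bL_one (hch : R_ch) {X lam : ℝ} (hX : 1 ≤ X) {d q : ℕ} (hd : 1 ≤ d)
    (hq : 1 ≤ q) (a : ℕ) (b : ℤ) {Er : ℝ}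
    (hE : |∑ n ∈ Icc 1 ⌊3 * X⌋₊, vonMangoldt n * wd lam X n - mu lam * X| ≤ Er) :
    ‖∑ t ∈ (Icc 1 ⌊3 * X⌋₊).filter (fun t => t ≡ a [MOD d]),
      (vonMangoldt t : ℂ) * ex ((b : ℝ) * t / ((d : ℝ) ^ 2 * q)) * (wd lam X t : ℂ) -
      ((mu lam * X : ℝ) : ℂ) / (Nat.totient (d ^ 2 * q) : ℂ) * GG d q a b‖
    ≤ (d ^ 2 * q : ℕ) * Real.log (3 * X) +
      (d * q : ℕ) / (Nat.totient (d ^ 2 * q) : ℝ) * (Er + (d ^ 2 * q : ℕ) * Real.log (3 * X)) +
      (d * q : ℕ) / (Nat.totient (d ^ 2 * q) : ℝ) *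
        (∑ r ∈ (d ^ 2 * q).divisors.filter (fun r => 2 ≤ r), pL lam X r +
          (d ^ 2 * q : ℕ) * ((d ^ 2 * q : ℕ) * Real.log (3 * X))) := by
  classical
  set K : ℕ := d ^ 2 * q with hKdef
  have hK1 : 1 ≤ K := Nat.mul_pos (pow_pos hd 2) hq
  have hKne : NeZero K := ⟨by omega⟩
  have hdK : d ∣ K := ⟨d * q, by rw [hKdef]; ring⟩
  have hKR : ((K : ℕ) : ℝ) = (d : ℝ) ^ 2 * q := by rw [hKdef]; push_cast; ring
  have hφ : (0 : ℝ) < Nat.totient K := by
    exact_mod_cast Nat.totient_pos.2 (by omega)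
  set S : Finset ℕ := Icc 1 ⌊3 * X⌋₊ with hS
  set N0 : ℝ := (K : ℝ) * Real.log (3 * X) with hN0
  have hN0' : ∑ n ∈ S.filter (fun n => ¬ n.Coprime K), vonMangoldt n ≤ N0 :=
    sum_not_coprime_le' hX K (by omega)
  set g : ℕ → ℂ := fun n => (vonMangoldt n : ℂ) * (wd lam X n : ℂ) with hg
  have hgn : ∀ n, ‖g n‖ ≤ vonMangoldt n := by
    intro n
    simp only [hg]
    rw [norm_mul, Complex.norm_real, Complex.norm_real,
      Real.norm_of_nonneg ArithmeticFunction.vonMangoldt_nonneg,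
      Real.norm_of_nonneg (gc_bL_wd0 lam X n)]
    exact mul_le_of_le_one_right ArithmeticFunction.vonMangoldt_nonneg (gc_bL_wd1 lam X n)
  have hgN0 : ∑ n ∈ S.filter (fun n => ¬ n.Coprime K), ‖g n‖ ≤ N0 :=
    (Finset.sum_le_sum fun n _ => hgn n).trans hN0'
  set G0 : ℕ → ℂ := fun r => if r.Coprime K ∧ r ≡ a [MOD d] then
    ex ((b : ℝ) * r / K) else 0 with hG0
  set f : ZMod K → ℂ := fun x => G0 x.val with hf
  have hunit : ∀ x : ZMod K, IsUnit x ↔ x.val.Coprime K := by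
    intro x
    rw [← ZMod.isUnit_iff_coprime, ZMod.natCast_zmod_val]
  have hf0 : ∀ x, ¬ IsUnit x → f x = 0 := by
    intro x hx
    simp only [hf, hG0]
    rw [if_neg]
    rintro ⟨h1, _⟩
    exact hx ((hunit x).2 h1)
  have hfn : ∑ x : ZMod K, ‖f x‖ ≤ ((d * q : ℕ) : ℝ) := by
    have h1 : ∑ x : ZMod K, ‖f x‖ = ∑ r ∈ range K, ‖G0 r‖ := by
      have h2 := gc_bL_zsum K (fun r => ((‖G0 r‖ : ℝ) : ℂ))
      have h3 : ((∑ x : ZMod K, ‖f x‖ : ℝ) : ℂ) = ((∑ r ∈ range K, ‖G0 r‖ : ℝ) : ℂ) := by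
        push_cast
        exact h2
      exact_mod_cast h3
    rw [h1]
    have h2 : ∀ r ∈ range K, ‖G0 r‖ ≤ if r ≡ a [MOD d] then (1 : ℝ) else 0 := by
      intro r _
      simp only [hG0]
      by_cases h3 : r ≡ a [MOD d]
      · rw [if_pos h3]
        split_ifs
        · rw [gc_bL_norm_ex]
        · rw [norm_zero]; exact zero_le_one
      · rw [if_neg h3, if_neg (fun h => h3 h.2), norm_zero]
    refine (Finset.sum_le_sum h2).trans ?_
    rw [← Finset.sum_filter, Finset.sum_const, nsmul_eq_mul, mul_one]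
    have h4 : K = d * (d * q) := by rw [hKdef]; ring
    rw [h4, gc_bL_card d (d * q) a hd]
  have hfsum : ∑ x : ZMod K, f x = GG d q a b := by
    rw [show (∑ x : ZMod K, f x) = ∑ x : ZMod K, G0 x.val from rfl, gc_bL_zsum K G0]
    unfold GG
    rw [Finset.sum_filter]
    refine Finset.sum_congr (by rw [hKdef]) fun r _ => ?_
    simp only [hG0]
    rw [hKR]
  have hfG : ∀ n : ℕ, f (n : ZMod K) = if n.Coprime K ∧ n ≡ a [MOD d] then
      ex ((b : ℝ) * n / K) else 0 := by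
    intro n
    simp only [hf, hG0]
    rw [ZMod.val_natCast]
    have h1 : (n % K).Coprime K ↔ n.Coprime K := by
      unfold Nat.Coprime
      rw [← Nat.gcd_rec, Nat.gcd_comm]
    have h2 : n % K ≡ a [MOD d] ↔ n ≡ a [MOD d] := by
      unfold Nat.ModEq
      rw [Nat.mod_mod_of_dvd _ hdK]
    rw [gc_bL_per b n K hK1]
    by_cases h : n.Coprime K ∧ n ≡ a [MOD d]
    · rw [if_pos h, if_pos ⟨h1.2 h.1, h2.2 h.2⟩]
    · rw [if_neg h, if_neg (fun h' => h ⟨h1.1 h'.1, h2.1 h'.2⟩)]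
  -- the first step
  set A0 : ℂ := ∑ t ∈ S.filter (fun t => t ≡ a [MOD d]),
      (vonMangoldt t : ℂ) * ex ((b : ℝ) * t / ((d : ℝ) ^ 2 * q)) * (wd lam X t : ℂ) with hA0
  set A1 : ℂ := ∑ n ∈ S, g n * f (n : ZMod K) with hA1
  have h01 : ‖A0 - A1‖ ≤ N0 := by
    rw [hA0, hA1, Finset.sum_filter, ← Finset.sum_sub_distrib]
    refine (norm_sum_le _ _).trans ?_
    refine le_trans ?_ hgN0
    rw [Finset.sum_filter]
    refine Finset.sum_le_sum fun n _ => ?_
    rw [hfG n]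
    by_cases h1 : n.Coprime K
    · rw [if_neg (not_not.2 h1)]
      by_cases h2 : n ≡ a [MOD d]
      · rw [if_pos h2, if_pos ⟨h1, h2⟩, hKR]
        simp only [hg]
        rw [show (vonMangoldt n : ℂ) * ex ((b : ℝ) * n / ((d : ℝ) ^ 2 * q)) * (wd lam X n : ℂ) -
          (vonMangoldt n : ℂ) * (wd lam X n : ℂ) * ex ((b : ℝ) * n / ((d : ℝ) ^ 2 * q)) = 0 by ring,
          norm_zero]
      · rw [if_neg h2, if_neg (fun h => h2 h.2), mul_zero, sub_zero, norm_zero]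
    · have h3 : (if n.Coprime K ∧ n ≡ a [MOD d] then ex ((b : ℝ) * n / K) else 0) = 0 :=
        if_neg (fun h => h1 h.1)
      rw [if_pos h1, h3, mul_zero, sub_zero]
      by_cases h2 : n ≡ a [MOD d]
      · rw [if_pos h2, norm_mul, norm_mul, gc_bL_norm_ex, mul_one]
        simp only [hg]
        rw [norm_mul]
      · rw [if_neg h2, norm_zero]
        exact norm_nonneg _
  have hCh := hch K f ((d * q : ℕ) : ℝ) hf0 hfn S g
  rw [hfsum] at hCh
  set Sc : ℂ := ∑ n ∈ S.filter (fun n => n.Coprime K), g n with hSc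
  set Sg : ℂ := ∑ n ∈ S, g n with hSg
  have hScSg : ‖Sc - Sg‖ ≤ N0 := by
    have h1 : Sg = Sc + ∑ n ∈ S.filter (fun n => ¬ n.Coprime K), g n := by
      rw [hSg, hSc, Finset.sum_filter_add_sum_filter_not]
    rw [h1, sub_add_cancel_left, norm_neg]
    exact (norm_sum_le _ _).trans hgN0
  have hSgE : ‖Sg - ((mu lam * X : ℝ) : ℂ)‖ ≤ Er := by
    have h1 : Sg - ((mu lam * X : ℝ) : ℂ) =
        ((∑ n ∈ S, vonMangoldt n * wd lam X n - mu lam * X : ℝ) : ℂ) := by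
      rw [hSg]
      push_cast
      rfl
    rw [h1, Complex.norm_real]
    exact hE
  have hGGn : ‖GG d q a b‖ ≤ ((d * q : ℕ) : ℝ) := by
    rw [← hfsum]
    exact (norm_sum_le _ _).trans hfn
  -- the main term
  have hmain : ‖1 / (Nat.totient K : ℂ) * GG d q a b * Sc -
      ((mu lam * X : ℝ) : ℂ) / (Nat.totient K : ℂ) * GG d q a b‖ ≤
      ((d * q : ℕ) : ℝ) / (Nat.totient K : ℝ) * (Er + N0) := by
    have h1 : 1 / (Nat.totient K : ℂ) * GG d q a b * Sc -
      ((mu lam * X : ℝ) : ℂ) / (Nat.totient K : ℂ) * GG d q a b =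
      (GG d q a b / (Nat.totient K : ℂ)) * ((Sg - ((mu lam * X : ℝ) : ℂ)) + (Sc - Sg)) := by
      ring
    rw [h1, norm_mul, norm_div, Complex.norm_natCast]
    have h2 : ‖(Sg - ((mu lam * X : ℝ) : ℂ)) + (Sc - Sg)‖ ≤ Er + N0 :=
      (norm_add_le _ _).trans (add_le_add hSgE hScSg)
    have h3 : ‖GG d q a b‖ / (Nat.totient K : ℝ) ≤ ((d * q : ℕ) : ℝ) / (Nat.totient K : ℝ) :=
      div_le_div_of_nonneg_right hGGn hφ.le
    exact mul_le_mul h3 h2 (norm_nonneg _) (by positivity)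
  have hCh2 : ‖A1 - 1 / (Nat.totient K : ℂ) * GG d q a b * Sc‖ ≤
      ((d * q : ℕ) : ℝ) / (Nat.totient K : ℝ) *
        (∑ r ∈ K.divisors.filter (fun r => 2 ≤ r), pL lam X r + K * N0) := by
    refine hCh.trans ?_
    refine mul_le_mul_of_nonneg_left ?_ (by positivity)
    refine add_le_add (le_of_eq ?_) (mul_le_mul_of_nonneg_left hgN0 (Nat.cast_nonneg _))
    refine Finset.sum_congr rfl fun r _ => ?_
    unfold pL
    refine Finset.sum_congr rfl fun χ _ => ?_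
    congr 1
    funext χ'
    congr 1
    refine Finset.sum_congr rfl fun n _ => ?_
    simp only [hg]
    ring
  have htri : A0 - ((mu lam * X : ℝ) : ℂ) / (Nat.totient K : ℂ) * GG d q a b =
      (A0 - A1) + (A1 - 1 / (Nat.totient K : ℂ) * GG d q a b * Sc) +
      (1 / (Nat.totient K : ℂ) * GG d q a b * Sc -
      ((mu lam * X : ℝ) : ℂ) / (Nat.totient K : ℂ) * GG d q a b) := by ring
  rw [htri]
  refine (norm_add_le _ _).trans ?_
  refine (add_le_add_left (norm_add_le _ _) _).trans ?_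
  have := add_le_add (add_le_add h01 hCh2) hmain
  refine this.trans (le_of_eq ?_)
  ring

/-- powers of the logarithm are small -/
private lemma gc_bL_logpow (n : ℕ) (c : ℝ) (hc : 0 < c) (C : ℝ) :
    ∀ᶠ X : ℝ in atTop, C * (Real.log X) ^ n ≤ X ^ c := by
  have h1 : (fun X : ℝ => Real.log X ^ (n : ℝ)) =o[atTop] fun X => X ^ c :=
    isLittleO_log_rpow_rpow_atTop _ hc
  have h2 := h1.def (show (0 : ℝ) < 1 / (|C| + 1) by positivity)
  filter_upwards [h2, eventually_ge_atTop (1 : ℝ)] with X h3 h4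
  have hL : 0 ≤ Real.log X := Real.log_nonneg h4
  rw [Real.rpow_natCast, Real.norm_of_nonneg (pow_nonneg hL _),
    Real.norm_of_nonneg (Real.rpow_nonneg (by linarith) _)] at h3
  have h5 : (|C| + 1) * (Real.log X) ^ n ≤ X ^ c := by
    have h6 : 0 < |C| + 1 := by positivity
    rw [div_mul_eq_mul_div, one_mul, le_div_iff₀ h6] at h3
    linarith
  have h6 : C * (Real.log X) ^ n ≤ (|C| + 1) * (Real.log X) ^ n :=
    mul_le_mul_of_nonneg_right (by linarith [le_abs_self C]) (pow_nonneg hL _)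
  exact h6.trans h5

private lemma gc_bL_harm (D : ℕ) : ∑ d ∈ Icc 1 D, 1 / (d : ℝ) ≤ 1 + Real.log D := by
  have h3 := harmonic_le_one_add_log D
  have h4 : ((harmonic D : ℚ) : ℝ) = ∑ m ∈ Icc 1 D, 1 / (m : ℝ) := by
    rw [harmonic_eq_sum_Icc]
    push_cast
    simp
  rw [h4] at h3
  exact h3

private lemma gc_bL_pL0 (lam X : ℝ) (r : ℕ) : 0 ≤ pL lam X r := by
  unfold pL
  exact Finset.sum_nonneg fun χ _ => Set.indicator_nonneg (fun _ _ => norm_nonneg _) _

theorem p_bL : S_bL := by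
  intro hch hds hbk hpn A B
  have e1 := hpn (A + 4)
  have e2 := hbk (A + 2 * B + 4)
  have e3 := gc_bL_logpow B (1 / 12 - 2 / 49) (by norm_num) 1
  have e4 := gc_bL_logpow (A + 2) (1 - (1 / 49 + 1 / 6)) (by norm_num) 18
  have e5 : ∀ᶠ X : ℝ in atTop, 10 ≤ Real.log X := Real.tendsto_log_atTop.eventually_ge_atTop 10
  filter_upwards [e1, e2, e3, e4, e5, eventually_ge_atTop (3 : ℝ)] with X h1 h2 h3 h4 h5 hX3
  intro lam hlam a q b _ hq
  have hX0 : (0 : ℝ) < X := by linarith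
  have hX1 : (1 : ℝ) ≤ X := by linarith
  set L := Real.log X with hL
  have hL0 : 0 < L := by linarith
  set D : ℕ := ⌊X ^ (1 / 49 : ℝ)⌋₊ with hD
  have hXD1 : (1 : ℝ) ≤ X ^ (1 / 49 : ℝ) := Real.one_le_rpow hX1 (by norm_num)
  have hD1 : 1 ≤ D := Nat.le_floor (by push_cast; exact hXD1)
  have hDX : (D : ℝ) ≤ X ^ (1 / 49 : ℝ) := Nat.floor_le (by positivity)
  have hlog3 : Real.log (3 * X) ≤ 2 * L := by
    rw [Real.log_mul (by norm_num) hX0.ne']
    have : Real.log 3 ≤ L := Real.log_le_log (by norm_num) hX3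
    linarith
  have hlog30 : 0 ≤ Real.log (3 * X) := Real.log_nonneg (by linarith)
  set Y : ℝ := X ^ (1 / 12 : ℝ) with hY
  have hY1 : 1 ≤ Y := Real.one_le_rpow hX1 (by norm_num)
  have hKY : ∀ d e : ℕ, d ≤ D → (e : ℝ) ≤ L ^ B → ((d ^ 2 * e : ℕ) : ℝ) ≤ Y := by
    intro d e hd he
    push_cast
    have h6 : (d : ℝ) ≤ X ^ (1 / 49 : ℝ) := le_trans (by exact_mod_cast hd) hDX
    have h7 : (d : ℝ) ^ 2 ≤ X ^ (2 / 49 : ℝ) := by
      have h8 : X ^ (2 / 49 : ℝ) = (X ^ (1 / 49 : ℝ)) ^ 2 := by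
        rw [← Real.rpow_natCast, ← Real.rpow_mul hX0.le]
        norm_num
      rw [h8]
      exact pow_le_pow_left₀ (Nat.cast_nonneg _) h6 2
    have h8 : L ^ B ≤ X ^ (1 / 12 - 2 / 49 : ℝ) := by
      rw [one_mul] at h3
      exact h3
    calc (d : ℝ) ^ 2 * e ≤ X ^ (2 / 49 : ℝ) * X ^ (1 / 12 - 2 / 49 : ℝ) :=
          mul_le_mul h7 (he.trans h8) (Nat.cast_nonneg _) (by positivity)
      _ = Y := by
        rw [hY, ← Real.rpow_add hX0]
        norm_num
  have hlogD : 1 + Real.log D ≤ L := by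
    have h6 : Real.log D ≤ 1 / 49 * L := by
      have := Real.log_le_log (by exact_mod_cast hD1) hDX
      rwa [Real.log_rpow hX0] at this
    linarith
  -- the single moduli
  have hone : ∀ d ∈ Icc 1 D, ‖∑ t ∈ (Icc 1 ⌊3 * X⌋₊).filter (fun t => t ≡ a d [MOD d]),
      (vonMangoldt t : ℂ) * ex ((b d : ℝ) * t / ((d : ℝ) ^ 2 * q d)) * (wd lam X t : ℂ) -
      ((mu lam * X : ℝ) : ℂ) / (Nat.totient (d ^ 2 * q d) : ℂ) * GG d (q d) (a d) (b d)‖ ≤
      6 * L ^ 2 * Y ^ 2 + L * (X / L ^ (A + 4)) * (1 / (d : ℝ)) +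
        L * (1 / (d : ℝ) * ∑ r ∈ (d ^ 2 * q d).divisors.filter (fun r => 2 ≤ r), pL lam X r) := by
    intro d hd
    rw [Finset.mem_Icc] at hd
    have hd1 := hd.1
    have hdR : (0 : ℝ) < d := by exact_mod_cast hd1
    have hdR1 : (1 : ℝ) ≤ d := by exact_mod_cast hd1
    obtain ⟨hq1, hqB⟩ := hq d
    refine (gc_bL_one hch hX1 hd1 hq1 (a d) (b d) (h1 lam hlam)).trans ?_
    have hK := hKY d (q d) hd.2 hqB
    set K : ℕ := d ^ 2 * q d with hKd
    have hK1 : 1 ≤ K := Nat.mul_pos (pow_pos hd1 2) hq1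
    have hK1R : (1 : ℝ) ≤ K := by exact_mod_cast hK1
    have hKR : (K : ℝ) = (d : ℝ) ^ 2 * q d := by rw [hKd]; push_cast; ring
    have hlogK : Real.log K / Real.log 2 + 1 ≤ L := by
      have h6 : Real.log K ≤ 1 / 12 * L := by
        have := Real.log_le_log (by linarith) hK
        rwa [hY, Real.log_rpow hX0] at this
      have hlog2 : (0.69 : ℝ) < Real.log 2 := lt_trans (by norm_num) Real.log_two_gt_d9
      have h7 : Real.log K / Real.log 2 ≤ 1 / 12 * L / 0.69 :=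
        div_le_div₀ (by positivity) h6 (by norm_num) hlog2.le
      have h8 : 1 / 12 * L / 0.69 ≤ 1 / 2 * L := by
        rw [div_le_iff₀ (by norm_num)]
        linarith
      linarith
    have hratio : ((d * q d : ℕ) : ℝ) / (Nat.totient K : ℝ) ≤ L * (1 / (d : ℝ)) := by
      have h6 := inv_totient_le K (by omega)
      have h7 : ((d * q d : ℕ) : ℝ) = K / d := by
        rw [hKR]
        push_cast
        field_simp
      rw [h7]
      calc (K : ℝ) / d / (Nat.totient K : ℝ) = (K : ℝ) / d * (1 / (Nat.totient K : ℝ)) := by ring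
        _ ≤ (K : ℝ) / d * ((Real.log K / Real.log 2 + 1) / K) :=
            mul_le_mul_of_nonneg_left h6 (by positivity)
        _ = (Real.log K / Real.log 2 + 1) * (1 / (d : ℝ)) := by
            field_simp
        _ ≤ L * (1 / (d : ℝ)) := mul_le_mul_of_nonneg_right hlogK (by positivity)
    have hN0 : (K : ℝ) * Real.log (3 * X) ≤ 2 * L * Y := by
      calc (K : ℝ) * Real.log (3 * X) ≤ Y * (2 * L) :=
            mul_le_mul hK hlog3 hlog30 (by linarith)
        _ = 2 * L * Y := by ring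
    have hN00 : 0 ≤ (K : ℝ) * Real.log (3 * X) := by positivity
    have hd1' : 1 / (d : ℝ) ≤ 1 := by
      rw [div_le_one hdR]; exact hdR1
    have hd0' : 0 ≤ 1 / (d : ℝ) := by positivity
    have hS0 : 0 ≤ ∑ r ∈ K.divisors.filter (fun r => 2 ≤ r), pL lam X r :=
      Finset.sum_nonneg fun r _ => gc_bL_pL0 lam X r
    have hE0 : 0 ≤ X / L ^ (A + 4) := by positivity
    have t1 : ((d * q d : ℕ) : ℝ) / (Nat.totient K : ℝ) *
        (X / L ^ (A + 4) + K * Real.log (3 * X)) ≤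
        L * (1 / (d : ℝ)) * (X / L ^ (A + 4)) + 2 * L ^ 2 * Y := by
      refine (mul_le_mul_of_nonneg_right hratio (by linarith)).trans ?_
      rw [mul_add]
      refine add_le_add le_rfl ?_
      calc L * (1 / (d : ℝ)) * (K * Real.log (3 * X)) ≤ L * 1 * (2 * L * Y) :=
            mul_le_mul (mul_le_mul_of_nonneg_left hd1' hL0.le) hN0 hN00 (by positivity)
        _ = 2 * L ^ 2 * Y := by ring
    have t2 : ((d * q d : ℕ) : ℝ) / (Nat.totient K : ℝ) *
        (∑ r ∈ K.divisors.filter (fun r => 2 ≤ r), pL lam X r +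
          K * (K * Real.log (3 * X))) ≤
        L * (1 / (d : ℝ) * ∑ r ∈ K.divisors.filter (fun r => 2 ≤ r), pL lam X r) +
          2 * L ^ 2 * Y ^ 2 := by
      refine (mul_le_mul_of_nonneg_right hratio
        (add_nonneg hS0 (mul_nonneg (by linarith) hN00))).trans ?_
      rw [mul_add]
      refine add_le_add (le_of_eq (by ring)) ?_
      have h6 : (K : ℝ) * (K * Real.log (3 * X)) ≤ Y * (2 * L * Y) :=
        mul_le_mul hK hN0 hN00 (by linarith)
      calc L * (1 / (d : ℝ)) * ((K : ℝ) * (K * Real.log (3 * X))) ≤ L * 1 * (Y * (2 * L * Y)) :=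
            mul_le_mul (mul_le_mul_of_nonneg_left hd1' hL0.le) h6
              (mul_nonneg (by linarith) hN00) (by positivity)
        _ = 2 * L ^ 2 * Y ^ 2 := by ring
    have t3 : 2 * L * Y ≤ 2 * L ^ 2 * Y ^ 2 := by
      have h6 : L * Y ≤ (L * Y) ^ 2 := by
        have h7 : 1 ≤ L * Y := by nlinarith
        nlinarith
      nlinarith
    have t4 : 2 * L ^ 2 * Y ≤ 2 * L ^ 2 * Y ^ 2 := by
      have h6 : Y ≤ Y ^ 2 := by nlinarith
      exact mul_le_mul_of_nonneg_left h6 (by positivity)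
    calc _ ≤ 2 * L * Y + (L * (1 / (d : ℝ)) * (X / L ^ (A + 4)) + 2 * L ^ 2 * Y) +
          (L * (1 / (d : ℝ) * ∑ r ∈ K.divisors.filter (fun r => 2 ≤ r), pL lam X r) +
          2 * L ^ 2 * Y ^ 2) := add_le_add (add_le_add hN0 t1) t2
      _ ≤ _ := by linarith
  refine (Finset.sum_le_sum hone).trans ?_
  rw [Finset.sum_add_distrib, Finset.sum_add_distrib, Finset.sum_const, nsmul_eq_mul,
    Nat.card_Icc, Nat.add_sub_cancel, ← Finset.mul_sum, ← Finset.mul_sum]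
  -- the trivial part
  have p1 : (D : ℝ) * (6 * L ^ 2 * Y ^ 2) ≤ X / L ^ A / 3 := by
    have h6 : Y ^ 2 = X ^ (1 / 6 : ℝ) := by
      rw [hY, ← Real.rpow_natCast, ← Real.rpow_mul hX0.le]
      norm_num
    have h7 : X ^ (1 / 49 : ℝ) * X ^ (1 / 6 : ℝ) * X ^ (1 - (1 / 49 + 1 / 6) : ℝ) = X := by
      rw [← Real.rpow_add hX0, ← Real.rpow_add hX0]
      norm_num
    rw [div_div, le_div_iff₀ (by positivity), h6]
    calc (D : ℝ) * (6 * L ^ 2 * X ^ (1 / 6 : ℝ)) * (L ^ A * 3)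
        ≤ X ^ (1 / 49 : ℝ) * (6 * L ^ 2 * X ^ (1 / 6 : ℝ)) * (L ^ A * 3) := by gcongr
      _ = X ^ (1 / 49 : ℝ) * X ^ (1 / 6 : ℝ) * (18 * L ^ (A + 2)) := by ring
      _ ≤ X ^ (1 / 49 : ℝ) * X ^ (1 / 6 : ℝ) * X ^ (1 - (1 / 49 + 1 / 6) : ℝ) := by gcongr
      _ = X := h7
  have hL2 : 3 ≤ L ^ 2 := by nlinarith
  have hfin : L ^ 2 * (X / L ^ (A + 4)) ≤ X / L ^ A / 3 := by
    rw [div_div, le_div_iff₀ (by positivity)]
    have h6 : L ^ 2 * (X / L ^ (A + 4)) * (L ^ A * 3) = X * (3 / L ^ 2) := by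
      rw [pow_add]
      field_simp
    rw [h6]
    have h7 : 3 / L ^ 2 ≤ 1 := by
      rw [div_le_one (by positivity)]; exact hL2
    calc X * (3 / L ^ 2) ≤ X * 1 := mul_le_mul_of_nonneg_left h7 hX0.le
      _ = X := mul_one X
  have p2 : L * (X / L ^ (A + 4)) * ∑ d ∈ Icc 1 D, 1 / (d : ℝ) ≤ X / L ^ A / 3 := by
    refine le_trans ?_ hfin
    calc L * (X / L ^ (A + 4)) * ∑ d ∈ Icc 1 D, 1 / (d : ℝ)
        ≤ L * (X / L ^ (A + 4)) * L :=
          mul_le_mul_of_nonneg_left ((gc_bL_harm D).trans hlogD) (by positivity)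
      _ = L ^ 2 * (X / L ^ (A + 4)) := by ring
  -- the conductors
  set Q : ℕ := ⌊L ^ B⌋₊ with hQ
  have hLB1 : 1 ≤ L ^ B := one_le_pow₀ (by linarith)
  have hQ1 : 1 ≤ Q := Nat.le_floor (by push_cast; exact hLB1)
  have hQL : (Q : ℝ) ≤ L ^ B := Nat.floor_le (by positivity)
  have p3 : ∑ d ∈ Icc 1 D, 1 / (d : ℝ) *
      ∑ r ∈ (d ^ 2 * q d).divisors.filter (fun r => 2 ≤ r), pL lam X r ≤
      L * (L ^ B * L ^ B) * (X / L ^ (A + 2 * B + 4)) := by
    have h6 : ∀ d ∈ Icc 1 D, 1 / (d : ℝ) *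
        ∑ r ∈ (d ^ 2 * q d).divisors.filter (fun r => 2 ≤ r), pL lam X r ≤
        ∑ e ∈ Icc 1 Q, 1 / (d : ℝ) *
          ∑ r ∈ (d ^ 2 * e).divisors.filter (fun r => 2 ≤ r), pL lam X r := by
      intro d _
      obtain ⟨hq1, hqB⟩ := hq d
      refine Finset.single_le_sum (f := fun e => 1 / (d : ℝ) *
          ∑ r ∈ (d ^ 2 * e).divisors.filter (fun r => 2 ≤ r), pL lam X r) (fun e _ => ?_)
        (Finset.mem_Icc.2 ⟨hq1, Nat.le_floor hqB⟩)
      exact mul_nonneg (by positivity) (Finset.sum_nonneg fun r _ => gc_bL_pL0 lam X r)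
    refine (Finset.sum_le_sum h6).trans ?_
    rw [Finset.sum_comm]
    have h7 : ∀ e ∈ Icc 1 Q, ∑ d ∈ Icc 1 D, 1 / (d : ℝ) *
          ∑ r ∈ (d ^ 2 * e).divisors.filter (fun r => 2 ≤ r), pL lam X r ≤
          L * L ^ B * (X / L ^ (A + 2 * B + 4)) := by
      intro e he
      rw [Finset.mem_Icc] at he
      have heR : (e : ℝ) ≤ L ^ B := le_trans (by exact_mod_cast he.2) hQL
      refine (hds (fun r => pL lam X r) (fun r => gc_bL_pL0 lam X r) e D he.1 hD1).trans ?_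
      have h8 := h2 lam hlam (D ^ 2 * e) (hKY D e le_rfl heR)
      have h9 : Real.sqrt e ≤ L ^ B := by
        have h10 : (1 : ℝ) ≤ e := by exact_mod_cast he.1
        refine le_trans ?_ heR
        rw [Real.sqrt_le_left (by linarith)]
        nlinarith
      have h10 : 0 ≤ ∑ r ∈ Icc 2 (D ^ 2 * e), pL lam X r / Real.sqrt r :=
        Finset.sum_nonneg fun r _ => div_nonneg (gc_bL_pL0 lam X r) (Real.sqrt_nonneg _)
      refine mul_le_mul (mul_le_mul hlogD h9 (Real.sqrt_nonneg _) hL0.le) h8 h10 (by positivity)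
    refine (Finset.sum_le_sum h7).trans ?_
    rw [Finset.sum_const, nsmul_eq_mul, Nat.card_Icc, Nat.add_sub_cancel]
    calc (Q : ℝ) * (L * L ^ B * (X / L ^ (A + 2 * B + 4)))
        ≤ L ^ B * (L * L ^ B * (X / L ^ (A + 2 * B + 4))) :=
          mul_le_mul_of_nonneg_right hQL (by positivity)
      _ = _ := by ring
  have p4 : L * ∑ d ∈ Icc 1 D, 1 / (d : ℝ) *
      ∑ r ∈ (d ^ 2 * q d).divisors.filter (fun r => 2 ≤ r), pL lam X r ≤ X / L ^ A / 3 := by
    refine le_trans (mul_le_mul_of_nonneg_left p3 hL0.le) ?_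
    refine le_trans (le_of_eq ?_) hfin
    have h6 : L ^ (A + 2 * B + 4) = L ^ B * L ^ B * L ^ (A + 4) := by
      rw [← pow_add, ← pow_add]
      congr 1
      ring
    rw [h6]
    field_simp
  linarith

end Pool.Agent.GC.M
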