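import Pool.Agent.Lib.MP_0da313_nt.GC.M

set_option autoImplicit false

/-! Piece [GC bk]: all conductors. -/

namespace Pool.Agent.GC.M

open Finset Filter
open ArithmeticFunction (vonMangoldt)
open Pool.Agent.MP89da58 (tri primChars kapD)
open Pool.Agent.CM (wd mu)

/-- the norm of the twisted sum -/
private noncomputable def gc_bk_T (lam X : ℝ) (r : ℕ) (χ : DirichletCharacter ℂ r) : ℝ :=
  ‖∑ n ∈ Icc 1 ⌊3 * X⌋₊, (vonMangoldt n : ℂ) * χ (n : ZMod r) * (wd lam X n : ℂ)‖

private lemma gc_bk_pL (lam X : ℝ) (r : ℕ) :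
    pL lam X r = ∑ χ : DirichletCharacter ℂ r,
      Set.indicator {χ | χ.IsPrimitive} (gc_bk_T lam X r) χ := rfl

private lemma gc_bk_nonneg (lam X : ℝ) (r : ℕ) : 0 ≤ pL lam X r := by
  rw [gc_bk_pL]
  apply sum_nonneg
  intro χ _
  exact Set.indicator_nonneg (fun χ _ => norm_nonneg _) χ

private lemma gc_bk_sum (lam X : ℝ) (R : ℕ) :
    ∑ r ∈ Icc 2 R, pL lam X r = ∑ p ∈ primChars R, ‖∑ n ∈ Icc 1 ⌊3 * X⌋₊,
      (vonMangoldt n : ℂ) * p.2 (n : ZMod p.1) * (wd lam X n : ℂ)‖ := by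
  classical
  rw [primChars, sum_sigma]
  apply sum_congr rfl
  intro r _
  rw [gc_bk_pL, sum_filter]
  apply sum_congr
  · congr
  · intro χ _
    rw [Set.indicator_apply]
    rfl

private lemma gc_bk_card (lam X : ℝ) (r : ℕ) (hr : 2 ≤ r) (c : ℝ) (hc : 0 ≤ c)
    (h : ∀ χ : DirichletCharacter ℂ r, χ.IsPrimitive → gc_bk_T lam X r χ ≤ c) :
    pL lam X r ≤ r * c := by
  classical
  have : NeZero r := ⟨by omega⟩
  have h1 := DirichletCharacter.card_eq_totient_of_hasEnoughRootsOfUnity ℂ r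
  rw [gc_bk_pL]
  calc ∑ χ : DirichletCharacter ℂ r, Set.indicator {χ | χ.IsPrimitive} (gc_bk_T lam X r) χ
      ≤ ∑ χ : DirichletCharacter ℂ r, c := by
        apply sum_le_sum
        intro χ _
        rw [Set.indicator_apply]
        split_ifs with hχ
        · exact h χ hχ
        · exact hc
    _ = (Fintype.card (DirichletCharacter ℂ r) : ℝ) * c := by
        rw [sum_const, nsmul_eq_mul, card_univ]
    _ ≤ r * c := by
        apply mul_le_mul_of_nonneg_right _ hc
        have h2 : Fintype.card (DirichletCharacter ℂ r) = Nat.totient r := by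
          rw [← Nat.card_eq_fintype_card]
          exact h1
        rw [h2]
        exact_mod_cast Nat.totient_le r

theorem p_bk : S_bk := by
  rintro ⟨C0, hC⟩ hsw A
  have h2 := hsw (A + 3 * (2 * (A + C0 + 2)) + 2) (2 * (A + C0 + 2) + 1)
  filter_upwards [hC, h2, Real.tendsto_log_atTop.eventually_ge_atTop 2, eventually_gt_atTop 0]
    with X h1 h2 hL hX lam hlam R hR
  have hls := h1 lam hlam R hR
  rw [← gc_bk_sum] at hls
  set L := Real.log X with hLdef
  set B := 2 * (A + C0 + 2) with hB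
  have hL0 : 0 < L := by linarith
  have hL1 : 1 ≤ L := by linarith
  set R0 := ⌈L ^ B⌉₊ with hR0
  have hR0ge : L ^ B ≤ (R0 : ℝ) := Nat.le_ceil _
  have hLB1 : 1 ≤ L ^ B := one_le_pow₀ hL1
  have hR0le : (R0 : ℝ) ≤ L ^ (B + 1) := by
    have h3 : (R0 : ℝ) < L ^ B + 1 := Nat.ceil_lt_add_one (by positivity)
    have h4 : L ^ (B + 1) = L ^ B * L := pow_succ _ _
    have h5 : L ^ B * 2 ≤ L ^ B * L := mul_le_mul_of_nonneg_left hL (by positivity)
    rw [h4]
    linarith
  have hR0pos : 0 < (R0 : ℝ) := by linarith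
  have hsqrt : L ^ (A + C0 + 2) ≤ Real.sqrt R0 := by
    apply Real.le_sqrt_of_sq_le
    rw [← pow_mul]
    calc L ^ ((A + C0 + 2) * 2) = L ^ B := by rw [hB]; ring_nf
      _ ≤ R0 := hR0ge
  have hsqrt0 : 0 < Real.sqrt R0 := Real.sqrt_pos.mpr hR0pos
  set E := X / L ^ (A + 3 * B + 2) with hE
  have hE0 : 0 ≤ E := by positivity
  -- the term of `r`
  have hterm : ∀ r ∈ Icc 2 R, pL lam X r / Real.sqrt r ≤
      (if r ≤ R0 then (R0 : ℝ) * E else 0) + pL lam X r / Real.sqrt R0 := by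
    intro r hr
    rw [mem_Icc] at hr
    have hp := gc_bk_nonneg lam X r
    have hr1 : (1 : ℝ) ≤ r := by exact_mod_cast (show 1 ≤ r by omega)
    have hs1 : 1 ≤ Real.sqrt r := by
      rw [← Real.sqrt_one]
      exact Real.sqrt_le_sqrt hr1
    split_ifs with hrR
    · have hrR' : (r : ℝ) ≤ R0 := by exact_mod_cast hrR
      have h3 : pL lam X r ≤ r * E := by
        apply gc_bk_card lam X r hr.1 E hE0
        intro χ hχ
        exact h2 lam hlam r χ hr.1 (hrR'.trans hR0le) hχ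
      have h4 : pL lam X r / Real.sqrt r ≤ pL lam X r := div_le_self hp hs1
      have h5 : (r : ℝ) * E ≤ R0 * E := mul_le_mul_of_nonneg_right hrR' hE0
      have h6 : 0 ≤ pL lam X r / Real.sqrt R0 := div_nonneg hp hsqrt0.le
      linarith
    · have hrR' : (R0 : ℝ) ≤ r := by exact_mod_cast (show R0 ≤ r by omega)
      rw [zero_add]
      exact div_le_div_of_nonneg_left hp hsqrt0 (Real.sqrt_le_sqrt hrR')
  have hsum1 : ∑ r ∈ Icc 2 R, (if r ≤ R0 then (R0 : ℝ) * E else 0) ≤ R0 * (R0 * E) := by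
    rw [← sum_filter, sum_const, nsmul_eq_mul]
    apply mul_le_mul_of_nonneg_right _ (by positivity)
    have : ((Icc 2 R).filter fun r => r ≤ R0).card ≤ (Icc 1 R0).card := by
      apply card_le_card
      intro r hr
      rw [mem_filter, mem_Icc] at hr
      rw [mem_Icc]
      omega
    rw [Nat.card_Icc] at this
    exact_mod_cast (show _ ≤ R0 by omega)
  have hsum2 : ∑ r ∈ Icc 2 R, pL lam X r / Real.sqrt R0 ≤ X * L ^ C0 / Real.sqrt R0 := by
    rw [← sum_div]
    exact div_le_div_of_nonneg_right hls hsqrt0.le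
  have hb1 : (R0 : ℝ) * (R0 * E) ≤ X / L ^ (A + 2) := by
    have h3 : (R0 : ℝ) * R0 ≤ L ^ (B + 1) * L ^ (B + 1) :=
      mul_le_mul hR0le hR0le hR0pos.le (by positivity)
    calc (R0 : ℝ) * (R0 * E) = R0 * R0 * E := by ring
      _ ≤ L ^ (B + 1) * L ^ (B + 1) * E := mul_le_mul_of_nonneg_right h3 hE0
      _ = X / L ^ (A + B) := by
          rw [hE, show A + 3 * B + 2 = (B + 1) + (B + 1) + (A + B) by ring, pow_add L ((B+1)+(B+1)),
            pow_add L (B + 1) (B + 1)]
          field_simp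
      _ ≤ X / L ^ (A + 2) := by
          apply div_le_div_of_nonneg_left hX.le (by positivity)
          exact pow_le_pow_right₀ hL1 (by omega)
  have hb2 : X * L ^ C0 / Real.sqrt R0 ≤ X / L ^ (A + 2) := by
    calc X * L ^ C0 / Real.sqrt R0 ≤ X * L ^ C0 / L ^ (A + C0 + 2) :=
          div_le_div_of_nonneg_left (by positivity) (by positivity) hsqrt
      _ = X / L ^ (A + 2) := by
          rw [show A + C0 + 2 = C0 + (A + 2) by ring, pow_add L C0]
          field_simp
  have hfin : X / L ^ (A + 2) + X / L ^ (A + 2) ≤ X / L ^ A := by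
    rw [← two_mul, pow_add, ← div_div, mul_div_assoc', div_le_iff₀ (by positivity)]
    rw [mul_comm 2 (X / L ^ A)]
    apply mul_le_mul_of_nonneg_left _ (by positivity)
    nlinarith
  calc ∑ r ∈ Icc 2 R, pL lam X r / Real.sqrt r
      ≤ ∑ r ∈ Icc 2 R, ((if r ≤ R0 then (R0 : ℝ) * E else 0) + pL lam X r / Real.sqrt R0) :=
        sum_le_sum hterm
    _ ≤ X / L ^ A := by
        rw [sum_add_distrib]
        linarith

end Pool.Agent.GC.M
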