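import Pool.Agent.Lib.MP_0da313_nt.GC.M

set_option autoImplicit false

/-!
Project GC, `p_ch`: expansion of a function modulo `K`, supported on the units, in characters.
-/

namespace Pool.Agent.GC.M

open Finset Filter

/-- The twisted sum over `S`. -/
noncomputable def gc_ch_T (S : Finset ℕ) (g : ℕ → ℂ) {r : ℕ} (χ : DirichletCharacter ℂ r) : ℂ :=
  ∑ n ∈ S, g n * χ (n : ZMod r)

/-- The principal character. -/
theorem gc_ch_one (S : Finset ℕ) (g : ℕ → ℂ) (K : ℕ) [NeZero K] :
    gc_ch_T S g (1 : DirichletCharacter ℂ K) = ∑ n ∈ S.filter (fun n => n.Coprime K), g n := by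
  classical
  unfold gc_ch_T
  rw [Finset.sum_filter]
  refine Finset.sum_congr rfl fun n _ => ?_
  by_cases hn : n.Coprime K
  · rw [if_pos hn, MulChar.one_apply ((ZMod.isUnit_iff_coprime n K).2 hn), mul_one]
  · have h3 : (1 : DirichletCharacter ℂ K) (n : ZMod K) = 0 := by
      apply MulChar.map_nonunit
      rw [ZMod.isUnit_iff_coprime]
      exact hn
    rw [if_neg hn, h3, mul_zero]

/-- Comparison with the primitive character. -/
theorem gc_ch_prim (S : Finset ℕ) (g : ℕ → ℂ) {K : ℕ} [NeZero K] (χ : DirichletCharacter ℂ K) :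
    ‖gc_ch_T S g χ‖ ≤ ‖gc_ch_T S g χ.primitiveCharacter‖ +
      ∑ n ∈ S.filter (fun n => ¬ n.Coprime K), ‖g n‖ := by
  classical
  have h : gc_ch_T S g χ.primitiveCharacter - gc_ch_T S g χ =
      ∑ n ∈ S.filter (fun n => ¬ n.Coprime K),
        g n * χ.primitiveCharacter (n : ZMod χ.conductor) := by
    unfold gc_ch_T
    rw [← Finset.sum_sub_distrib, Finset.sum_filter]
    refine Finset.sum_congr rfl fun n _ => ?_
    by_cases hn : n.Coprime K
    · have := χ.primitiveCharacter_apply_of_isCoprime (a := (n : ℤ)) (by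
        rw [Nat.isCoprime_iff_coprime]; exact hn)
      push_cast at this
      rw [if_neg (by simpa using hn), this, sub_self]
    · have h3 : χ (n : ZMod K) = 0 := by
        apply MulChar.map_nonunit
        rw [ZMod.isUnit_iff_coprime]
        exact hn
      rw [if_pos hn, h3, mul_zero, sub_zero]
  have h1 : ‖gc_ch_T S g χ.primitiveCharacter - gc_ch_T S g χ‖ ≤
      ∑ n ∈ S.filter (fun n => ¬ n.Coprime K), ‖g n‖ := by
    rw [h]
    refine (norm_sum_le _ _).trans (Finset.sum_le_sum fun n _ => ?_)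
    rw [norm_mul]
    exact mul_le_of_le_one_right (norm_nonneg _) (DirichletCharacter.norm_le_one _ _)
  have h2 : ‖gc_ch_T S g χ‖ ≤ ‖gc_ch_T S g χ.primitiveCharacter‖ +
      ‖gc_ch_T S g χ.primitiveCharacter - gc_ch_T S g χ‖ := by
    have h4 : gc_ch_T S g χ = gc_ch_T S g χ.primitiveCharacter -
      (gc_ch_T S g χ.primitiveCharacter - gc_ch_T S g χ) := by ring
    calc ‖gc_ch_T S g χ‖ = ‖gc_ch_T S g χ.primitiveCharacter -
      (gc_ch_T S g χ.primitiveCharacter - gc_ch_T S g χ)‖ := by rw [← h4]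
      _ ≤ _ := norm_sub_le _ _
  linarith

/-- Number of characters. -/
theorem gc_ch_card (K : ℕ) [NeZero K] :
    Fintype.card (DirichletCharacter ℂ K) = Nat.totient K := by
  have h := DirichletCharacter.sum_char_inv_mul_char_eq ℂ (isUnit_one : IsUnit (1 : ZMod K)) 1
  rw [if_pos rfl] at h
  have h1 : ∀ χ : DirichletCharacter ℂ K, χ ((1 : ZMod K)⁻¹) * χ 1 = 1 := by
    intro χ
    rw [ZMod.inv_one, map_one, mul_one]
  simp only [h1, Finset.sum_const, Finset.card_univ, nsmul_eq_mul, mul_one] at h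
  exact_mod_cast h

/-- grouping by conductors -/
theorem gc_ch_group (S : Finset ℕ) (g : ℕ → ℂ) (K : ℕ) [NeZero K] :
    ∑ χ ∈ (Finset.univ : Finset (DirichletCharacter ℂ K)).erase 1,
      ‖gc_ch_T S g χ.primitiveCharacter‖ ≤
      ∑ r ∈ K.divisors.filter (fun r => 2 ≤ r), ∑ χ : DirichletCharacter ℂ r,
        Set.indicator {χ | χ.IsPrimitive} (fun χ => ‖gc_ch_T S g χ‖) χ := by
  classical
  let G : ((r : ℕ) × DirichletCharacter ℂ r) → ℝ := fun x =>
    Set.indicator {χ | χ.IsPrimitive} (fun χ => ‖gc_ch_T S g χ‖) x.2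
  let σ : DirichletCharacter ℂ K → ((r : ℕ) × DirichletCharacter ℂ r) := fun χ =>
    ⟨χ.conductor, χ.primitiveCharacter⟩
  have hG : ∀ χ, ‖gc_ch_T S g (χ : DirichletCharacter ℂ K).primitiveCharacter‖ = G (σ χ) := by
    intro χ
    simp only [G, σ]
    rw [Set.indicator_of_mem]
    exact χ.primitiveCharacter_isPrimitive
  have hG0 : ∀ x, 0 ≤ G x := fun x => Set.indicator_nonneg (fun _ _ => norm_nonneg _) _
  have hσ : Function.Injective σ := by
    intro χ ψ h
    have key : ∀ (x : (r : ℕ) × DirichletCharacter ℂ r) (y : (r : ℕ) × DirichletCharacter ℂ r)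
        (hx : x.1 ∣ K) (hy : y.1 ∣ K), x = y →
        DirichletCharacter.changeLevel hx x.2 = DirichletCharacter.changeLevel hy y.2 := by
      rintro x y hx hy rfl
      rfl
    have := key (σ χ) (σ ψ) χ.conductor_dvd_level ψ.conductor_dvd_level h
    rwa [DirichletCharacter.changeLevel_primitiveCharacter,
      DirichletCharacter.changeLevel_primitiveCharacter] at this
  have h1 : ∑ r ∈ K.divisors.filter (fun r => 2 ≤ r), ∑ χ : DirichletCharacter ℂ r,
        Set.indicator {χ | χ.IsPrimitive} (fun χ => ‖gc_ch_T S g χ‖) χ =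
      ∑ x ∈ (K.divisors.filter (fun r => 2 ≤ r)).sigma
        (fun r => (Finset.univ : Finset (DirichletCharacter ℂ r))), G x := by
    rw [Finset.sum_sigma]
  rw [h1]
  have h2 : ∑ χ ∈ (Finset.univ : Finset (DirichletCharacter ℂ K)).erase 1,
      ‖gc_ch_T S g χ.primitiveCharacter‖ =
      ∑ x ∈ ((Finset.univ : Finset (DirichletCharacter ℂ K)).erase 1).image σ, G x := by
    rw [Finset.sum_image (fun a _ b _ h => hσ h)]
    exact Finset.sum_congr rfl fun χ _ => hG χ
  rw [h2]
  refine Finset.sum_le_sum_of_subset_of_nonneg ?_ (fun x _ _ => hG0 x)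
  intro x hx
  obtain ⟨χ, hχ, rfl⟩ := Finset.mem_image.1 hx
  have hne : χ ≠ 1 := (Finset.mem_erase.1 hχ).1
  have hc1 : χ.conductor ≠ 1 := fun h =>
    hne (DirichletCharacter.eq_one_iff_conductor_eq_one.2 h)
  have hc0 : 0 < χ.conductor :=
    Nat.pos_of_dvd_of_pos χ.conductor_dvd_level (Nat.pos_of_ne_zero (NeZero.ne K))
  refine Finset.mem_sigma.2 ⟨Finset.mem_filter.2 ⟨?_, ?_⟩, Finset.mem_univ _⟩
  · exact Nat.mem_divisors.2 ⟨χ.conductor_dvd_level, NeZero.ne K⟩
  · show 2 ≤ χ.conductor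
    omega

/-- orthogonality -/
theorem gc_ch_orth (K : ℕ) [NeZero K] (f : ZMod K → ℂ) (hf : ∀ x, ¬ IsUnit x → f x = 0)
    (S : Finset ℕ) (g : ℕ → ℂ) :
    (Nat.totient K : ℂ) * ∑ n ∈ S, g n * f (n : ZMod K) =
      ∑ x : ZMod K, f x * ∑ χ : DirichletCharacter ℂ K, χ x⁻¹ * gc_ch_T S g χ := by
  classical
  have h1 : ∀ x : ZMod K, f x * ∑ χ : DirichletCharacter ℂ K, χ x⁻¹ * gc_ch_T S g χ =
      ∑ n ∈ S, g n * (if x = (n : ZMod K) then (Nat.totient K : ℂ) * f x else 0) := by
    intro x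
    by_cases hx : IsUnit x
    · unfold gc_ch_T
      simp only [Finset.mul_sum]
      rw [Finset.sum_comm]
      refine Finset.sum_congr rfl fun n _ => ?_
      have h2 := DirichletCharacter.sum_char_inv_mul_char_eq ℂ hx (n : ZMod K)
      have h3 : ∑ χ : DirichletCharacter ℂ K, f x * (χ x⁻¹ * (g n * χ (n : ZMod K))) =
          f x * g n * ∑ χ : DirichletCharacter ℂ K, χ x⁻¹ * χ (n : ZMod K) := by
        rw [Finset.mul_sum]
        refine Finset.sum_congr rfl fun χ _ => ?_
        ring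
      rw [h3, h2]
      split_ifs
      · ring
      · ring
    · rw [hf x hx]
      simp
  rw [Finset.sum_congr rfl fun x _ => h1 x, Finset.sum_comm, Finset.mul_sum]
  refine Finset.sum_congr rfl fun n _ => ?_
  rw [← Finset.mul_sum, Finset.sum_ite_eq' Finset.univ (n : ZMod K)]
  simp only [Finset.mem_univ, if_true]
  ring

theorem p_ch : S_ch := by
  classical
  intro K _ f F hf hF S g
  have hφ : (0 : ℝ) < Nat.totient K := by
    exact_mod_cast Nat.totient_pos.2 (Nat.pos_of_ne_zero (NeZero.ne K))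
  have hφc : (Nat.totient K : ℂ) ≠ 0 := by exact_mod_cast hφ.ne'
  have hsplit : ∀ x : ZMod K, f x * ∑ χ : DirichletCharacter ℂ K, χ x⁻¹ * gc_ch_T S g χ =
      f x * (∑ n ∈ S.filter (fun n => n.Coprime K), g n) +
      f x * ∑ χ ∈ (Finset.univ : Finset (DirichletCharacter ℂ K)).erase 1,
        χ x⁻¹ * gc_ch_T S g χ := by
    intro x
    by_cases hx : IsUnit x
    · rw [← Finset.add_sum_erase _ _ (Finset.mem_univ (1 : DirichletCharacter ℂ K)), mul_add,
        gc_ch_one]
      congr 2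
      rw [MulChar.one_apply, one_mul]
      rw [← hx.unit_spec, ZMod.inv_coe_unit]
      exact Units.isUnit _
    · rw [hf x hx]
      ring
  have horth := gc_ch_orth K f hf S g
  rw [Finset.sum_congr rfl fun x _ => hsplit x, Finset.sum_add_distrib, ← Finset.sum_mul] at horth
  have hT : ∑ χ ∈ (Finset.univ : Finset (DirichletCharacter ℂ K)).erase 1, ‖gc_ch_T S g χ‖ ≤
      ∑ r ∈ K.divisors.filter (fun r => 2 ≤ r), ∑ χ : DirichletCharacter ℂ r,
        Set.indicator {χ | χ.IsPrimitive} (fun χ => ‖gc_ch_T S g χ‖) χ +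
      K * ∑ n ∈ S.filter (fun n => ¬ n.Coprime K), ‖g n‖ := by
    refine (Finset.sum_le_sum fun χ _ => gc_ch_prim S g χ).trans ?_
    rw [Finset.sum_add_distrib, Finset.sum_const, nsmul_eq_mul]
    refine add_le_add (gc_ch_group S g K) ?_
    refine mul_le_mul_of_nonneg_right ?_ (Finset.sum_nonneg fun _ _ => norm_nonneg _)
    have h1 : ((Finset.univ : Finset (DirichletCharacter ℂ K)).erase 1).card ≤ K := by
      refine (Finset.card_le_univ _).trans ?_
      rw [gc_ch_card]
      exact Nat.totient_le K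
    exact_mod_cast h1
  have hM : ‖∑ x : ZMod K, f x * ∑ χ ∈ (Finset.univ : Finset (DirichletCharacter ℂ K)).erase 1,
      χ x⁻¹ * gc_ch_T S g χ‖ ≤
      F * ∑ χ ∈ (Finset.univ : Finset (DirichletCharacter ℂ K)).erase 1, ‖gc_ch_T S g χ‖ := by
    refine (norm_sum_le _ _).trans ?_
    refine (Finset.sum_le_sum fun x _ => ?_).trans (Eq.le (Finset.sum_mul _ _ _).symm |>.trans
      (mul_le_mul_of_nonneg_right hF (Finset.sum_nonneg fun _ _ => norm_nonneg _)))
    rw [norm_mul]
    refine mul_le_mul_of_nonneg_left ?_ (norm_nonneg _)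
    refine (norm_sum_le _ _).trans (Finset.sum_le_sum fun χ _ => ?_)
    rw [norm_mul]
    exact mul_le_of_le_one_left (norm_nonneg _) (DirichletCharacter.norm_le_one χ _)
  have hF0 : 0 ≤ F := (Finset.sum_nonneg fun _ _ => norm_nonneg _).trans hF
  have hmain : ∑ n ∈ S, g n * f (n : ZMod K) - 1 / (Nat.totient K : ℂ) * (∑ x : ZMod K, f x) *
      ∑ n ∈ S.filter (fun n => n.Coprime K), g n =
      1 / (Nat.totient K : ℂ) * ∑ x : ZMod K, f x *
        ∑ χ ∈ (Finset.univ : Finset (DirichletCharacter ℂ K)).erase 1,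
          χ x⁻¹ * gc_ch_T S g χ := by
    field_simp
    linear_combination horth
  rw [hmain, norm_mul]
  have hn : ‖1 / (Nat.totient K : ℂ)‖ = 1 / (Nat.totient K : ℝ) := by
    rw [norm_div, norm_one, Complex.norm_natCast]
  rw [hn]
  calc 1 / (Nat.totient K : ℝ) * ‖_‖ ≤ 1 / (Nat.totient K : ℝ) * (F *
      ∑ χ ∈ (Finset.univ : Finset (DirichletCharacter ℂ K)).erase 1, ‖gc_ch_T S g χ‖) :=
        mul_le_mul_of_nonneg_left hM (by positivity)
    _ = F / (Nat.totient K : ℝ) *
      ∑ χ ∈ (Finset.univ : Finset (DirichletCharacter ℂ K)).erase 1, ‖gc_ch_T S g χ‖ := by ring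
    _ ≤ _ := mul_le_mul_of_nonneg_left hT (by positivity)

end Pool.Agent.GC.M
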