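import Pool.Agent.Lib.MP_0da313_nt.GC.M

set_option autoImplicit false

/-!
Project GC, section M, piece cl: the integers of a residue class in a window.
`tri u = ∫_0^1 [|u| ≤ s] ds`, and for a given `s` one counts the integers of a residue class in an interval.
-/

namespace Pool.Agent.GC.M

open Finset Filter
open Pool.Agent.MP89da58 (tri)
open Pool.Agent.CM (wd mu)

/-- the triangle as an average of indicator functions of intervals -/
private theorem gc_cl_tri (u : ℝ) :
    tri u = ∫ s in Set.Icc (0 : ℝ) 1, (Set.Ici |u|).indicator (fun _ => (1 : ℝ)) s := by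
  have h : Set.Icc (0 : ℝ) 1 ∩ Set.Ici |u| = Set.Icc |u| 1 := by
    ext s
    simp only [Set.mem_inter_iff, Set.mem_Icc, Set.mem_Ici]
    constructor
    · rintro ⟨⟨-, h1⟩, h2⟩
      exact ⟨h2, h1⟩
    · rintro ⟨h1, h2⟩
      exact ⟨⟨(abs_nonneg u).trans h1, h2⟩, h1⟩
  rw [MeasureTheory.setIntegral_indicator measurableSet_Ici, h, MeasureTheory.setIntegral_const,
    Real.volume_real_Icc]
  unfold tri
  rw [max_comm, smul_eq_mul, mul_one]

private theorem gc_cl_int (u : ℝ) : MeasureTheory.IntegrableOn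
    ((Set.Ici |u|).indicator (fun _ => (1 : ℝ))) (Set.Icc (0 : ℝ) 1) := by
  apply MeasureTheory.Integrable.indicator _ measurableSet_Ici
  exact MeasureTheory.integrableOn_const (by simp) (by simp)

/-- the number of integers of a residue class in an interval -/
private theorem gc_cl_count (a b K r : ℕ) (hK : 1 ≤ K) (hab : a ≤ b) :
    |(((Ioc a b).filter (fun n => n ≡ r [MOD K])).card : ℝ) - ((b : ℝ) - a) / K| ≤ 1 := by
  have hK0 : (0 : ℝ) < K := by exact_mod_cast hK
  have h1 := Nat.Ioc_filter_modEq_card a b (r := K) hK r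
  set x : ℤ := ⌊((b : ℚ) - r) / (K : ℚ)⌋ with hx
  set y : ℤ := ⌊((a : ℚ) - r) / (K : ℚ)⌋ with hy
  have hxy : y ≤ x := by
    rw [hx, hy]
    apply Int.floor_le_floor
    have : (0 : ℚ) ≤ K := by positivity
    apply div_le_div_of_nonneg_right _ this
    have : (a : ℚ) ≤ b := by exact_mod_cast hab
    linarith
  rw [max_eq_left (by omega)] at h1
  have h2 : (((Ioc a b).filter (fun n => n ≡ r [MOD K])).card : ℝ) = (x : ℝ) - y := by
    have : ((((Ioc a b).filter (fun n => n ≡ r [MOD K])).card : ℤ) : ℝ) = ((x - y : ℤ) : ℝ) := by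
      rw [h1]
    push_cast at this
    exact this
  have hx1 : (x : ℚ) ≤ ((b : ℚ) - r) / (K : ℚ) := Int.floor_le _
  have hx2 : ((b : ℚ) - r) / (K : ℚ) < x + 1 := Int.lt_floor_add_one _
  have hy1 : (y : ℚ) ≤ ((a : ℚ) - r) / (K : ℚ) := Int.floor_le _
  have hy2 : ((a : ℚ) - r) / (K : ℚ) < y + 1 := Int.lt_floor_add_one _
  have hx1' : (x : ℝ) ≤ ((b : ℝ) - r) / (K : ℝ) := by exact_mod_cast hx1
  have hx2' : ((b : ℝ) - r) / (K : ℝ) < x + 1 := by exact_mod_cast hx2
  have hy1' : (y : ℝ) ≤ ((a : ℝ) - r) / (K : ℝ) := by exact_mod_cast hy1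
  have hy2' : ((a : ℝ) - r) / (K : ℝ) < y + 1 := by exact_mod_cast hy2
  have h3 : ((b : ℝ) - a) / K = ((b : ℝ) - r) / (K : ℝ) - ((a : ℝ) - r) / (K : ℝ) := by ring
  rw [h2, h3, abs_le]
  constructor <;> linarith

/-- for one value of `s` -/
private theorem gc_cl_one (X lam s : ℝ) (K r N : ℕ) (hlam : 1 ≤ lam) (hX0 : 0 < X)
    (hN : N = ⌊3 * X⌋₊) (hK : 1 ≤ K) (hs0 : 0 ≤ s) (hs1 : s ≤ 1) :
    |∑ n ∈ (Icc 1 N).filter (fun n => n ≡ r [MOD K]),
      (Set.Ici |lam * Real.log (n / X)|).indicator (fun _ => (1 : ℝ)) s -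
        X * (Real.exp (s / lam) - Real.exp (-(s / lam))) / K| ≤ 4 := by
  have hl0 : 0 < lam := by linarith
  have hK1 : (1 : ℝ) ≤ K := by exact_mod_cast hK
  have hK0 : (0 : ℝ) < K := by linarith
  obtain ⟨y, hy⟩ : ∃ y : ℝ, y = s / lam := ⟨_, rfl⟩
  rw [← hy]
  have hy0 : 0 ≤ y := by rw [hy]; exact div_nonneg hs0 hl0.le
  have hy1 : y ≤ 1 := by
    rw [hy, div_le_one hl0]
    linarith
  have he1 : Real.exp y ≤ 3 := by
    have h1 := Real.exp_one_lt_d9
    have h2 := Real.exp_le_exp.2 hy1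
    linarith
  set a : ℕ := ⌈X * Real.exp (-y)⌉₊ with ha
  set b : ℕ := ⌊X * Real.exp y⌋₊ with hb
  have hxb : X * Real.exp y ≤ X * 3 := mul_le_mul_of_nonneg_left he1 hX0.le
  have hpa : 0 < X * Real.exp (-y) := by positivity
  have ha1 : X * Real.exp (-y) ≤ a := Nat.le_ceil _
  have ha2 : (a : ℝ) < X * Real.exp (-y) + 1 := Nat.ceil_lt_add_one (by positivity)
  have hb1 : (b : ℝ) ≤ X * Real.exp y := Nat.floor_le (by positivity)
  have hb2 : X * Real.exp y < b + 1 := Nat.lt_floor_add_one _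
  have ha0 : 1 ≤ a := Nat.ceil_pos.2 hpa
  have hmono : X * Real.exp (-y) ≤ X * Real.exp y :=
    mul_le_mul_of_nonneg_left (Real.exp_le_exp.2 (by linarith)) hX0.le
  have hbN : b ≤ N := by
    rw [hN, hb]
    apply Nat.floor_le_floor
    linarith
  have hab : a ≤ b + 1 := by
    have : (a : ℝ) < b + 2 := by linarith
    have h : a < b + 2 := by exact_mod_cast this
    omega
  -- the condition
  have hcond : ∀ n ∈ Icc 1 N, (s ∈ Set.Ici |lam * Real.log (n / X)|) ↔ (a ≤ n ∧ n ≤ b) := by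
    intro n hn
    have hn1 : 1 ≤ n := (Finset.mem_Icc.1 hn).1
    have hnr : (0 : ℝ) < n := by exact_mod_cast hn1
    have hnx : 0 < (n : ℝ) / X := by positivity
    rw [Set.mem_Ici, abs_mul, abs_of_pos hl0, mul_comm, ← le_div_iff₀ hl0, ← hy, abs_le,
      Real.le_log_iff_exp_le hnx, Real.log_le_iff_le_exp hnx, le_div_iff₀ hX0, div_le_iff₀ hX0,
      ha, hb, Nat.ceil_le, Nat.le_floor_iff (by positivity), mul_comm (Real.exp (-y)) X,
      mul_comm (Real.exp y) X]
  have hF : ∑ n ∈ (Icc 1 N).filter (fun n => n ≡ r [MOD K]),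
      (Set.Ici |lam * Real.log (n / X)|).indicator (fun _ => (1 : ℝ)) s =
      (((Ioc (a - 1) b).filter (fun n => n ≡ r [MOD K])).card : ℝ) := by
    have h1 : ∑ n ∈ (Icc 1 N).filter (fun n => n ≡ r [MOD K]),
        (Set.Ici |lam * Real.log (n / X)|).indicator (fun _ => (1 : ℝ)) s =
        ∑ n ∈ ((Icc 1 N).filter (fun n => n ≡ r [MOD K])).filter (fun n => a ≤ n ∧ n ≤ b),
          (1 : ℝ) := by
      rw [Finset.sum_filter (fun n => a ≤ n ∧ n ≤ b)]
      apply Finset.sum_congr rfl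
      intro n hn
      have hn' := (Finset.mem_filter.1 hn).1
      by_cases h : a ≤ n ∧ n ≤ b
      · rw [if_pos h, Set.indicator_of_mem ((hcond n hn').2 h)]
      · rw [if_neg h, Set.indicator_of_notMem (fun h' => h ((hcond n hn').1 h'))]
    have h2 : ((Icc 1 N).filter (fun n => n ≡ r [MOD K])).filter (fun n => a ≤ n ∧ n ≤ b) =
        (Ioc (a - 1) b).filter (fun n => n ≡ r [MOD K]) := by
      ext n
      simp only [Finset.mem_filter, Finset.mem_Icc, Finset.mem_Ioc]
      constructor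
      · rintro ⟨⟨⟨_, _⟩, h3⟩, h4, h5⟩
        exact ⟨by omega, h3⟩
      · rintro ⟨⟨h3, h4⟩, h5⟩
        exact ⟨⟨⟨by omega, by omega⟩, h5⟩, by omega, h4⟩
    rw [h1, h2, Finset.sum_const, nsmul_eq_mul, mul_one]
  have hacast : ((a - 1 : ℕ) : ℝ) = a - 1 := by
    rw [Nat.cast_sub (by omega)]
    simp
  have h3 := gc_cl_count (a - 1) b K r hK (by omega)
  rw [hacast] at h3
  rw [hF]
  have h4 : |((b : ℝ) - (a - 1)) / K - X * (Real.exp y - Real.exp (-y)) / K| ≤ 1 := by
    rw [← sub_div, abs_div, abs_of_pos hK0, div_le_one hK0]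
    refine le_trans ?_ hK1
    rw [abs_le]
    constructor <;> linarith
  rw [abs_le] at h3 h4 ⊢
  constructor <;> linarith [h3.1, h3.2, h4.1, h4.2]

private theorem gc_cl_F (X lam : ℝ) (K : ℕ) (hlam : 1 ≤ lam) :
    ∫ s in Set.Icc (0 : ℝ) 1, X * (Real.exp (s / lam) - Real.exp (-(s / lam))) / K =
      mu lam * X / K := by
  have hl0 : lam ≠ 0 := by linarith
  rw [MeasureTheory.integral_Icc_eq_integral_Ioc, ← intervalIntegral.integral_of_le zero_le_one]
  have h1 : ∀ s ∈ Set.uIcc (0 : ℝ) 1,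
      HasDerivAt (fun s => X * (lam * (Real.exp (s / lam) + Real.exp (-(s / lam)))) / K)
        (X * (Real.exp (s / lam) - Real.exp (-(s / lam))) / K) s := by
    intro s _
    have h2 : HasDerivAt (fun s : ℝ => s / lam) (1 / lam) s := (hasDerivAt_id s).div_const lam
    have h3 := (h2.exp.add h2.neg.exp).const_mul lam
    have h4 := (h3.const_mul X).div_const (K : ℝ)
    have h5 : X * (Real.exp (s / lam) - Real.exp (-(s / lam))) / K =
        X * (lam * (Real.exp (s / lam) * (1 / lam) + Real.exp (-(s / lam)) * -(1 / lam))) / K := by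
      field_simp
      ring
    rw [h5]
    exact h4
  rw [intervalIntegral.integral_eq_sub_of_hasDerivAt h1
    (Continuous.intervalIntegrable (by fun_prop) _ _)]
  unfold mu
  rw [Real.cosh_eq]
  simp
  ring

/-- Piece [GC cl]. -/
theorem p_cl : S_cl := by
  intro lam X K r hlam hX hK
  set S : Finset ℕ := (Icc 1 ⌊3 * X⌋₊).filter (fun n => n ≡ r [MOD K]) with hS
  have h1 : ∑ n ∈ S, wd lam X n =
      ∫ s in Set.Icc (0 : ℝ) 1, ∑ n ∈ S,
        (Set.Ici |lam * Real.log (n / X)|).indicator (fun _ => (1 : ℝ)) s := by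
    rw [MeasureTheory.integral_finsetSum]
    · apply Finset.sum_congr rfl
      intro n _
      exact gc_cl_tri _
    · intro n _
      exact gc_cl_int _
  have hint1 : MeasureTheory.IntegrableOn (fun s => ∑ n ∈ S,
        (Set.Ici |lam * Real.log (n / X)|).indicator (fun _ => (1 : ℝ)) s)
        (Set.Icc (0 : ℝ) 1) := by
    apply MeasureTheory.integrable_finsetSum
    intro n _
    exact gc_cl_int _
  have hint2 : MeasureTheory.IntegrableOn
      (fun s : ℝ => X * (Real.exp (s / lam) - Real.exp (-(s / lam))) / K)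
        (Set.Icc (0 : ℝ) 1) := by
    apply ContinuousOn.integrableOn_Icc
    fun_prop
  rw [h1, ← gc_cl_F X lam K hlam, ← MeasureTheory.integral_sub hint1 hint2]
  have h3 := MeasureTheory.norm_setIntegral_le_of_norm_le_const (μ := MeasureTheory.volume)
    (s := Set.Icc (0 : ℝ) 1)
    (f := fun s => ∑ n ∈ S,
        (Set.Ici |lam * Real.log (n / X)|).indicator (fun _ => (1 : ℝ)) s -
          X * (Real.exp (s / lam) - Real.exp (-(s / lam))) / K)
    (C := 4) (by simp) (fun s hs => by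
      rw [Real.norm_eq_abs]
      exact gc_cl_one X lam s K r ⌊3 * X⌋₊ hlam hX rfl hK hs.1 hs.2)
  rw [Real.norm_eq_abs, Real.volume_real_Icc] at h3
  simpa using h3

end Pool.Agent.GC.M
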