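import Pool.Agent.Lib.MP_0da313_nt.GC.M

set_option autoImplicit false

/-!
Project GC, section M, piece ds: the sum over the moduli.
-/

namespace Pool.Agent.GC.M

open Finset

/-- there is a least `r'`, all `d` with `r ∣ d^2 q` are its multiples -/
private theorem gc_ds_min (r q : ℕ) (hr : 1 ≤ r) :
    ∃ r' : ℕ, 1 ≤ r' ∧ r ∣ r' ^ 2 * q ∧ ∀ d : ℕ, 1 ≤ d → r ∣ d ^ 2 * q → r' ∣ d := by
  classical
  have hex : ∃ d : ℕ, 1 ≤ d ∧ r ∣ d ^ 2 * q :=
    ⟨r, hr, Dvd.dvd.mul_right (Dvd.intro_left (r ^ 1) (by ring)) q⟩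
  refine ⟨Nat.find hex, (Nat.find_spec hex).1, (Nat.find_spec hex).2, ?_⟩
  intro d hd hrd
  have hs := Nat.find_spec hex
  have hm : ∀ g : ℕ, 1 ≤ g → r ∣ g ^ 2 * q → Nat.find hex ≤ g := fun g h1 h2 =>
    Nat.find_min' hex ⟨h1, h2⟩
  revert hs hm
  generalize Nat.find hex = r'
  intro hs hm
  have h1 : r ∣ Nat.gcd (d ^ 2 * q) (r' ^ 2 * q) := Nat.dvd_gcd hrd hs.2
  rw [Nat.gcd_mul_right, Nat.pow_gcd_pow] at h1
  have h2 : 1 ≤ Nat.gcd d r' := Nat.gcd_pos_of_pos_left _ hd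
  have h3 := hm _ h2 h1
  have h4 : Nat.gcd d r' ≤ r' := Nat.gcd_le_right _ hs.1
  have h5 : Nat.gcd d r' = r' := le_antisymm h4 h3
  rw [← h5]
  exact Nat.gcd_dvd_left d r'

private theorem gc_ds_key (r q D : ℕ) (hr : 1 ≤ r) (hq : 1 ≤ q) :
    ∑ d ∈ (Icc 1 D).filter (fun d => r ∣ d ^ 2 * q), 1 / (d : ℝ) ≤
      (1 + Real.log D) * Real.sqrt q / Real.sqrt r := by
  obtain ⟨r', h1, h2, h3⟩ := gc_ds_min r q hr
  have hr0 : (0 : ℝ) < r := by exact_mod_cast hr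
  have hr0' : (0 : ℝ) < r' := by exact_mod_cast h1
  have hsub : (Icc 1 D).filter (fun d => r ∣ d ^ 2 * q) ⊆ (Icc 1 D).image (fun e => r' * e) := by
    intro d hd
    rw [Finset.mem_filter, Finset.mem_Icc] at hd
    obtain ⟨e, he⟩ := h3 d hd.1.1 hd.2
    rw [Finset.mem_image]
    refine ⟨e, ?_, he.symm⟩
    rw [Finset.mem_Icc]
    constructor
    · rcases Nat.eq_zero_or_pos e with h | h
      · rw [h, mul_zero] at he
        omega
      · exact h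
    · calc e = 1 * e := (one_mul e).symm
        _ ≤ r' * e := Nat.mul_le_mul_right e h1
        _ = d := he.symm
        _ ≤ D := hd.1.2
  have hs1 : ∑ d ∈ (Icc 1 D).filter (fun d => r ∣ d ^ 2 * q), 1 / (d : ℝ) ≤
      ∑ d ∈ (Icc 1 D).image (fun e => r' * e), 1 / (d : ℝ) :=
    Finset.sum_le_sum_of_subset_of_nonneg hsub (fun _ _ _ => by positivity)
  have hs2 : ∑ d ∈ (Icc 1 D).image (fun e => r' * e), 1 / (d : ℝ) =
      1 / (r' : ℝ) * ∑ e ∈ Icc 1 D, 1 / (e : ℝ) := by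
    rw [Finset.sum_image]
    · rw [Finset.mul_sum]
      apply Finset.sum_congr rfl
      intro e _
      rw [Nat.cast_mul, one_div_mul_one_div]
    · intro e _ e' _ h
      exact Nat.eq_of_mul_eq_mul_left h1 h
  have hs3 : ∑ e ∈ Icc 1 D, 1 / (e : ℝ) ≤ 1 + Real.log D := by
    have h := harmonic_le_one_add_log D
    rw [harmonic_eq_sum_Icc] at h
    push_cast at h
    simpa [one_div] using h
  have hs4 : 1 / (r' : ℝ) ≤ Real.sqrt q / Real.sqrt r := by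
    rw [div_le_div_iff₀ hr0' (Real.sqrt_pos.2 hr0), one_mul]
    have hle : r ≤ r' ^ 2 * q := Nat.le_of_dvd (by positivity) h2
    have hle' : (r : ℝ) ≤ q * (r' : ℝ) ^ 2 := by
      have : (r : ℝ) ≤ ((r' ^ 2 * q : ℕ) : ℝ) := by exact_mod_cast hle
      push_cast at this
      linarith
    calc Real.sqrt r ≤ Real.sqrt (q * (r' : ℝ) ^ 2) := Real.sqrt_le_sqrt hle'
      _ = Real.sqrt q * r' := by
        rw [Real.sqrt_mul (by positivity), Real.sqrt_sq hr0'.le]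
  have h0 : (0 : ℝ) ≤ ∑ e ∈ Icc 1 D, 1 / (e : ℝ) := Finset.sum_nonneg (fun _ _ => by positivity)
  calc ∑ d ∈ (Icc 1 D).filter (fun d => r ∣ d ^ 2 * q), 1 / (d : ℝ)
      ≤ 1 / (r' : ℝ) * ∑ e ∈ Icc 1 D, 1 / (e : ℝ) := hs1.trans_eq hs2
    _ ≤ (Real.sqrt q / Real.sqrt r) * (1 + Real.log D) :=
        mul_le_mul hs4 hs3 h0 (by positivity)
    _ = (1 + Real.log D) * Real.sqrt q / Real.sqrt r := by ring

theorem p_ds : S_ds := by
  intro P hP q D hq hD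
  have h1 : ∀ d ∈ Icc 1 D, 1 / (d : ℝ) * ∑ r ∈ (d ^ 2 * q).divisors.filter (fun r => 2 ≤ r), P r =
      ∑ r ∈ Icc 2 (D ^ 2 * q), (if r ∣ d ^ 2 * q then P r * (1 / (d : ℝ)) else 0) := by
    intro d hd
    rw [Finset.mem_Icc] at hd
    have hne : d ^ 2 * q ≠ 0 := mul_ne_zero (pow_ne_zero 2 (by omega)) (by omega)
    have e : (d ^ 2 * q).divisors.filter (fun r => 2 ≤ r) =
        (Icc 2 (D ^ 2 * q)).filter (fun r => r ∣ d ^ 2 * q) := by
      ext r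
      rw [Finset.mem_filter, Finset.mem_filter, Nat.mem_divisors, Finset.mem_Icc]
      constructor
      · rintro ⟨⟨h1, -⟩, h2⟩
        refine ⟨⟨h2, ?_⟩, h1⟩
        calc r ≤ d ^ 2 * q := Nat.le_of_dvd (Nat.pos_of_ne_zero hne) h1
          _ ≤ D ^ 2 * q := Nat.mul_le_mul_right q (Nat.pow_le_pow_left hd.2 2)
      · rintro ⟨⟨h1, -⟩, h2⟩
        exact ⟨⟨h2, hne⟩, h1⟩
    rw [e, Finset.sum_filter, Finset.mul_sum]
    apply Finset.sum_congr rfl
    intro r _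
    by_cases h : r ∣ d ^ 2 * q
    · rw [if_pos h, if_pos h, mul_comm]
    · rw [if_neg h, if_neg h, mul_zero]
  rw [Finset.sum_congr rfl h1, Finset.sum_comm, Finset.mul_sum]
  apply Finset.sum_le_sum
  intro r hr
  rw [Finset.mem_Icc] at hr
  rw [← Finset.sum_filter, ← Finset.mul_sum]
  calc P r * ∑ d ∈ (Icc 1 D).filter (fun d => r ∣ d ^ 2 * q), 1 / (d : ℝ)
      ≤ P r * ((1 + Real.log D) * Real.sqrt q / Real.sqrt r) :=
        mul_le_mul_of_nonneg_left (gc_ds_key r q D (by omega) hq) (hP r)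
    _ = (1 + Real.log D) * Real.sqrt q * (P r / Real.sqrt r) := by ring

end Pool.Agent.GC.M
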