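import Pool.Agent.Lib.MP_0da313_nt.GC.M

set_option autoImplicit false

/-!
Project GC, section M, piece hf: the model with an additive character.
-/

namespace Pool.Agent.GC.M

open Finset Filter
open Pool.Agent.CM (wd mu)
open Pool.Agent.SP80 (ex)

private theorem gc_hf_ex_add (x y : ℝ) : ex (x + y) = ex x * ex y := by
  unfold ex
  rw [← Complex.exp_add]
  congr 1
  push_cast
  ring

private theorem gc_hf_ex_int (m : ℤ) : ex (m : ℝ) = 1 := by
  unfold ex
  rw [Complex.exp_eq_one_iff]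
  exact ⟨m, by push_cast; ring⟩

private theorem gc_hf_norm_ex (x : ℝ) : ‖ex x‖ = 1 := by
  unfold ex
  exact Complex.norm_exp_ofReal_mul_I _

/-- the character is constant on the classes -/
private theorem gc_hf_per {K : ℕ} (hK : 0 < K) (Kr : ℝ) (hKr : (K : ℝ) = Kr) (b : ℤ) {t r : ℕ}
    (h : t ≡ r [MOD K]) : ex ((b : ℝ) * t / Kr) = ex ((b : ℝ) * r / Kr) := by
  have hK' : Kr ≠ 0 := by
    rw [← hKr]
    exact_mod_cast hK.ne'
  obtain ⟨m, hm⟩ := (Nat.modEq_iff_dvd.1 h)
  have hm' : (t : ℝ) = r - K * m := by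
    have : (t : ℤ) = r - K * m := by linarith
    exact_mod_cast this
  have e : (b : ℝ) * t / Kr = (b : ℝ) * r / Kr + ((-(b * m) : ℤ) : ℝ) := by
    rw [hm', hKr]
    push_cast
    field_simp
    ring
  rw [e, gc_hf_ex_add, gc_hf_ex_int, mul_one]

/-- the number of the classes -/
private theorem gc_hf_card (d m a : ℕ) (hd : 1 ≤ d) :
    ((range (d * m)).filter fun r => r ≡ a [MOD d]).card ≤ m := by
  have h : ((range (d * m)).filter fun r => r ≡ a [MOD d]).card ≤ (range m).card := by
    refine card_le_card_of_injOn (fun r => r / d) ?_ ?_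
    · intro r hr
      simp only [coe_filter, mem_range, Set.mem_ofPred_eq] at hr
      simp only [coe_range, Set.mem_Iio]
      exact Nat.div_lt_of_lt_mul hr.1
    · intro r hr r' hr' hrr
      simp only [coe_filter, mem_range, Set.mem_ofPred_eq] at hr hr'
      have h1 : r % d = r' % d := hr.2.trans hr'.2.symm
      have h2 : r / d = r' / d := hrr
      rw [← Nat.div_add_mod r d, ← Nat.div_add_mod r' d, h1, h2]
  rwa [card_range] at h

theorem p_hf : S_hf := by
  intro hr A B
  obtain ⟨K0, hK0⟩ := hr A B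
  refine ⟨K0, ?_⟩
  filter_upwards [hK0, eventually_gt_atTop 1] with X hX hX1
  intro w k hP lam hlam d q a b hd hdX hq hqX had
  set K : ℕ := d ^ 2 * q with hK
  have hdK : K = d * (d * q) := by rw [hK]; ring
  have hKpos : 0 < K := by positivity
  have hKr : (K : ℝ) = (d : ℝ) ^ 2 * q := by rw [hK]; push_cast; ring
  set L : ℝ := (Real.log X) ^ A with hL
  have hLpos : 0 < L := by
    rw [hL]
    have := Real.log_pos hX1
    positivity
  set R : Finset ℕ := (range K).filter fun r => r ≡ a [MOD d] with hR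
  set I : Finset ℕ := Icc 1 ⌊3 * X⌋₊ with hI
  have hdvd : d ∣ K := ⟨d * q, hdK⟩
  -- the sum over the classes
  have h1 : ∑ t ∈ I.filter (fun t => t ≡ a [MOD d]),
      (HH w k t : ℂ) * ex ((b : ℝ) * t / ((d : ℝ) ^ 2 * q)) * (wd lam X t : ℂ) =
      ∑ r ∈ R, ex ((b : ℝ) * r / ((d : ℝ) ^ 2 * q)) *
        ((∑ t ∈ I.filter (fun t => t ≡ r [MOD K]), HH w k t * wd lam X t : ℝ) : ℂ) := by
    have hmap : ∀ t ∈ I.filter (fun t => t ≡ a [MOD d]), t % K ∈ R := by
      intro t ht
      rw [mem_filter] at ht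
      rw [hR, mem_filter, mem_range]
      refine ⟨Nat.mod_lt _ hKpos, ?_⟩
      exact ((Nat.mod_modEq t K).of_dvd hdvd).trans ht.2
    rw [← sum_fiberwise_of_maps_to hmap]
    refine sum_congr rfl fun r hr => ?_
    rw [hR, mem_filter, mem_range] at hr
    have h2 : (I.filter (fun t => t ≡ a [MOD d])).filter (fun t => t % K = r) =
        I.filter (fun t => t ≡ r [MOD K]) := by
      ext t
      simp only [mem_filter]
      constructor
      · rintro ⟨⟨h3, _⟩, h5⟩
        refine ⟨h3, ?_⟩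
        rw [← h5]
        exact (Nat.mod_modEq t K).symm
      · rintro ⟨h3, h4⟩
        refine ⟨⟨h3, (h4.of_dvd hdvd).trans hr.2⟩, ?_⟩
        have h5 : t % K = r % K := h4
        rw [h5, Nat.mod_eq_of_lt hr.1]
    rw [h2]
    push_cast
    rw [mul_sum]
    refine sum_congr rfl fun t ht => ?_
    rw [mem_filter] at ht
    rw [gc_hf_per hKpos _ hKr b ht.2]
    ring
  -- the main term
  have h2 : ((mu lam * X : ℝ) : ℂ) / (Nat.totient K : ℂ) * GG d q a b =
      ∑ r ∈ R, ex ((b : ℝ) * r / ((d : ℝ) ^ 2 * q)) *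
        ((if r.Coprime K then mu lam * X / (Nat.totient K : ℝ) else 0 : ℝ) : ℂ) := by
    have h3 : (range (d ^ 2 * q)).filter (fun r => r.Coprime (d ^ 2 * q) ∧ r ≡ a [MOD d]) =
        R.filter (fun r => r.Coprime K) := by
      ext r
      simp only [hR, hK, mem_filter]
      tauto
    unfold GG
    rw [h3, mul_sum, sum_filter]
    refine sum_congr rfl fun r _ => ?_
    split_ifs
    · push_cast
      ring
    · simp
  rw [h1, h2, ← sum_sub_distrib]
  have h3 : ∀ r ∈ R, ‖ex ((b : ℝ) * r / ((d : ℝ) ^ 2 * q)) *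
        ((∑ t ∈ I.filter (fun t => t ≡ r [MOD K]), HH w k t * wd lam X t : ℝ) : ℂ) -
        ex ((b : ℝ) * r / ((d : ℝ) ^ 2 * q)) *
        ((if r.Coprime K then mu lam * X / (Nat.totient K : ℝ) else 0 : ℝ) : ℂ)‖ ≤
      X / ((d : ℝ) ^ 2 * q) / L := by
    intro r hr
    rw [← mul_sub, norm_mul, gc_hf_norm_ex, one_mul, ← Complex.ofReal_sub, Complex.norm_real,
      Real.norm_eq_abs]
    rw [hR, mem_filter] at hr
    have hrd : r.Coprime d := by
      have h4 : r.gcd d = a.gcd d := hr.2.gcd_eq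
      rw [Nat.coprime_iff_gcd_eq_one] at had ⊢
      rw [h4, had]
    exact hX w k hP lam hlam d q r hd hdX hq hqX hrd
  refine (norm_sum_le_of_le R h3).trans ?_
  rw [sum_const, nsmul_eq_mul]
  have h4 : (R.card : ℝ) ≤ (d : ℝ) * q := by
    have h5 := gc_hf_card d (d * q) a hd
    rw [← hdK] at h5
    have h6 : R.card ≤ d * q := h5
    exact_mod_cast h6
  have hd' : (0 : ℝ) < d := by exact_mod_cast hd
  have hq' : (0 : ℝ) < q := by exact_mod_cast hq
  have hX0 : 0 < X := by linarith
  calc (R.card : ℝ) * (X / ((d : ℝ) ^ 2 * q) / L)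
      ≤ ((d : ℝ) * q) * (X / ((d : ℝ) ^ 2 * q) / L) := by
        apply mul_le_mul_of_nonneg_right h4
        positivity
    _ = X / d / L := by
        field_simp

end Pool.Agent.GC.M
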