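import Pool.Agent.Lib.MP_0da313_nt.GC.E
import Pool.Agent.Lib.MP_0da313_nt.BV.Hooley
import Pool.Agent.Lib.MP_0da313_nt.MT.Mertens

set_option autoImplicit false

/-!
Project GC, [GC hh]: minor arcs for the model of the primes.
-/

namespace Pool.Agent.GC.E

open Finset Filter
open Pool.Agent.MP89da58 (kapD)
open Pool.Agent.MT (kapD_pos)
open Pool.Agent.SP80 (ex)

private lemma gc_hh_prime {w : ℕ} {T : Finset ℕ} (hT : T ∈ (prs w).powerset) :
    ∀ p ∈ T, p.Prime := by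
  intro p hp
  have h := (Finset.mem_powerset.1 hT) hp
  exact (Finset.mem_filter.1 h).2

private lemma gc_hh_dv {T : Finset ℕ} (hT : ∀ p ∈ T, p.Prime) (t : ℕ) :
    ∏ p ∈ T, dv t p = if (∏ p ∈ T, p) ∣ t then 1 else 0 := by
  unfold dv
  rw [Finset.prod_ite_zero, Finset.prod_const_one]
  congr 1
  rw [eq_iff_iff]
  constructor
  · intro h
    exact Finset.prod_primes_dvd _ (fun p hp => (hT p hp).prime) h
  · intro h p hp
    exact (Finset.dvd_prod_of_mem _ hp).trans h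

private lemma gc_hh_inner (a d Y m : ℕ) (hm : 0 < m) (f : ℕ → ℂ) :
    ∑ t ∈ (Icc 1 Y).filter (fun t => t ≡ a [MOD d]), (if m ∣ t then f t else 0)
      = ∑ l ∈ (Ioc 0 (Y / m)).filter (fun l => m * l ≡ a [MOD d]), f (m * l) := by
  rw [← Finset.sum_filter, Finset.filter_filter]
  symm
  apply Finset.sum_bij' (i := fun l _ => m * l) (j := fun t _ => t / m)
  · intro l hl
    rw [Finset.mem_filter, Finset.mem_Ioc] at hl
    rw [Finset.mem_filter, Finset.mem_Icc]
    refine ⟨⟨Nat.mul_pos hm hl.1.1, ?_⟩, hl.2, dvd_mul_right m l⟩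
    have := (Nat.le_div_iff_mul_le hm).1 hl.1.2
    linarith [mul_comm l m]
  · intro t ht
    rw [Finset.mem_filter, Finset.mem_Icc] at ht
    obtain ⟨c, rfl⟩ := ht.2.2
    rw [Nat.mul_div_cancel_left c hm, Finset.mem_filter, Finset.mem_Ioc]
    refine ⟨⟨?_, ?_⟩, ht.2.1⟩
    · rcases Nat.eq_zero_or_pos c with h | h
      · subst h
        have := ht.1.1
        omega
      · exact h
    · rw [Nat.le_div_iff_mul_le hm, mul_comm]
      exact ht.1.2
  · intro l _
    exact Nat.mul_div_cancel_left l hm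
  · intro t ht
    rw [Finset.mem_filter] at ht
    exact Nat.mul_div_cancel' ht.2.2
  · intro l _
    rfl

/-- the arithmetic part: the sum over the model is at most `κ⁻¹` times the sum over `m ≤ M`. -/
private lemma gc_hh_core (w k d a Y M : ℕ) (θ : ℝ) (hM : ∀ T ∈ (prs w).powerset, T.card ≤ k →
    (∏ p ∈ T, p) ≤ M) :
    ‖∑ t ∈ (Icc 1 Y).filter (fun t => t ≡ a [MOD d]), (HH w k t : ℂ) * ex (θ * t)‖
      ≤ (kapD w)⁻¹ * ∑ m ∈ Icc 1 M,
        ‖∑ l ∈ (Ioc 0 (Y / m)).filter (fun l => m * l ≡ a [MOD d]),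
          ex (θ * ((m * l : ℕ) : ℝ))‖ := by
  obtain ⟨c, h1, h2, h3⟩ := Pool.Agent.BVall.repB_U (prs w) k
  set g : ℕ → ℝ := fun m => ‖∑ l ∈ (Ioc 0 (Y / m)).filter (fun l => m * l ≡ a [MOD d]),
          ex (θ * ((m * l : ℕ) : ℝ))‖ with hg
  have hk := kapD_pos w
  have e1 : ∑ t ∈ (Icc 1 Y).filter (fun t => t ≡ a [MOD d]), (HH w k t : ℂ) * ex (θ * t)
      = ((kapD w)⁻¹ : ℂ) * ∑ T ∈ (prs w).powerset, (c T : ℂ) *
        ∑ l ∈ (Ioc 0 (Y / ∏ p ∈ T, p)).filter (fun l => (∏ p ∈ T, p) * l ≡ a [MOD d]),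
          ex (θ * (((∏ p ∈ T, p) * l : ℕ) : ℝ)) := by
    have e2 : ∀ T ∈ (prs w).powerset, (c T : ℂ) *
        ∑ l ∈ (Ioc 0 (Y / ∏ p ∈ T, p)).filter (fun l => (∏ p ∈ T, p) * l ≡ a [MOD d]),
          ex (θ * (((∏ p ∈ T, p) * l : ℕ) : ℝ))
        = ∑ t ∈ (Icc 1 Y).filter (fun t => t ≡ a [MOD d]),
          (c T : ℂ) * ((∏ p ∈ T, dv t p : ℝ) : ℂ) * ex (θ * t) := by
      intro T hT
      have hp := gc_hh_prime hT
      rw [← gc_hh_inner a d Y (∏ p ∈ T, p) (Finset.prod_pos fun p h => (hp p h).pos)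
        (fun t => ex (θ * t)), Finset.mul_sum]
      apply Finset.sum_congr rfl
      intro t _
      rw [gc_hh_dv hp]
      split_ifs <;> simp
    rw [Finset.sum_congr rfl e2, Finset.sum_comm, Finset.mul_sum]
    apply Finset.sum_congr rfl
    intro t _
    unfold HH
    have e3 : Pool.Agent.Lib.MP_0da313_nt.U (dv t) (prs w) k
      = ∑ T ∈ (prs w).powerset, c T * ∏ p ∈ T, dv t p := h1 (dv t)
    rw [e3, ← Finset.sum_mul]
    push_cast
    ring
  rw [e1, norm_mul]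
  have e4 : ‖((kapD w)⁻¹ : ℂ)‖ = (kapD w)⁻¹ := by
    rw [norm_inv, Complex.norm_real, Real.norm_eq_abs, abs_of_pos hk]
  rw [e4]
  apply mul_le_mul_of_nonneg_left _ (inv_nonneg.2 hk.le)
  refine (norm_sum_le _ _).trans ?_
  have e5 : ∀ T ∈ (prs w).powerset, ‖(c T : ℂ) *
        ∑ l ∈ (Ioc 0 (Y / ∏ p ∈ T, p)).filter (fun l => (∏ p ∈ T, p) * l ≡ a [MOD d]),
          ex (θ * (((∏ p ∈ T, p) * l : ℕ) : ℝ))‖
      ≤ if T.card ≤ k then g (∏ p ∈ T, p) else 0 := by
    intro T hT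
    rw [norm_mul, Complex.norm_real, Real.norm_eq_abs]
    split_ifs with h
    · exact mul_le_of_le_one_left (norm_nonneg _) (h2 T)
    · have : c T = 0 := by
        by_contra hc
        exact h (h3 T hT hc)
      rw [this, abs_zero, zero_mul]
  refine (Finset.sum_le_sum e5).trans ?_
  rw [← Finset.sum_filter]
  have hinj : Set.InjOn (fun T : Finset ℕ => ∏ p ∈ T, p)
      (((prs w).powerset.filter (fun T => T.card ≤ k) : Finset (Finset ℕ)) : Set (Finset ℕ)) := by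
    intro T hT T' hT' he
    have f1 := gc_hh_prime (Finset.mem_filter.1 (Finset.mem_coe.1 hT)).1
    have f2 := gc_hh_prime (Finset.mem_filter.1 (Finset.mem_coe.1 hT')).1
    rw [← Nat.primeFactors_prod f1, ← Nat.primeFactors_prod f2]
    exact congrArg Nat.primeFactors he
  rw [← Finset.sum_image (f := g) hinj]
  apply Finset.sum_le_sum_of_subset_of_nonneg
  · intro m hm
    rw [Finset.mem_image] at hm
    obtain ⟨T, hT, rfl⟩ := hm
    rw [Finset.mem_filter] at hT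
    have hp := gc_hh_prime hT.1
    rw [Finset.mem_Icc]
    exact ⟨Finset.prod_pos fun p h => (hp p h).pos, hM T hT.1 hT.2⟩
  · intro m _ _
    exact norm_nonneg _

/-- the analytic part -/
private lemma gc_hh_fin {X L d q M κi : ℝ} {A : ℕ} (hX : 0 < X) (hL : 2000 ≤ L)
    (hlog : Real.log X = L) (hX2 : L ^ (A + 5) ≤ X ^ (1 / 2 : ℝ)) (hd1 : 1 ≤ d)
    (hd : d ≤ X ^ (1 / 50 : ℝ)) (hq1 : L ^ (A + 5) ≤ q) (hq2 : q ≤ X / (d ^ 2 * L ^ (A + 5)))
    (hM1 : 1 ≤ M) (hM : M ≤ X ^ (1 / 100 : ℝ)) (hκ : κi ≤ 1000 * L) :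
    κi * (200 * (2 * X / (d * q) + d * M + d * q) * (1 + Real.log q) * (1 + Real.log M))
      ≤ X / d / L ^ A := by
  have hL0 : 0 < L := by linarith
  have hB : 1 ≤ L ^ (A + 5) := one_le_pow₀ (by linarith)
  have hB0 : 0 < L ^ (A + 5) := by linarith
  have hX1 : 1 ≤ X := by
    by_contra h
    push Not at h
    have := Real.log_neg hX h
    linarith
  have hq0 : 0 < q := by linarith
  have hd0 : 0 < d := by linarith
  set Z : ℝ := X / (d * L ^ (A + 5)) with hZ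
  have hZ0 : 0 < Z := by positivity
  -- the three terms
  have t1 : 2 * X / (d * q) ≤ 2 * Z := by
    rw [hZ, ← mul_div_assoc]
    gcongr
  have t3 : d * q ≤ Z := by
    calc d * q ≤ d * (X / (d ^ 2 * L ^ (A + 5))) := by gcongr
      _ = Z := by
        rw [hZ]
        field_simp
  have t2 : d * M ≤ Z := by
    rw [hZ, le_div_iff₀ (by positivity)]
    calc d * M * (d * L ^ (A + 5)) = d * d * M * L ^ (A + 5) := by ring
      _ ≤ X ^ (1 / 50 : ℝ) * X ^ (1 / 50 : ℝ) * X ^ (1 / 100 : ℝ) * X ^ (1 / 2 : ℝ) := by gcongr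
      _ = X ^ (1 / 50 + 1 / 50 + 1 / 100 + 1 / 2 : ℝ) := by
        rw [Real.rpow_add hX, Real.rpow_add hX, Real.rpow_add hX]
      _ ≤ X ^ (1 : ℝ) := Real.rpow_le_rpow_of_exponent_le hX1 (by norm_num)
      _ = X := Real.rpow_one X
  have hqX : q ≤ X := by
    refine hq2.trans (div_le_self hX.le ?_)
    exact one_le_mul_of_one_le_of_one_le (one_le_pow₀ hd1) hB
  have hMX : M ≤ X := by
    refine hM.trans ?_
    calc X ^ (1 / 100 : ℝ) ≤ X ^ (1 : ℝ) := Real.rpow_le_rpow_of_exponent_le hX1 (by norm_num)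
      _ = X := Real.rpow_one X
  have l1 : 1 + Real.log q ≤ 2 * L := by
    have := Real.log_le_log hq0 hqX
    linarith
  have l2 : 1 + Real.log M ≤ 2 * L := by
    have := Real.log_le_log (by linarith) hMX
    linarith
  have l1' : 0 ≤ 1 + Real.log q := by
    have := Real.log_nonneg (hB.trans hq1)
    linarith
  have l2' : 0 ≤ 1 + Real.log M := by
    have := Real.log_nonneg hM1
    linarith
  have hs : 2 * X / (d * q) + d * M + d * q ≤ 4 * Z := by linarith
  calc κi * (200 * (2 * X / (d * q) + d * M + d * q) * (1 + Real.log q) * (1 + Real.log M))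
      ≤ (1000 * L) * (200 * (4 * Z) * (2 * L) * (2 * L)) := by
        gcongr
    _ = 3200000 * (Z * L ^ 3) := by ring
    _ ≤ L ^ 2 * (Z * L ^ 3) := by
        gcongr
        nlinarith
    _ = X / d / L ^ A := by
        rw [hZ]
        field_simp
        ring

theorem p_hh : S_hh := by
  intro ht1 A
  refine ⟨A + 5, ?_⟩
  have ev1 : ∀ᶠ X : ℝ in atTop, (2000 : ℝ) ≤ Real.log X :=
    Real.tendsto_log_atTop.eventually_ge_atTop 2000
  have ev2 : ∀ᶠ X : ℝ in atTop, Real.log X ^ (A + 5) ≤ X ^ (1 / 2 : ℝ) := by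
    have h := (isLittleO_log_rpow_rpow_atTop ((A + 5 : ℕ) : ℝ) (by norm_num : (0 : ℝ) < 1 / 2)).bound
      (zero_lt_one)
    filter_upwards [h, eventually_ge_atTop 1] with X hX hX1
    rw [Real.rpow_natCast, Real.norm_eq_abs, Real.norm_eq_abs, one_mul,
      abs_of_nonneg (by positivity : (0 : ℝ) ≤ X ^ (1 / 2 : ℝ))] at hX
    exact (le_abs_self _).trans hX
  filter_upwards [ev1, ev2, eventually_ge_atTop (1 : ℝ)] with X hX1 hX2 hX3
  intro w k hP d a q Y h θ hd1 hd2 had hq1 hq2 hhq hap hY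
  have hX0 : (0 : ℝ) < X := by linarith
  have hd1R : (1 : ℝ) ≤ d := by exact_mod_cast hd1
  set L := Real.log X with hL
  have hB : (1 : ℝ) ≤ L ^ (A + 5) := one_le_pow₀ (by linarith)
  have hqR : (0 : ℝ) < q := by linarith
  have hq0 : 0 < q := by exact_mod_cast hqR
  have hw1 : L ≤ w := by
    have := hP.w_ge
    rwa [pow_one] at this
  have hw2R : (2 : ℝ) ≤ w := by linarith
  have hw2 : 2 ≤ w := by exact_mod_cast hw2R
  have hwk := hP.wk
  set M : ℕ := ⌊X ^ (1 / 100 : ℝ)⌋₊ with hMdef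
  have hX100 : (1 : ℝ) ≤ X ^ (1 / 100 : ℝ) := Real.one_le_rpow hX3 (by norm_num)
  have hM1 : 1 ≤ M := Nat.le_floor (by simpa using hX100)
  have hM1R : (1 : ℝ) ≤ M := by exact_mod_cast hM1
  have hMX : (M : ℝ) ≤ X ^ (1 / 100 : ℝ) := Nat.floor_le (by positivity)
  have hMb : ∀ T ∈ (prs w).powerset, T.card ≤ k → (∏ p ∈ T, p) ≤ M := by
    intro T hT hk
    apply Nat.le_floor
    have h1 : (∏ p ∈ T, p) ≤ w ^ T.card := by
      apply Finset.prod_le_pow_card
      intro p hp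
      have := (Finset.mem_powerset.1 hT) hp
      unfold prs at this
      rw [Finset.mem_filter, Finset.mem_Icc] at this
      exact this.1.2
    have h2 : w ^ T.card ≤ w ^ (k + 1) := Nat.pow_le_pow_right (by omega) (by omega)
    have h3 : (((∏ p ∈ T, p : ℕ)) : ℝ) ≤ (w : ℝ) ^ (k + 1) := by exact_mod_cast h1.trans h2
    exact h3.trans hwk
  have hκ : (kapD w)⁻¹ ≤ 1000 * L := by
    have h1 := Pool.Agent.MT.mertens w hw2
    have hk := kapD_pos w
    have h2 : Real.log w ≤ L := by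
      apply Real.log_le_log (by linarith)
      calc (w : ℝ) ≤ (w : ℝ) ^ (k + 1) := le_self_pow₀ (by linarith) (by omega)
        _ ≤ X ^ (1 / 100 : ℝ) := hwk
        _ ≤ X ^ (1 : ℝ) := Real.rpow_le_rpow_of_exponent_le hX3 (by norm_num)
        _ = X := Real.rpow_one X
    rw [inv_le_iff_one_le_mul₀ hk]
    calc (1 : ℝ) ≤ 1000 * kapD w * Real.log w := h1
      _ ≤ 1000 * kapD w * L := by gcongr
      _ = 1000 * L * kapD w := by ring
  refine (gc_hh_core w k d a Y M θ hMb).trans ?_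
  have hv : ∀ m ∈ Icc 1 M, (((fun m => Y / m) m : ℕ) : ℝ) ≤ 2 * X / m := by
    intro m _
    refine Nat.cast_div_le.trans ?_
    gcongr
  have hmain := ht1 d a q M θ (2 * X) h (fun _ => 0) (fun m => Y / m) hd1 had hq0 hhq hap
    (by linarith) hM1 hv
  have hκ0 : 0 ≤ (kapD w)⁻¹ := inv_nonneg.2 (kapD_pos w).le
  refine (mul_le_mul_of_nonneg_left hmain hκ0).trans ?_
  exact gc_hh_fin hX0 hX1 hL.symm hX2 hd1R hd2 hq1 hq2 hM1R hMX hκ

end Pool.Agent.GC.E
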