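import Pool.Agent.Lib.MP_0da313_nt.GC.E
import Mathlib.NumberTheory.Chebyshev

set_option autoImplicit false

/-!
Project GC, piece mA: minor arcs for `ES`, from the bounds for the von Mangoldt function and for the
model, by Abel summation with the Lipschitz function `tz (t / X)`.
-/

namespace Pool.Agent.GC.E

open Finset Filter
open ArithmeticFunction (vonMangoldt)
open Pool.Agent.MP89da58 (kapD)
open Pool.Agent.CH (thP)
open Pool.Agent.SP80 (ex mn SW1 SW3)

/-- Abel summation -/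
private theorem gc_mA_abel (x : ℕ → ℂ) (g : ℕ → ℝ) (N : ℕ) :
    ∑ n ∈ Icc 1 N, x n * (g n : ℂ) =
      (∑ m ∈ Icc 1 N, x m) * (g N : ℂ) +
        ∑ n ∈ range N, (∑ m ∈ Icc 1 n, x m) * ((g n - g (n + 1) : ℝ) : ℂ) := by
  induction N with
  | zero => simp
  | succ N ih =>
    rw [sum_Icc_succ_top (by omega), ih, sum_Icc_succ_top (by omega), sum_range_succ]
    push_cast
    ring

private theorem gc_mA_abel_le (x : ℕ → ℂ) (g : ℕ → ℝ) (r : ℝ) (N : ℕ)
    (hx : ∀ n ≤ N, ‖∑ m ∈ Icc 1 n, x m‖ ≤ r) :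
    ‖∑ n ∈ Icc 1 N, x n * (g n : ℂ)‖ ≤
      r * (∑ n ∈ range N, |g n - g (n + 1)| + |g N|) := by
  rw [gc_mA_abel]
  refine (norm_add_le _ _).trans ?_
  have h1 : ‖(∑ m ∈ Icc 1 N, x m) * (g N : ℂ)‖ ≤ r * |g N| := by
    rw [norm_mul, Complex.norm_real, Real.norm_eq_abs]
    exact mul_le_mul_of_nonneg_right (hx N le_rfl) (abs_nonneg _)
  have h2 : ‖∑ n ∈ range N, (∑ m ∈ Icc 1 n, x m) * ((g n - g (n + 1) : ℝ) : ℂ)‖ ≤
      r * ∑ n ∈ range N, |g n - g (n + 1)| := by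
    rw [mul_sum]
    refine (norm_sum_le _ _).trans (sum_le_sum fun n hn => ?_)
    rw [norm_mul, Complex.norm_real, Real.norm_eq_abs]
    exact mul_le_mul_of_nonneg_right (hx n (mem_range.1 hn).le) (abs_nonneg _)
  linarith

private theorem gc_mA_tz_le (y : ℝ) : |tz y| ≤ 1 := by
  unfold tz
  rw [abs_of_nonneg (le_min (by norm_num) (le_max_left _ _))]
  exact min_le_left _ _

private theorem gc_mA_tz_lip (a b : ℝ) : |tz a - tz b| ≤ 100 * |a - b| := by
  have h1 : |tz a - tz b| ≤ |(2 - 100 * |a - 1|) - (2 - 100 * |b - 1|)| := by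
    unfold tz
    refine (abs_min_sub_min_le_max 1 _ 1 _).trans ?_
    rw [sub_self, abs_zero]
    refine max_le (abs_nonneg _) ?_
    refine (abs_max_sub_max_le_max 0 _ 0 _).trans ?_
    rw [sub_self, abs_zero]
    exact max_le (abs_nonneg _) le_rfl
  refine h1.trans ?_
  have h2 : (2 - 100 * |a - 1|) - (2 - 100 * |b - 1|) = 100 * (|b - 1| - |a - 1|) := by ring
  rw [h2, abs_mul, abs_of_pos (by norm_num : (0 : ℝ) < 100)]
  refine mul_le_mul_of_nonneg_left ?_ (by norm_num)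
  have h3 := abs_abs_sub_abs_le_abs_sub (b - 1) (a - 1)
  have h4 : b - 1 - (a - 1) = -(a - b) := by ring
  rwa [h4, abs_neg] at h3

private theorem gc_mA_var (X : ℝ) (hX : 0 < X) (N : ℕ) (hN : (N : ℝ) ≤ 2 * X) :
    ∑ n ∈ range N, |tz ((n : ℕ) / X) - tz (((n + 1 : ℕ) : ℝ) / X)| + |tz (N / X)| ≤ 201 := by
  have h1 : ∀ n ∈ range N, |tz ((n : ℕ) / X) - tz (((n + 1 : ℕ) : ℝ) / X)| ≤ 100 / X := by
    intro n _
    refine (gc_mA_tz_lip _ _).trans ?_
    have h : (n : ℝ) / X - ((n + 1 : ℕ) : ℝ) / X = -(1 / X) := by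
      push_cast
      field_simp
      ring
    rw [h, abs_neg, abs_of_pos (by positivity)]
    apply le_of_eq
    ring
  have h2 := sum_le_sum h1
  rw [sum_const, card_range, nsmul_eq_mul] at h2
  have h3 : (N : ℝ) * (100 / X) ≤ 200 := by
    rw [mul_div_assoc', div_le_iff₀ hX]
    nlinarith
  linarith [gc_mA_tz_le (N / X)]

private theorem gc_mA_th (t : ℕ) : 0 ≤ vonMangoldt t - thP t := by
  unfold thP
  split_ifs with h
  · rw [ArithmeticFunction.vonMangoldt_apply_prime h, sub_self]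
  · rw [sub_zero]
    exact ArithmeticFunction.vonMangoldt_nonneg

private theorem gc_mA_pp (Y : ℕ) (hY : 1 ≤ Y) :
    ∑ t ∈ Icc 1 Y, (vonMangoldt t - thP t) ≤ 2 * Real.sqrt Y * Real.log Y := by
  have h1 : (1 : ℝ) ≤ (Y : ℝ) := by exact_mod_cast hY
  refine le_trans (le_of_eq ?_) (Chebyshev.psi_sub_theta_le h1)
  rw [Chebyshev.psi_sub_theta_eq_sum_not_prime, Nat.floor_natCast, sum_filter]
  have h2 : Icc 1 Y = Ioc 0 Y := by
    ext t
    simp only [mem_Icc, mem_Ioc]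
    omega
  rw [h2]
  refine sum_congr rfl fun t _ => ?_
  unfold thP
  split_ifs with h
  · rw [ArithmeticFunction.vonMangoldt_apply_prime h, sub_self]
  · rw [sub_zero]

private theorem gc_mA_ev (A : ℕ) : ∀ᶠ X : ℝ in atTop,
    8 * (Real.log X) ^ (A + 2) ≤ X ^ (48 / 100 : ℝ) := by
  have h := (isLittleO_log_rpow_rpow_atTop ((A + 2 : ℕ) : ℝ)
    (by norm_num : (0 : ℝ) < 48 / 100)).bound (by norm_num : (0 : ℝ) < 1 / 8)
  filter_upwards [h, eventually_ge_atTop (1 : ℝ)] with X hX h1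
  rw [Real.rpow_natCast, Real.norm_of_nonneg (pow_nonneg (Real.log_nonneg h1) _),
    Real.norm_of_nonneg (Real.rpow_nonneg (by linarith) _)] at hX
  linarith

private theorem gc_mA_norm_ex (x : ℝ) : ‖ex x‖ = 1 := by
  unfold Pool.Agent.SP80.ex
  exact Complex.norm_exp_ofReal_mul_I _

theorem p_mA : S_mA := by
  intro hLa hhh A
  obtain ⟨B1, h1⟩ := hLa (A + 1)
  obtain ⟨B2, h2⟩ := hhh (A + 1)
  refine ⟨max B1 B2, ?_⟩
  have hlog : ∀ᶠ X : ℝ in atTop, (603 : ℝ) ≤ Real.log X :=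
    Real.tendsto_log_atTop.eventually_ge_atTop 603
  filter_upwards [h1, h2, gc_mA_ev A, hlog, eventually_ge_atTop (2 : ℝ)] with X g1 g2 g3 g4 g5
  intro w k hP d a q h θ hd hdX had hq1 hq2 hcop happ
  have hX0 : (0 : ℝ) < X := by linarith
  have hL1 : (1 : ℝ) ≤ Real.log X := by linarith
  have hd0 : (0 : ℝ) < d := by exact_mod_cast hd
  set L := Real.log X with hLdef
  have hL0 : 0 < L := by linarith
  -- the bounds for smaller exponents
  have hB : ∀ B', B' ≤ max B1 B2 → L ^ B' ≤ (q : ℝ) ∧ (q : ℝ) ≤ X / ((d : ℝ) ^ 2 * L ^ B') := by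
    intro B' hB'
    have hp : L ^ B' ≤ L ^ (max B1 B2) := pow_le_pow_right₀ hL1 hB'
    refine ⟨hp.trans hq1, hq2.trans ?_⟩
    apply div_le_div_of_nonneg_left hX0.le (by positivity)
    exact mul_le_mul_of_nonneg_left hp (by positivity)
  set r : ℝ := X / d / L ^ (A + 1) with hr
  have hr0 : 0 ≤ r := by positivity
  -- the prime powers
  have hpw : ∀ Y : ℕ, (Y : ℝ) ≤ 2 * X → ∑ t ∈ Icc 1 Y, (vonMangoldt t - thP t) ≤ r := by
    intro Y hY
    rcases Nat.eq_zero_or_pos Y with rfl | hY0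
    · simpa using hr0
    have hY1 : (1 : ℝ) ≤ Y := by exact_mod_cast hY0
    refine (gc_mA_pp Y hY0).trans ?_
    have e1 : Real.sqrt Y ≤ 2 * Real.sqrt X := by
      rw [show (2 : ℝ) * Real.sqrt X = Real.sqrt (4 * X) by
        rw [Real.sqrt_mul (by norm_num), show (4 : ℝ) = 2 ^ 2 by norm_num,
          Real.sqrt_sq (by norm_num)]]
      exact Real.sqrt_le_sqrt (by linarith)
    have e2 : Real.log Y ≤ 2 * L := by
      have h := Real.log_le_log (by linarith) (hY.trans (mul_le_mul_of_nonneg_right g5 hX0.le))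
      rw [Real.log_mul hX0.ne' hX0.ne'] at h
      linarith
    have e3 : 0 ≤ Real.log Y := Real.log_nonneg hY1
    have e4 : 2 * Real.sqrt Y * Real.log Y ≤ 8 * Real.sqrt X * L := by
      have := mul_le_mul e1 e2 e3 (by positivity)
      nlinarith
    refine e4.trans ?_
    have e5 : X ^ (49 / 50 : ℝ) ≤ X / d := by
      rw [le_div_iff₀ hd0]
      calc X ^ (49 / 50 : ℝ) * d ≤ X ^ (49 / 50 : ℝ) * X ^ (1 / 50 : ℝ) :=
            mul_le_mul_of_nonneg_left hdX (Real.rpow_nonneg hX0.le _)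
        _ = X := by
            rw [← Real.rpow_add hX0]
            norm_num
    rw [hr, le_div_iff₀ (by positivity)]
    refine le_trans ?_ e5
    have e6 : X ^ (49 / 50 : ℝ) = Real.sqrt X * X ^ (48 / 100 : ℝ) := by
      rw [Real.sqrt_eq_rpow, ← Real.rpow_add hX0]
      norm_num
    rw [e6]
    calc 8 * Real.sqrt X * L * L ^ (A + 1) = Real.sqrt X * (8 * L ^ (A + 2)) := by ring
      _ ≤ _ := mul_le_mul_of_nonneg_left g3 (Real.sqrt_nonneg _)
  -- the partial sums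
  have hpar : ∀ n ≤ ⌊2 * X⌋₊, ‖∑ t ∈ Icc 1 n, (if t ≡ a [MOD d] then
      ((thP t - HH w k t : ℝ) : ℂ) * ex (θ * t) else 0)‖ ≤ 3 * r := by
    intro Y hY
    have hY2 : (Y : ℝ) ≤ 2 * X :=
      le_trans (by exact_mod_cast hY) (Nat.floor_le (by linarith))
    obtain ⟨q1, q2⟩ := hB B1 (le_max_left _ _)
    obtain ⟨q3, q4⟩ := hB B2 (le_max_right _ _)
    have a1 := g1 d a q Y h θ hd hdX had q1 q2 hcop happ hY2
    have a2 := g2 w k hP d a q Y h θ hd hdX had q3 q4 hcop happ hY2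
    have a3 : ‖∑ t ∈ (Icc 1 Y).filter (fun t => t ≡ a [MOD d]),
        ((vonMangoldt t - thP t : ℝ) : ℂ) * ex (θ * t)‖ ≤ r := by
      refine (norm_sum_le _ _).trans (le_trans ?_ (hpw Y hY2))
      refine le_trans (sum_le_sum (g := fun t => vonMangoldt t - thP t) fun t _ => ?_)
        (sum_le_sum_of_subset_of_nonneg (filter_subset _ _) fun t _ _ => gc_mA_th t)
      rw [norm_mul, gc_mA_norm_ex, mul_one, Complex.norm_real, Real.norm_of_nonneg (gc_mA_th t)]
    rw [← sum_filter]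
    have a4 : ∑ t ∈ (Icc 1 Y).filter (fun t => t ≡ a [MOD d]),
        ((thP t - HH w k t : ℝ) : ℂ) * ex (θ * t) =
        ∑ t ∈ (Icc 1 Y).filter (fun t => t ≡ a [MOD d]), (vonMangoldt t : ℂ) * ex (θ * t) -
        ∑ t ∈ (Icc 1 Y).filter (fun t => t ≡ a [MOD d]), (HH w k t : ℂ) * ex (θ * t) -
        ∑ t ∈ (Icc 1 Y).filter (fun t => t ≡ a [MOD d]),
          ((vonMangoldt t - thP t : ℝ) : ℂ) * ex (θ * t) := by
      rw [← sum_sub_distrib, ← sum_sub_distrib]
      refine sum_congr rfl fun t _ => ?_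
      push_cast
      ring
    rw [a4]
    refine (norm_sub_le _ _).trans ?_
    have a5 := norm_sub_le (∑ t ∈ (Icc 1 Y).filter (fun t => t ≡ a [MOD d]),
      (vonMangoldt t : ℂ) * ex (θ * t))
      (∑ t ∈ (Icc 1 Y).filter (fun t => t ≡ a [MOD d]), (HH w k t : ℂ) * ex (θ * t))
    linarith
  have habel := gc_mA_abel_le (fun t => if t ≡ a [MOD d] then
      ((thP t - HH w k t : ℝ) : ℂ) * ex (θ * t) else 0) (fun t => tz (t / X)) (3 * r) ⌊2 * X⌋₊
      hpar
  have hvar := gc_mA_var X hX0 ⌊2 * X⌋₊ (Nat.floor_le (by linarith))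
  have hES : ES w k X d a θ = ∑ n ∈ Icc 1 ⌊2 * X⌋₊, (if n ≡ a [MOD d] then
      ((thP n - HH w k n : ℝ) : ℂ) * ex (θ * n) else 0) * ((tz (n / X) : ℝ) : ℂ) := by
    unfold ES
    rw [sum_filter]
    refine sum_congr rfl fun t _ => ?_
    split_ifs
    · push_cast
      ring
    · rw [zero_mul]
  rw [hES]
  refine habel.trans ?_
  refine (mul_le_mul_of_nonneg_left hvar (by positivity)).trans ?_
  have hfin : 3 * r * 201 = 603 / L * (X / d / L ^ A) := by
    rw [hr]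
    field_simp
    ring
  rw [hfin]
  have h603 : 603 / L ≤ 1 := by
    rw [div_le_one hL0]
    exact g4
  have hpos : 0 ≤ X / d / L ^ A := by positivity
  nlinarith

end Pool.Agent.GC.E
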