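import Pool.Agent.Lib.MP_0da313_nt.GC.E

set_option autoImplicit false

namespace Pool.Agent.GC.E

open Finset Filter
open Pool.Agent.SP80 (ex mn SW1 SW3)

theorem gc_min_nonneg (H x : ℝ) (hH : 0 ≤ H) : 0 ≤ mn H x := by
  unfold mn; split_ifs
  · exact hH
  · exact le_min hH (by positivity)

theorem gc_min_mono (H H' x : ℝ) (h : H ≤ H') : mn H x ≤ mn H' x := by
  unfold mn; split_ifs
  · exact h
  · exact min_le_min_right _ h

theorem gc_min_scale (H x : ℝ) (d : ℕ) (hd : 1 ≤ d) :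
    mn H x ≤ d * mn (H / d) (d * x) := by
  have hd0 : (0:ℝ) < d := by exact_mod_cast hd
  have e : (d:ℝ) * (H / d) = H := by field_simp
  unfold mn
  by_cases h1 : x = round x
  · have h2 : (d:ℝ) * x = round ((d:ℝ) * x) := by
      have : (d:ℝ) * x = ((d * round x : ℤ) : ℝ) := by push_cast; rw [← h1]
      rw [this, round_intCast]
    rw [if_pos h1, if_pos h2, e]
  · rw [if_neg h1]
    by_cases h2 : (d:ℝ) * x = round ((d:ℝ) * x)
    · rw [if_pos h2, e]; exact min_le_left _ _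
    · rw [if_neg h2, mul_min_of_nonneg _ _ hd0.le, e]
      refine min_le_min_left _ ?_
      have h3 : |(d:ℝ) * x - round ((d:ℝ) * x)| ≤ d * |x - round x| := by
        have := round_le ((d:ℝ) * x) (d * round x)
        refine this.trans (le_of_eq ?_)
        push_cast
        rw [← mul_sub, abs_mul, abs_of_pos hd0]
      have h4 : 0 < |x - round x| := abs_pos.2 (sub_ne_zero.2 h1)
      have h5 : 0 < |(d:ℝ) * x - round ((d:ℝ) * x)| := abs_pos.2 (sub_ne_zero.2 h2)
      rw [mul_one_div, div_le_div_iff₀ (by positivity) (by positivity)]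
      nlinarith

/-- one small term -/
theorem gc_min_small (θ : ℝ) (h : ℤ) (q m : ℕ) (Y : ℝ) (hq : 0 < q) (hc : IsCoprime h (q : ℤ))
    (hθ : |θ - h / q| ≤ 1 / (q : ℝ) ^ 2) (hm : 1 ≤ m) (hm2 : 2 * m ≤ q) :
    1 ≤ ((m : ℤ) * h - q * round ((m : ℝ) * θ)).natAbs ∧
    ((m : ℤ) * h - q * round ((m : ℝ) * θ)).natAbs ≤ q ∧
    mn (Y / m) (m * θ) ≤ q / (((m : ℤ) * h - q * round ((m : ℝ) * θ)).natAbs : ℝ) := by
  set N : ℤ := round ((m : ℝ) * θ) with hN
  have hq0 : (0:ℝ) < q := by exact_mod_cast hq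
  have hm0 : (0:ℝ) < m := by exact_mod_cast hm
  have hm2' : 2 * (m:ℝ) ≤ q := by exact_mod_cast hm2
  have hne : (m : ℤ) * h - q * N ≠ 0 := by
    intro h0
    have h1 : (q : ℤ) ∣ (m : ℤ) * h := ⟨N, by linarith⟩
    have h2 : (q : ℤ) ∣ (m : ℤ) := hc.symm.dvd_of_dvd_mul_right h1
    have h3 : q ∣ m := by exact_mod_cast h2
    have := Nat.le_of_dvd (by omega) h3
    omega
  have hs1 : 1 ≤ ((m : ℤ) * h - q * N).natAbs := Int.one_le_abs hne |> fun h => by
    have := Int.natAbs_pos.2 hne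
    exact this
  have hsr : ((((m : ℤ) * h - q * N).natAbs : ℕ) : ℝ) = |(m : ℝ) * h - q * N| := by
    rw [Nat.cast_natAbs]; push_cast; rfl
  have hd : |(m : ℝ) * θ - (m : ℝ) * h / q| ≤ 1 / (2 * q) := by
    have : (m : ℝ) * θ - (m : ℝ) * h / q = m * (θ - h / q) := by ring
    rw [this, abs_mul, abs_of_pos hm0]
    calc (m:ℝ) * |θ - h / q| ≤ m * (1 / (q : ℝ) ^ 2) := by gcongr
      _ ≤ 1 / (2 * q) := by
        rw [mul_one_div, div_le_div_iff₀ (by positivity) (by positivity)]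
        nlinarith
  have hkey : |(m : ℝ) * h - q * N| = q * |(m : ℝ) * h / q - N| := by
    rw [← abs_of_pos hq0, ← abs_mul, abs_of_pos hq0]
    congr 1; field_simp
  have hup : |(m : ℝ) * h / q - N| ≤ 1 / (2 * q) + 1 / 2 := by
    have h1 : |(m : ℝ) * θ - N| ≤ 1 / 2 := abs_sub_round _
    have h2 : |(m : ℝ) * h / q - N| ≤ |(m : ℝ) * θ - (m : ℝ) * h / q| + |(m : ℝ) * θ - N| := by
      have := abs_sub_le ((m : ℝ) * h / q) ((m : ℝ) * θ) N
      rwa [abs_sub_comm ((m : ℝ) * h / q) ((m : ℝ) * θ)] at this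
    linarith
  have hlow : |(m : ℝ) * h / q - N| ≤ 1 / (2 * q) + |(m : ℝ) * θ - N| := by
    have := abs_sub_le ((m : ℝ) * h / q) ((m : ℝ) * θ) N
    rw [abs_sub_comm ((m : ℝ) * h / q) ((m : ℝ) * θ)] at this
    linarith
  have hs1r : (1:ℝ) ≤ |(m : ℝ) * h - q * N| := by rw [← hsr]; exact_mod_cast hs1
  refine ⟨hs1, ?_, ?_⟩
  · have : ((((m : ℤ) * h - q * N).natAbs : ℕ) : ℝ) ≤ q := by
      rw [hsr, hkey]
      calc (q:ℝ) * |(m : ℝ) * h / q - N| ≤ q * (1 / (2 * q) + 1 / 2) := by gcongr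
        _ = 1 / 2 + q / 2 := by field_simp
        _ ≤ q := by
          have : (1:ℝ) ≤ q := by exact_mod_cast hq
          linarith
    exact_mod_cast this
  · have hpos : |(m : ℝ) * h - q * N| / (2 * q) ≤ |(m : ℝ) * θ - N| := by
      have h1 : |(m : ℝ) * h - q * N| / q ≤ 1 / (2 * q) + |(m : ℝ) * θ - N| := by
        rw [hkey, mul_div_assoc, mul_div_cancel₀ _ hq0.ne']
        exact hlow
      have h2 : |(m : ℝ) * h - q * N| / q = |(m : ℝ) * h - q * N| / (2 * q) +
          |(m : ℝ) * h - q * N| / (2 * q) := by field_simp; ring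
      have h3 : 1 / (2 * q) ≤ |(m : ℝ) * h - q * N| / (2 * q) := by gcongr
      linarith
    have hpos' : 0 < |(m : ℝ) * θ - N| := lt_of_lt_of_le (by positivity) hpos
    rw [hsr]
    unfold mn
    rw [← hN, if_neg (by
      intro h0
      rw [← h0] at hpos'
      simp at hpos')]
    refine (min_le_right _ _).trans ?_
    rw [div_le_div_iff₀ (by positivity) (by positivity)]
    rw [div_le_iff₀ (by positivity)] at hpos
    linarith

theorem gc_min_inj (θ : ℝ) (h : ℤ) (q m m' : ℕ) (hq : 0 < q) (hc : IsCoprime h (q : ℤ))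
    (hm : 1 ≤ m) (hm2 : 2 * m ≤ q) (hm' : 1 ≤ m') (hm2' : 2 * m' ≤ q)
    (he : ((m : ℤ) * h - q * round ((m : ℝ) * θ)).natAbs =
      ((m' : ℤ) * h - q * round ((m' : ℝ) * θ)).natAbs) : m = m' := by
  rcases Int.natAbs_eq_natAbs_iff.1 he with h1 | h1
  · have h2 : (q : ℤ) ∣ ((m : ℤ) - m') * h :=
      ⟨round ((m : ℝ) * θ) - round ((m' : ℝ) * θ), by linear_combination h1⟩
    have h3 : (q : ℤ) ∣ (m : ℤ) - m' := hc.symm.dvd_of_dvd_mul_right h2
    by_contra hne
    have h4 : (m : ℤ) - m' ≠ 0 := by omega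
    have := Int.natAbs_le_of_dvd_ne_zero h3 h4
    omega
  · have h2 : (q : ℤ) ∣ ((m : ℤ) + m') * h :=
      ⟨round ((m : ℝ) * θ) + round ((m' : ℝ) * θ), by linear_combination h1⟩
    have h3 : (q : ℤ) ∣ (m : ℤ) + m' := hc.symm.dvd_of_dvd_mul_right h2
    have h4 : (m : ℤ) + m' ≠ 0 := by omega
    have := Int.natAbs_le_of_dvd_ne_zero h3 h4
    omega

/-- the small `m` -/
theorem gc_min_smallsum (θ : ℝ) (h : ℤ) (q M : ℕ) (Y : ℝ) (hq : 0 < q) (hc : IsCoprime h (q : ℤ))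
    (hθ : |θ - h / q| ≤ 1 / (q : ℝ) ^ 2) :
    ∑ m ∈ (Icc 1 M).filter (fun m => 2 * m ≤ q), mn (Y / m) (m * θ) ≤ q * (1 + Real.log q) := by
  set f : ℕ → ℕ := fun m => ((m : ℤ) * h - q * round ((m : ℝ) * θ)).natAbs with hf
  have h1 : ∀ m ∈ (Icc 1 M).filter (fun m => 2 * m ≤ q), 1 ≤ f m ∧ f m ≤ q ∧
      mn (Y / m) (m * θ) ≤ q / (f m : ℝ) := by
    intro m hm
    rw [mem_filter, mem_Icc] at hm
    exact gc_min_small θ h q m Y hq hc hθ hm.1.1 hm.2
  calc ∑ m ∈ (Icc 1 M).filter (fun m => 2 * m ≤ q), mn (Y / m) (m * θ)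
      ≤ ∑ m ∈ (Icc 1 M).filter (fun m => 2 * m ≤ q), (q : ℝ) / (f m : ℝ) :=
        sum_le_sum fun m hm => (h1 m hm).2.2
    _ = ∑ s ∈ ((Icc 1 M).filter (fun m => 2 * m ≤ q)).image f, (q : ℝ) / (s : ℝ) := by
        rw [sum_image]
        intro m hm m' hm' he
        rw [mem_coe, mem_filter, mem_Icc] at hm hm'
        exact gc_min_inj θ h q m m' hq hc hm.1.1 hm.2 hm'.1.1 hm'.2 he
    _ ≤ ∑ s ∈ Icc 1 q, (q : ℝ) / (s : ℝ) := by
        refine sum_le_sum_of_subset_of_nonneg ?_ (fun _ _ _ => by positivity)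
        intro s hs
        obtain ⟨m, hm, rfl⟩ := mem_image.1 hs
        exact mem_Icc.2 ⟨(h1 m hm).1, (h1 m hm).2.1⟩
    _ = q * ∑ s ∈ Icc 1 q, (1 : ℝ) / (s : ℝ) := by
        rw [mul_sum]; exact sum_congr rfl fun s _ => by ring
    _ ≤ q * (1 + Real.log q) := by
        have := harmonic_le_one_add_log q
        have e : ((harmonic q : ℚ) : ℝ) = ∑ s ∈ Icc 1 q, (1 : ℝ) / (s : ℝ) := by
          rw [harmonic_eq_sum_Icc]; push_cast
          exact sum_congr rfl fun s _ => by rw [one_div]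
        rw [e] at this
        gcongr

/-- one dyadic block -/
theorem gc_min_block (h3 : SW3) (θ : ℝ) (h : ℤ) (q M i : ℕ) (Y : ℝ) (hq : 0 < q)
    (hc : IsCoprime h (q : ℤ)) (hθ : |θ - h / q| ≤ 1 / (q : ℝ) ^ 2) (hY : 0 ≤ Y) :
    ∑ m ∈ ((Icc 1 M).filter (fun m => ¬ 2 * m ≤ q)).filter (fun m => Nat.log 2 m = i),
      mn (Y / m) (m * θ) ≤ 36 * (Y / q + 2 ^ i * (1 + Real.log q)) := by
  have hq0 : (0:ℝ) < q := by exact_mod_cast hq
  have hlog : 0 ≤ Real.log q := Real.log_natCast_nonneg q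
  by_cases hne : (((Icc 1 M).filter (fun m => ¬ 2 * m ≤ q)).filter
      (fun m => Nat.log 2 m = i)).Nonempty
  swap
  · rw [not_nonempty_iff_eq_empty.1 hne, sum_empty]
    positivity
  obtain ⟨m0, hm0⟩ := hne
  simp only [mem_filter, mem_Icc] at hm0
  have hV : q ≤ 4 * 2 ^ i := by
    have h1 : m0 < 2 ^ (i + 1) := by
      rw [← hm0.2]; exact Nat.lt_pow_succ_log_self (by norm_num) m0
    rw [pow_succ] at h1
    omega
  have hVr : (q:ℝ) ≤ 4 * 2 ^ i := by exact_mod_cast hV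
  have h2i : (0:ℝ) < 2 ^ i := by positivity
  calc ∑ m ∈ ((Icc 1 M).filter (fun m => ¬ 2 * m ≤ q)).filter (fun m => Nat.log 2 m = i),
        mn (Y / m) (m * θ)
      ≤ ∑ m ∈ ((Icc 1 M).filter (fun m => ¬ 2 * m ≤ q)).filter (fun m => Nat.log 2 m = i),
        mn (Y / 2 ^ i) (m * θ) := by
        refine sum_le_sum fun m hm => gc_min_mono _ _ _ ?_
        simp only [mem_filter, mem_Icc] at hm
        have : 2 ^ i ≤ m := by
          rw [← hm.2]; exact Nat.pow_log_le_self 2 (by omega)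
        have : ((2:ℝ) ^ i) ≤ m := by exact_mod_cast this
        gcongr
    _ ≤ ∑ m ∈ Icc (1 : ℕ) (2 ^ (i + 1)), mn (Y / 2 ^ i) ((m : ℝ) * θ) := by
        refine sum_le_sum_of_subset_of_nonneg ?_
          (fun _ _ _ => gc_min_nonneg _ _ (by positivity))
        intro m hm
        simp only [mem_filter, mem_Icc] at hm ⊢
        refine ⟨hm.1.1.1, ?_⟩
        rw [← hm.2]; exact (Nat.lt_pow_succ_log_self (by norm_num) m).le
    _ ≤ 6 * (((2 ^ (i + 1) : ℕ) : ℝ) / q + 1) * (Y / 2 ^ i + q * (1 + Real.log q)) :=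
        h3 θ h q (2 ^ (i + 1)) (Y / 2 ^ i) hq hc hθ (by positivity)
    _ ≤ 6 * (6 * (2 ^ i / q)) * (Y / 2 ^ i + q * (1 + Real.log q)) := by
        have : ((2 ^ (i + 1) : ℕ) : ℝ) / q + 1 ≤ 6 * (2 ^ i / q) := by
          push_cast
          rw [pow_succ, ← sub_nonneg]
          have : 6 * ((2:ℝ) ^ i / q) - (2 ^ i * 2 / q + 1) = (4 * 2 ^ i - q) / q := by
            field_simp; ring
          rw [this]
          exact div_nonneg (by linarith) hq0.le
        gcongr
    _ = 36 * (Y / q + 2 ^ i * (1 + Real.log q)) := by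
        field_simp; ring

theorem p_min : S_min := by
  intro h3
  refine ⟨fun H x d _ hd => gc_min_scale H x d hd,
    fun H H' x hH hHH => ⟨gc_min_nonneg H x hH, gc_min_mono H H' x hHH⟩, ?_⟩
  intro θ h q M Y hq hc hθ hY hM
  have hq0 : (0:ℝ) < q := by exact_mod_cast hq
  have hM0 : (0:ℝ) < M := by exact_mod_cast hM
  have hlq : 0 ≤ Real.log q := Real.log_natCast_nonneg q
  have hlM : 0 ≤ Real.log M := Real.log_natCast_nonneg M
  rw [← sum_filter_add_sum_filter_not (Icc 1 M) (fun m => 2 * m ≤ q)]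
  have hA := gc_min_smallsum θ h q M Y hq hc hθ
  have hB : ∑ m ∈ (Icc 1 M).filter (fun m => ¬ 2 * m ≤ q), mn (Y / m) (m * θ) ≤
      54 * (1 + Real.log M) * (Y / q) + 72 * M * (1 + Real.log q) := by
    have hmap : ∀ m ∈ (Icc 1 M).filter (fun m => ¬ 2 * m ≤ q),
        Nat.log 2 m ∈ range (Nat.log 2 M + 1) := by
      intro m hm
      simp only [mem_filter, mem_Icc] at hm
      rw [mem_range]
      exact Nat.lt_succ_of_le (Nat.log_mono_right hm.1.2)
    rw [← sum_fiberwise_of_maps_to hmap]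
    calc ∑ i ∈ range (Nat.log 2 M + 1),
          ∑ m ∈ ((Icc 1 M).filter (fun m => ¬ 2 * m ≤ q)).filter (fun m => Nat.log 2 m = i),
            mn (Y / m) (m * θ)
        ≤ ∑ i ∈ range (Nat.log 2 M + 1), 36 * (Y / q + 2 ^ i * (1 + Real.log q)) :=
          sum_le_sum fun i _ => gc_min_block h3 θ h q M i Y hq hc hθ hY
      _ = 36 * (((Nat.log 2 M + 1 : ℕ) : ℝ) * (Y / q)) +
          36 * ((∑ i ∈ range (Nat.log 2 M + 1), (2:ℝ) ^ i) * (1 + Real.log q)) := by
          rw [← mul_sum, sum_add_distrib, sum_const, card_range, nsmul_eq_mul, sum_mul]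
          ring
      _ ≤ 36 * ((3 / 2 * (1 + Real.log M)) * (Y / q)) + 36 * ((2 * M) * (1 + Real.log q)) := by
          have e1 : ((Nat.log 2 M + 1 : ℕ) : ℝ) ≤ 3 / 2 * (1 + Real.log M) := by
            have h2 : (2:ℝ) ^ (Nat.log 2 M) ≤ M := by
              exact_mod_cast Nat.pow_log_le_self 2 (by omega)
            have h4 : (Nat.log 2 M : ℝ) * Real.log 2 ≤ Real.log M := by
              rw [← Real.log_pow]
              exact Real.log_le_log (by positivity) h2
            have h5 : (2:ℝ) / 3 ≤ Real.log 2 := by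
              have := Real.log_two_gt_d9; linarith
            push_cast
            have h6 : (Nat.log 2 M : ℝ) * (2 / 3) ≤ Real.log M :=
              le_trans (mul_le_mul_of_nonneg_left h5 (by positivity)) h4
            linarith
          have e2 : ∑ i ∈ range (Nat.log 2 M + 1), (2:ℝ) ^ i ≤ 2 * M := by
            have h2 : (2:ℝ) ^ (Nat.log 2 M) ≤ M := by
              exact_mod_cast Nat.pow_log_le_self 2 (by omega)
            rw [geom_sum_eq (by norm_num)]
            rw [pow_succ]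
            linarith
          have hYq : 0 ≤ Y / q := by positivity
          gcongr
      _ = 54 * (1 + Real.log M) * (Y / q) + 72 * M * (1 + Real.log q) := by ring
  have hYq : 0 ≤ Y / q := by positivity
  have k1 : Y / q * (1 + Real.log M) ≤ Y / q * ((1 + Real.log q) * (1 + Real.log M)) := by
    refine mul_le_mul_of_nonneg_left ?_ hYq
    nlinarith
  have k2 : (M:ℝ) * (1 + Real.log q) ≤ M * ((1 + Real.log q) * (1 + Real.log M)) := by
    refine mul_le_mul_of_nonneg_left ?_ hM0.le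
    nlinarith
  have k3 : (q:ℝ) * (1 + Real.log q) ≤ q * ((1 + Real.log q) * (1 + Real.log M)) := by
    refine mul_le_mul_of_nonneg_left ?_ hq0.le
    nlinarith
  have k4 : 0 ≤ (1 + Real.log q) * (1 + Real.log M) := by positivity
  have k5 : 0 ≤ Y / q * ((1 + Real.log q) * (1 + Real.log M)) := by positivity
  have k6 : 0 ≤ (M:ℝ) * ((1 + Real.log q) * (1 + Real.log M)) := by positivity
  have k7 : 0 ≤ (q:ℝ) * ((1 + Real.log q) * (1 + Real.log M)) := by positivity
  calc _ ≤ (q:ℝ) * (1 + Real.log q) + (54 * (1 + Real.log M) * (Y / q) +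
        72 * M * (1 + Real.log q)) := add_le_add hA hB
    _ ≤ 100 * (Y / q * ((1 + Real.log q) * (1 + Real.log M))) +
        100 * (M * ((1 + Real.log q) * (1 + Real.log M))) +
        100 * (q * ((1 + Real.log q) * (1 + Real.log M))) := by nlinarith
    _ = 100 * (Y / q + M + q) * (1 + Real.log q) * (1 + Real.log M) := by ring

end Pool.Agent.GC.E
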