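import Pool.Agent.Lib.MP_0da313_nt.GC.M

set_option autoImplicit false

/-!
Project GC, section M, piece pn: the principal character. `tri u = ∫_0^1 [|u| ≤ s] ds`, and for a given `s` the
sum is a difference of two Chebyshev functions (as in `CM/P/m1.lean`).
-/

namespace Pool.Agent.GC.M

open Finset Filter
open Pool.Agent.MP89da58 (tri)
open Pool.Agent.CM (wd mu)
open ArithmeticFunction (vonMangoldt)

/-- the triangle as an average of indicator functions of intervals -/
private theorem gc_pn_tri (u : ℝ) :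
    tri u = ∫ s in Set.Icc (0 : ℝ) 1, (Set.Ici |u|).indicator (fun _ => (1 : ℝ)) s := by
  have h : Set.Icc (0 : ℝ) 1 ∩ Set.Ici |u| = Set.Icc |u| 1 := by
    ext s
    simp only [Set.mem_inter_iff, Set.mem_Icc, Set.mem_Ici]
    constructor
    · rintro ⟨⟨-, h1⟩, h2⟩
      exact ⟨h2, h1⟩
    · rintro ⟨h1, h2⟩
      exact ⟨⟨(abs_nonneg u).trans h1, h2⟩, h1⟩
  rw [MeasureTheory.setIntegral_indicator measurableSet_Ici, h, MeasureTheory.setIntegral_const,
    Real.volume_real_Icc]
  unfold tri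
  rw [max_comm, smul_eq_mul, mul_one]

private theorem gc_pn_int (u : ℝ) : MeasureTheory.IntegrableOn
    ((Set.Ici |u|).indicator (fun _ => (1 : ℝ))) (Set.Icc (0 : ℝ) 1) := by
  apply MeasureTheory.Integrable.indicator _ measurableSet_Ici
  exact MeasureTheory.integrableOn_const (by simp) (by simp)

/-- for one value of `s` -/
private theorem gc_pn_one (gs : ℕ → ℝ) (X lam K s : ℝ) (N : ℕ) (hlam : 1 ≤ lam) (hX : 12 ≤ X)
    (hN : N = ⌊3 * X⌋₊)
    (hK : ∀ M : ℕ, X / 4 ≤ M → |∑ n ∈ Icc 1 M, gs n - M| ≤ K * M)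
    (hK0 : 0 ≤ K) (hs0 : 0 ≤ s) (hs1 : s ≤ 1) :
    |∑ n ∈ Icc 1 N, gs n *
      (Set.Ici |lam * Real.log (n / X)|).indicator (fun _ => (1 : ℝ)) s -
        X * (Real.exp (s / lam) - Real.exp (-(s / lam)))| ≤ 6 * K * X + 2 := by
  have hX0 : 0 < X := by linarith
  have hl0 : 0 < lam := by linarith
  obtain ⟨y, hy⟩ : ∃ y : ℝ, y = s / lam := ⟨_, rfl⟩
  rw [← hy]
  have hy0 : 0 ≤ y := by rw [hy]; exact div_nonneg hs0 hl0.le
  have hy1 : y ≤ 1 := by
    rw [hy, div_le_one hl0]
    linarith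
  have he1 : Real.exp y ≤ 2.75 := by
    have h1 := Real.exp_one_lt_d9
    have h2 := Real.exp_le_exp.2 hy1
    linarith
  have he2 : 1 / 2.75 ≤ Real.exp (-y) := by
    rw [Real.exp_neg, ← one_div]
    exact one_div_le_one_div_of_le (Real.exp_pos y) he1
  set a : ℕ := ⌈X * Real.exp (-y)⌉₊ with ha
  set b : ℕ := ⌊X * Real.exp y⌋₊ with hb
  have hxa : X * (1 / 2.75) ≤ X * Real.exp (-y) := mul_le_mul_of_nonneg_left he2 hX0.le
  have hxb : X * Real.exp y ≤ X * 2.75 := mul_le_mul_of_nonneg_left he1 hX0.le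
  have ha1 : X * Real.exp (-y) ≤ a := Nat.le_ceil _
  have ha2 : (a : ℝ) < X * Real.exp (-y) + 1 := Nat.ceil_lt_add_one (by positivity)
  have hb1 : (b : ℝ) ≤ X * Real.exp y := Nat.floor_le (by positivity)
  have hb2 : X * Real.exp y < b + 1 := Nat.lt_floor_add_one _
  have ha4 : X / 4 + 1 ≤ a := by
    have : X / 4 + 1 ≤ X * (1 / 2.75) := by
      norm_num
      linarith
    linarith
  have ha0 : 1 ≤ a := by
    have : (1 : ℝ) ≤ a := by linarith
    exact_mod_cast this
  have hmono : X * Real.exp (-y) ≤ X * Real.exp y :=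
    mul_le_mul_of_nonneg_left (Real.exp_le_exp.2 (by linarith)) hX0.le
  have hbN : b ≤ N := by
    rw [hN, hb]
    apply Nat.floor_le_floor
    linarith
  have hab : a ≤ b + 1 := by
    have : (a : ℝ) < b + 2 := by linarith
    have h : a < b + 2 := by exact_mod_cast this
    omega
  -- the condition
  have hcond : ∀ n ∈ Icc 1 N, (s ∈ Set.Ici |lam * Real.log (n / X)|) ↔ (a ≤ n ∧ n ≤ b) := by
    intro n hn
    have hn1 : 1 ≤ n := (Finset.mem_Icc.1 hn).1
    have hnr : (0 : ℝ) < n := by exact_mod_cast hn1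
    have hnx : 0 < (n : ℝ) / X := by positivity
    rw [Set.mem_Ici, abs_mul, abs_of_pos hl0, mul_comm, ← le_div_iff₀ hl0, ← hy, abs_le,
      Real.le_log_iff_exp_le hnx, Real.log_le_iff_le_exp hnx, le_div_iff₀ hX0, div_le_iff₀ hX0,
      ha, hb, Nat.ceil_le, Nat.le_floor_iff (by positivity), mul_comm (Real.exp (-y)) X,
      mul_comm (Real.exp y) X]
  have hF : ∑ n ∈ Icc 1 N, gs n *
      (Set.Ici |lam * Real.log (n / X)|).indicator (fun _ => (1 : ℝ)) s =
      ∑ n ∈ Icc 1 b, gs n - ∑ n ∈ Icc 1 (a - 1), gs n := by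
    have h1 : ∑ n ∈ Icc 1 N, gs n *
        (Set.Ici |lam * Real.log (n / X)|).indicator (fun _ => (1 : ℝ)) s =
        ∑ n ∈ (Icc 1 N).filter (fun n => a ≤ n ∧ n ≤ b), gs n := by
      rw [Finset.sum_filter]
      apply Finset.sum_congr rfl
      intro n hn
      by_cases h : a ≤ n ∧ n ≤ b
      · rw [if_pos h, Set.indicator_of_mem ((hcond n hn).2 h), mul_one]
      · rw [if_neg h, Set.indicator_of_notMem (fun h' => h ((hcond n hn).1 h')), mul_zero]
    have h2 : (Icc 1 N).filter (fun n => a ≤ n ∧ n ≤ b) = Ioc (a - 1) b := by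
      ext n
      rw [Finset.mem_filter, Finset.mem_Icc, Finset.mem_Ioc]
      omega
    have h3 : Icc 1 b = Ioc 0 b := by
      ext n
      rw [Finset.mem_Icc, Finset.mem_Ioc]
      omega
    have h4 : Icc 1 (a - 1) = Ioc 0 (a - 1) := by
      ext n
      rw [Finset.mem_Icc, Finset.mem_Ioc]
      omega
    rw [h1, h2, h3, h4, eq_sub_iff_add_eq, add_comm,
      Finset.sum_Ioc_consecutive (fun n => gs n) (Nat.zero_le _) (by omega)]
  have hacast : ((a - 1 : ℕ) : ℝ) = a - 1 := by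
    rw [Nat.cast_sub (by omega)]
    simp
  have hKb := hK b (by linarith)
  have hKa := hK (a - 1) (by rw [hacast]; linarith)
  rw [hacast] at hKa
  have e1 : K * b ≤ K * (2.75 * X) := mul_le_mul_of_nonneg_left (by linarith) hK0
  have e2 : K * ((a : ℝ) - 1) ≤ K * (2.75 * X) := by
    apply mul_le_mul_of_nonneg_left _ hK0
    linarith
  have e3 : K * (2.75 * X) + K * (2.75 * X) ≤ 6 * K * X := by
    have : 0 ≤ K * X := by positivity
    nlinarith
  rw [hF]
  rw [abs_le] at hKa hKb ⊢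
  constructor <;> linarith [hKa.1, hKa.2, hKb.1, hKb.2]

private theorem gc_pn_F (X lam : ℝ) (hlam : 1 ≤ lam) :
    ∫ s in Set.Icc (0 : ℝ) 1, X * (Real.exp (s / lam) - Real.exp (-(s / lam))) =
      mu lam * X := by
  have hl0 : lam ≠ 0 := by linarith
  rw [MeasureTheory.integral_Icc_eq_integral_Ioc, ← intervalIntegral.integral_of_le zero_le_one]
  have h1 : ∀ s ∈ Set.uIcc (0 : ℝ) 1,
      HasDerivAt (fun s => X * (lam * (Real.exp (s / lam) + Real.exp (-(s / lam)))))
        (X * (Real.exp (s / lam) - Real.exp (-(s / lam)))) s := by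
    intro s _
    have h2 : HasDerivAt (fun s : ℝ => s / lam) (1 / lam) s := (hasDerivAt_id s).div_const lam
    have h3 := (h2.exp.add h2.neg.exp).const_mul lam
    have h4 := h3.const_mul X
    have h5 : X * (Real.exp (s / lam) - Real.exp (-(s / lam))) =
        X * (lam * (Real.exp (s / lam) * (1 / lam) + Real.exp (-(s / lam)) * -(1 / lam))) := by
      field_simp
      ring
    rw [h5]
    exact h4
  rw [intervalIntegral.integral_eq_sub_of_hasDerivAt h1
    (Continuous.intervalIntegrable (by fun_prop) _ _)]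
  unfold mu
  rw [Real.cosh_eq]
  simp
  ring

/-- the sum over a window -/
private theorem gc_pn_sum (gs : ℕ → ℝ) (X lam K : ℝ) (N : ℕ) (hlam : 1 ≤ lam) (hX : 12 ≤ X)
    (hN : N = ⌊3 * X⌋₊)
    (hK : ∀ M : ℕ, X / 4 ≤ M → |∑ n ∈ Icc 1 M, gs n - M| ≤ K * M)
    (hK0 : 0 ≤ K) :
    |∑ n ∈ Icc 1 N, gs n * tri (lam * Real.log (n / X)) - mu lam * X| ≤ 6 * K * X + 2 := by
  have h1 : ∑ n ∈ Icc 1 N, gs n * tri (lam * Real.log (n / X)) =
      ∫ s in Set.Icc (0 : ℝ) 1, ∑ n ∈ Icc 1 N, gs n *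
        (Set.Ici |lam * Real.log (n / X)|).indicator (fun _ => (1 : ℝ)) s := by
    rw [MeasureTheory.integral_finsetSum]
    · apply Finset.sum_congr rfl
      intro n _
      rw [gc_pn_tri, MeasureTheory.integral_const_mul]
    · intro n _
      exact (gc_pn_int _).const_mul _
  have hint1 : MeasureTheory.IntegrableOn (fun s => ∑ n ∈ Icc 1 N, gs n *
        (Set.Ici |lam * Real.log (n / X)|).indicator (fun _ => (1 : ℝ)) s)
        (Set.Icc (0 : ℝ) 1) := by
    apply MeasureTheory.integrable_finsetSum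
    intro n _
    exact (gc_pn_int _).const_mul _
  have hint2 : MeasureTheory.IntegrableOn
      (fun s : ℝ => X * (Real.exp (s / lam) - Real.exp (-(s / lam)))) (Set.Icc (0 : ℝ) 1) := by
    apply ContinuousOn.integrableOn_Icc
    fun_prop
  rw [h1, ← gc_pn_F X lam hlam, ← MeasureTheory.integral_sub hint1 hint2]
  have h3 := MeasureTheory.norm_setIntegral_le_of_norm_le_const (μ := MeasureTheory.volume)
    (s := Set.Icc (0 : ℝ) 1)
    (f := fun s => ∑ n ∈ Icc 1 N, gs n *
        (Set.Ici |lam * Real.log (n / X)|).indicator (fun _ => (1 : ℝ)) s -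
          X * (Real.exp (s / lam) - Real.exp (-(s / lam))))
    (C := 6 * K * X + 2) (by simp) (fun s hs => by
      rw [Real.norm_eq_abs]
      exact gc_pn_one gs X lam K s N hlam hX hN hK hK0 hs.1 hs.2)
  rw [Real.norm_eq_abs, Real.volume_real_Icc] at h3
  simpa using h3

theorem p_pn : S_pn := by
  intro hPNT _ A
  obtain ⟨C, hC⟩ := hPNT (A + 1)
  have hL : Tendsto Real.log atTop atTop := Real.tendsto_log_atTop
  have h1 : ∀ᶠ X : ℝ in atTop, 12 * |C| * 2 ^ (A + 1) ≤ Real.log X := hL.eventually_ge_atTop _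
  have h2 : ∀ᶠ X : ℝ in atTop, 2 ≤ Real.log X := hL.eventually_ge_atTop _
  have h4 : ∀ᶠ X : ℝ in atTop, 2 * Real.log 4 ≤ Real.log X := hL.eventually_ge_atTop _
  have h3 : ∀ᶠ X : ℝ in atTop, 4 * (Real.log X) ^ A ≤ X := by
    have h := (isLittleO_log_rpow_rpow_atTop (s := 1) (A : ℝ) (by norm_num)).def
      (c := 1 / 4) (by norm_num)
    filter_upwards [h, eventually_ge_atTop 1] with x hx hx1
    rw [Real.rpow_one, Real.rpow_natCast, Real.norm_of_nonneg (pow_nonneg (Real.log_nonneg hx1) _),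
      Real.norm_of_nonneg (by linarith)] at hx
    linarith
  filter_upwards [h1, h2, h3, h4, eventually_ge_atTop (12 : ℝ)] with X hX1 hX2 hX3 hX4 hX5
  intro lam hlam
  have hX0 : 0 < X := by linarith
  have hLp : 0 < Real.log X := by linarith
  have hC0 : 0 ≤ |C| := abs_nonneg C
  -- `K`
  have hlog : Real.log X / 2 ≤ Real.log (X / 4) := by
    rw [Real.log_div hX0.ne' (by norm_num)]
    linarith
  have hK : ∀ M : ℕ, X / 4 ≤ M → |∑ n ∈ Icc 1 M, vonMangoldt n - M| ≤
      |C| * 2 ^ (A + 1) / (Real.log X) ^ (A + 1) * M := by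
    intro M hM
    have hM0 : (0 : ℝ) < M := by linarith
    have hM2 : 2 ≤ M := by
      have : (2 : ℝ) ≤ M := by linarith
      exact_mod_cast this
    have hlM : Real.log X / 2 ≤ Real.log M :=
      hlog.trans (Real.log_le_log (by linarith) hM)
    have hlM0 : 0 < Real.log M := by linarith
    refine (hC M hM2).trans ?_
    have e1 : (Real.log X / 2) ^ (A + 1) ≤ (Real.log M) ^ (A + 1) :=
      pow_le_pow_left₀ (by positivity) hlM _
    calc C * M / (Real.log M) ^ (A + 1) ≤ |C| * M / (Real.log M) ^ (A + 1) := by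
          apply div_le_div_of_nonneg_right _ (by positivity)
          exact mul_le_mul_of_nonneg_right (le_abs_self C) hM0.le
      _ ≤ |C| * M / (Real.log X / 2) ^ (A + 1) :=
          div_le_div_of_nonneg_left (by positivity) (by positivity) e1
      _ = |C| * 2 ^ (A + 1) / (Real.log X) ^ (A + 1) * M := by
          rw [div_pow]
          field_simp
  have h := gc_pn_sum (fun n => vonMangoldt n) X lam
    (|C| * 2 ^ (A + 1) / (Real.log X) ^ (A + 1)) ⌊3 * X⌋₊ hlam hX5 rfl hK (by positivity)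
  have h5 : ∑ n ∈ Icc 1 ⌊3 * X⌋₊, vonMangoldt n * wd lam X n =
      ∑ n ∈ Icc 1 ⌊3 * X⌋₊, vonMangoldt n * tri (lam * Real.log (n / X)) := rfl
  rw [h5]
  refine h.trans ?_
  have hp : 0 < (Real.log X) ^ A := by positivity
  have e2 : 6 * (|C| * 2 ^ (A + 1) / (Real.log X) ^ (A + 1)) * X ≤ X / (Real.log X) ^ A / 2 := by
    have e3 : 6 * (|C| * 2 ^ (A + 1) / (Real.log X) ^ (A + 1)) * X =
        (12 * |C| * 2 ^ (A + 1)) / Real.log X * (X / (Real.log X) ^ A / 2) := by
      rw [pow_succ (Real.log X) A]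
      field_simp
      ring
    rw [e3]
    have e4 : (12 * |C| * 2 ^ (A + 1)) / Real.log X ≤ 1 := by
      rw [div_le_one hLp]
      exact hX1
    calc (12 * |C| * 2 ^ (A + 1)) / Real.log X * (X / (Real.log X) ^ A / 2)
        ≤ 1 * (X / (Real.log X) ^ A / 2) := mul_le_mul_of_nonneg_right e4 (by positivity)
      _ = X / (Real.log X) ^ A / 2 := one_mul _
  have e5 : 2 ≤ X / (Real.log X) ^ A / 2 := by
    rw [le_div_iff₀ (by norm_num), le_div_iff₀ hp]
    linarith
  linarith

end Pool.Agent.GC.M
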