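import Pool.Agent.Lib.MP_0da313_nt.GC.M

set_option autoImplicit false

/-!
Piece [GC sw]: small conductors.
-/

namespace Pool.Agent.GC.M

open Finset Filter
open ArithmeticFunction (vonMangoldt)
open Pool.Agent.MP89da58 (tri primChars kapD)
open Pool.Agent.CM (wd mu)
open Pool.Agent.CH.V (pz)

private theorem gc_sw_mono {a b : ℝ} (h : |b| ≤ |a|) : tri a ≤ tri b := by
  unfold tri
  exact max_le_max le_rfl (by linarith)

private theorem gc_sw_nonneg (a : ℝ) : 0 ≤ tri a := le_max_left _ _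

private theorem gc_sw_le_one (a : ℝ) : tri a ≤ 1 := by
  unfold tri
  exact max_le (by norm_num) (by linarith [abs_nonneg a])

private theorem gc_sw_up (c X : ℝ) (hc : 0 ≤ c) (n : ℕ) (hn : 1 ≤ n)
    (h : ((n + 1 : ℕ) : ℝ) ≤ X) :
    tri (c * Real.log ((n : ℝ) / X)) ≤ tri (c * Real.log (((n + 1 : ℕ) : ℝ) / X)) := by
  have h0 : (0 : ℝ) < (n : ℝ) := by exact_mod_cast hn
  have h1 : (n : ℝ) ≤ ((n + 1 : ℕ) : ℝ) := by
    exact_mod_cast (Nat.le_succ n)
  have hX : 0 < X := lt_of_lt_of_le (lt_of_lt_of_le h0 h1) h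
  have e1 : Real.log ((n : ℝ) / X) ≤ Real.log (((n + 1 : ℕ) : ℝ) / X) :=
    Real.log_le_log (div_pos h0 hX) (div_le_div_of_nonneg_right h1 hX.le)
  have e2 : Real.log (((n + 1 : ℕ) : ℝ) / X) ≤ 0 :=
    Real.log_nonpos (div_nonneg (h0.le.trans h1) hX.le) ((div_le_one hX).2 h)
  apply gc_sw_mono
  rw [abs_mul, abs_mul, abs_of_nonneg hc, abs_of_nonpos e2, abs_of_nonpos (e1.trans e2)]
  exact mul_le_mul_of_nonneg_left (by linarith) hc

private theorem gc_sw_down (c X : ℝ) (hc : 0 ≤ c) (hX : 0 < X) (n : ℕ)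
    (h : X < (n : ℝ)) :
    tri (c * Real.log (((n + 1 : ℕ) : ℝ) / X)) ≤ tri (c * Real.log ((n : ℝ) / X)) := by
  have h0 : (0 : ℝ) < (n : ℝ) := hX.trans h
  have h1 : (n : ℝ) ≤ ((n + 1 : ℕ) : ℝ) := by
    exact_mod_cast (Nat.le_succ n)
  have e1 : Real.log ((n : ℝ) / X) ≤ Real.log (((n + 1 : ℕ) : ℝ) / X) :=
    Real.log_le_log (div_pos h0 hX) (div_le_div_of_nonneg_right h1 hX.le)
  have e2 : 0 ≤ Real.log ((n : ℝ) / X) :=
    Real.log_nonneg ((one_le_div hX).2 h.le)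
  apply gc_sw_mono
  rw [abs_mul, abs_mul, abs_of_nonneg hc, abs_of_nonneg e2, abs_of_nonneg (e2.trans e1)]
  exact mul_le_mul_of_nonneg_left e1 hc

/-- the variation of the window -/
private theorem gc_sw_var (c X : ℝ) (hc : 0 ≤ c) (hX : 0 < X) (g : ℕ → ℝ)
    (hg : ∀ n : ℕ, g n = tri (c * Real.log ((n : ℝ) / X))) (N : ℕ) (hN : 1 ≤ N) :
    ((N : ℝ) ≤ X → ∑ n ∈ Ico 1 N, |g n - g (n + 1)| ≤ g N) ∧
      (X < (N : ℝ) → ∑ n ∈ Ico 1 N, |g n - g (n + 1)| + g N ≤ 3) := by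
  have g0 : ∀ n, 0 ≤ g n := fun n => by rw [hg]; exact gc_sw_nonneg _
  have g1 : ∀ n, g n ≤ 1 := fun n => by rw [hg]; exact gc_sw_le_one _
  induction N, hN using Nat.le_induction with
  | base =>
    rw [Ico_self, sum_empty]
    exact ⟨fun _ => g0 1, fun _ => by linarith [g1 1]⟩
  | succ N hN ih =>
    rw [sum_Ico_succ_top hN]
    have hle : (N : ℝ) ≤ ((N + 1 : ℕ) : ℝ) := by
      exact_mod_cast (Nat.le_succ N)
    refine ⟨fun h => ?_, fun h => ?_⟩
    · have hm : g N ≤ g (N + 1) := by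
        rw [hg, hg]
        exact gc_sw_up c X hc N hN h
      have := ih.1 (hle.trans h)
      rw [abs_of_nonpos (by linarith)]
      linarith
    · rcases le_or_gt (N : ℝ) X with h2 | h2
      · have h3 := ih.1 h2
        have h4 : |g N - g (N + 1)| ≤ 1 := by
          rw [abs_le]
          constructor
          · linarith [g0 N, g1 (N + 1)]
          · linarith [g1 N, g0 (N + 1)]
        linarith [g1 N, g1 (N + 1)]
      · have hm : g (N + 1) ≤ g N := by
          rw [hg, hg]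
          exact gc_sw_down c X hc hX N h2
        have := ih.2 h2
        rw [abs_of_nonneg (by linarith)]
        linarith

private theorem gc_sw_var' (c X : ℝ) (hc : 0 ≤ c) (hX : 0 < X) (g : ℕ → ℝ)
    (hg : ∀ n : ℕ, g n = tri (c * Real.log ((n : ℝ) / X))) (N : ℕ) (hN : 1 ≤ N) :
    ∑ n ∈ Ico 1 N, |g n - g (n + 1)| + g N ≤ 3 := by
  have h := gc_sw_var c X hc hX g hg N hN
  have g1 : g N ≤ 1 := by rw [hg]; exact gc_sw_le_one _
  rcases le_or_gt (N : ℝ) X with h2 | h2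
  · linarith [h.1 h2]
  · exact h.2 h2

/-- Abel summation -/
private theorem gc_sw_abel (x : ℕ → ℂ) (g : ℕ → ℝ) (N : ℕ) :
    ∑ n ∈ Icc 1 N, x n * (g n : ℂ) =
      (∑ m ∈ Icc 1 N, x m) * (g N : ℂ) +
        ∑ n ∈ range N, (∑ m ∈ Icc 1 n, x m) * ((g n - g (n + 1) : ℝ) : ℂ) := by
  induction N with
  | zero => simp
  | succ N ih =>
    rw [sum_Icc_succ_top (by omega), ih, sum_Icc_succ_top (by omega), sum_range_succ]
    push_cast
    ring

private theorem gc_sw_abel_le (x : ℕ → ℂ) (g : ℕ → ℝ) (r : ℝ) (N : ℕ) (hN : 1 ≤ N)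
    (hx : ∀ n, n ≤ N → ‖∑ m ∈ Icc 1 n, x m‖ ≤ r) :
    ‖∑ n ∈ Icc 1 N, x n * (g n : ℂ)‖ ≤
      r * (∑ n ∈ Ico 1 N, |g n - g (n + 1)| + |g N|) := by
  rw [gc_sw_abel]
  refine (norm_add_le _ _).trans ?_
  have h1 : ‖(∑ m ∈ Icc 1 N, x m) * (g N : ℂ)‖ ≤ r * |g N| := by
    rw [norm_mul, Complex.norm_real, Real.norm_eq_abs]
    exact mul_le_mul_of_nonneg_right (hx N le_rfl) (abs_nonneg _)
  have h2 : ‖∑ n ∈ range N, (∑ m ∈ Icc 1 n, x m) * ((g n - g (n + 1) : ℝ) : ℂ)‖ ≤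
      r * ∑ n ∈ Ico 1 N, |g n - g (n + 1)| := by
    rw [range_eq_Ico, sum_eq_sum_Ico_succ_bot (by omega), mul_sum]
    simp only [Icc_eq_empty_of_lt Nat.zero_lt_one, sum_empty, zero_mul, zero_add]
    refine (norm_sum_le _ _).trans (sum_le_sum fun n hn => ?_)
    rw [norm_mul, Complex.norm_real, Real.norm_eq_abs]
    exact mul_le_mul_of_nonneg_right (hx n (mem_Ico.1 hn).2.le) (abs_nonneg _)
  linarith

theorem p_sw : S_sw := by
  intro hP A B
  obtain ⟨C0, hC⟩ := hP (A + 1) (B + 1) 1 le_rfl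
  have h3 : Tendsto (fun X : ℝ => 3 * X) atTop atTop :=
    tendsto_id.const_mul_atTop (by norm_num)
  have hev := h3.eventually hC
  have hlog := Real.tendsto_log_atTop.eventually_ge_atTop (9 : ℝ)
  filter_upwards [hev, hlog, eventually_ge_atTop (27 : ℝ)] with X hX hL h27
  intro lam hlam r χ hr hrB hχ
  have hX0 : 0 < X := by linarith
  set N := ⌊3 * X⌋₊ with hNdef
  have hN : 1 ≤ N := by
    rw [hNdef]
    apply Nat.le_floor
    rw [Nat.cast_one]
    linarith
  have hNX : (N : ℝ) ≤ 3 * X := Nat.floor_le (by linarith)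
  have hlog3 : Real.log (3 * X) = Real.log 3 + Real.log X :=
    Real.log_mul (by norm_num) hX0.ne'
  have hlog3p : 0 ≤ Real.log 3 := Real.log_nonneg (by norm_num)
  have hL3 : Real.log X ≤ Real.log (3 * X) := by linarith
  let x : ℕ → ℂ := fun n => (vonMangoldt n : ℂ) * χ (n : ZMod r)
  -- the partial sums
  have hx : ∀ n, n ≤ N → ‖∑ m ∈ Icc 1 n, x m‖ ≤ 3 * X / Real.log (3 * X) ^ (A + 1) := by
    intro n hn
    have h1 : (r : ℝ) ≤ Real.log (3 * X) ^ (B + 1) := by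
      refine hrB.trans ?_
      calc Real.log X ^ B ≤ Real.log (3 * X) ^ B :=
            pow_le_pow_left₀ (by linarith) hL3 B
        _ = Real.log (3 * X) ^ B * 1 := (mul_one _).symm
        _ ≤ Real.log (3 * X) ^ B * Real.log (3 * X) :=
            mul_le_mul_of_nonneg_left (by linarith) (pow_nonneg (by linarith) _)
        _ = Real.log (3 * X) ^ (B + 1) := (pow_succ _ _).symm
    have h2 : |(0 : ℝ)| ≤ (3 * X) ^ (1 : ℝ) := by
      rw [abs_zero]
      positivity
    have h3 : (n : ℝ) ≤ 3 * X := le_trans (by exact_mod_cast hn) hNX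
    have h4 := hX r χ (by omega) h1 hχ 0 h2 (Or.inl hr) 0 n h3
    have h5 : ∑ m ∈ Icc 1 n, x m =
        ∑ m ∈ Ioc 0 n, (vonMangoldt m : ℂ) * χ (m : ZMod r) * pz (-0) m := by
      refine sum_congr (by ext m; simp [Nat.succ_le_iff]) fun m _ => ?_
      have e : pz (-0) m = 1 := by
        unfold pz
        simp
      rw [e, mul_one]
    rw [h5]
    exact h4
  have hab := gc_sw_abel_le x (fun n => wd lam X n) _ N hN hx
  have hvar := gc_sw_var' lam X (by linarith) hX0 (fun n => wd lam X n) (fun n => rfl) N hN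
  have habs : |wd lam X N| = wd lam X N := abs_of_nonneg (gc_sw_nonneg _)
  refine hab.trans ?_
  have hK : 3 * X / Real.log (3 * X) ^ (A + 1) ≤ 3 * X / Real.log X ^ (A + 1) := by
    apply div_le_div_of_nonneg_left (by linarith) (pow_pos (by linarith) _)
    exact pow_le_pow_left₀ (by linarith) hL3 _
  have hK1 : 0 ≤ 3 * X / Real.log (3 * X) ^ (A + 1) := by
    apply div_nonneg (by linarith) (pow_nonneg (by linarith) _)
  rw [habs]
  calc _ ≤ 3 * X / Real.log (3 * X) ^ (A + 1) * 3 :=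
        mul_le_mul_of_nonneg_left hvar hK1
    _ ≤ 3 * X / Real.log X ^ (A + 1) * 3 := by
        apply mul_le_mul_of_nonneg_right hK (by norm_num)
    _ = (9 / Real.log X) * (X / Real.log X ^ A) := by
        have hL0 : Real.log X ≠ 0 := by linarith
        field_simp
        ring
    _ ≤ 1 * (X / Real.log X ^ A) := by
        apply mul_le_mul_of_nonneg_right
        · rw [div_le_one (by linarith)]
          exact hL
        · exact div_nonneg hX0.le (pow_nonneg (by linarith) _)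
    _ = X / Real.log X ^ A := one_mul _

end Pool.Agent.GC.M
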