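import Pool.Agent.Lib.MP_0da313_nt.GC.E

set_option autoImplicit false

/-!
Project GC, [GC t1]: type I sums in a residue class.
-/

namespace Pool.Agent.GC.E

open Finset Filter
open Pool.Agent.SP80 (ex mn SW1 SW3)

theorem p_t1 : S_t1 := by
  intro hap hmin d a q M θ Y h u v hd ha hq hh hθ hY hM hv
  obtain ⟨hmin1, hmin2, hmin3⟩ := hmin
  have hd0 : (0 : ℝ) < d := by exact_mod_cast hd
  have hd1 : (1 : ℝ) ≤ d := by exact_mod_cast hd
  have hq0 : (0 : ℝ) < q := by exact_mod_cast hq
  have hq1 : (1 : ℝ) ≤ q := by exact_mod_cast hq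
  have hM0 : (1 : ℝ) ≤ M := by exact_mod_cast hM
  set Y' : ℝ := Y / (d : ℝ) ^ 2 + M / d with hY'
  have hY'0 : 0 ≤ Y' := by positivity
  have hterm : ∀ m ∈ Icc 1 M, ‖∑ l ∈ (Ioc (u m) (v m)).filter (fun l => m * l ≡ a [MOD d]),
      ex (θ * ((m * l : ℕ) : ℝ))‖ ≤ d * mn (Y' / m) (m * ((d : ℝ) ^ 2 * θ)) := by
    intro m hm
    obtain ⟨hm1, hm2⟩ := mem_Icc.1 hm
    have hm0 : (0 : ℝ) < m := by exact_mod_cast hm1
    have hmM : (m : ℝ) ≤ M := by exact_mod_cast hm2
    have hmn0 : 0 ≤ mn (Y' / m) (m * ((d : ℝ) ^ 2 * θ)) :=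
      (hmin2 (Y' / m) (Y' / m) _ (by positivity) le_rfl).1
    by_cases hne : ((Ioc (u m) (v m)).filter (fun l => m * l ≡ a [MOD d])).Nonempty
    · obtain ⟨l0, hl0⟩ := hne
      have hl0' := (mem_filter.1 hl0).2
      have hcop : Nat.Coprime d m := by
        have h1 : Nat.Coprime (m * l0) d := by
          have h2 := hl0'.gcd_eq
          unfold Nat.Coprime
          rw [h2]
          exact ha
        exact (Nat.Coprime.coprime_mul_right h1).symm
      have hset : (Ioc (u m) (v m)).filter (fun l => m * l ≡ a [MOD d]) =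
          (Ioc (u m) (v m)).filter (fun l => l ≡ l0 [MOD d]) := by
        apply Finset.filter_congr
        intro l _
        constructor
        · intro h1
          exact Nat.ModEq.cancel_left_of_coprime hcop (h1.trans hl0'.symm)
        · intro h1
          exact (h1.mul_left m).trans hl0'
      rw [hset]
      have hH0 : 0 ≤ Y / (m * d) + 1 := by positivity
      have hle : ((v m : ℝ) - u m) / d + 1 ≤ Y / (m * d) + 1 := by
        have h1 := hv m hm
        have h2 : (0 : ℝ) ≤ u m := Nat.cast_nonneg _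
        have h3 : ((v m : ℝ) - u m) / d ≤ (Y / m) / d := by
          apply div_le_div_of_nonneg_right _ hd0.le
          linarith
        rw [div_div] at h3
        linarith
      have h1 := hap d l0 (u m) (v m) (m * θ) (Y / (m * d) + 1) hd hH0 hle
      have h2 : ∑ l ∈ (Ioc (u m) (v m)).filter (fun l => l ≡ l0 [MOD d]),
          ex (θ * ((m * l : ℕ) : ℝ)) =
          ∑ l ∈ (Ioc (u m) (v m)).filter (fun l => l ≡ l0 [MOD d]), ex (m * θ * l) := by
        refine Finset.sum_congr rfl fun l _ => ?_
        congr 1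
        push_cast
        ring
      rw [h2]
      refine h1.trans ?_
      have h3 := hmin1 (Y / (m * d) + 1) (d * (m * θ)) d hH0 hd
      refine h3.trans ?_
      apply mul_le_mul_of_nonneg_left _ hd0.le
      have h4 : (d : ℝ) * (d * (m * θ)) = m * ((d : ℝ) ^ 2 * θ) := by ring
      rw [h4]
      apply (hmin2 _ _ _ (by positivity) _).2
      rw [hY', add_div, add_div]
      apply add_le_add
      · apply le_of_eq
        rw [div_div, div_div]
        congr 1
        ring
      · rw [div_div, div_le_div_iff₀ hd0 (by positivity)]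
        nlinarith
    · rw [Finset.not_nonempty_iff_eq_empty.1 hne, Finset.sum_empty, norm_zero]
      positivity
  refine (Finset.sum_le_sum hterm).trans ?_
  rw [← Finset.mul_sum]
  have h5 := hmin3 ((d : ℝ) ^ 2 * θ) h q M Y' hq hh hθ hY'0 hM
  have hlog : 0 ≤ (1 + Real.log q) * (1 + Real.log M) := by
    have e1 := Real.log_nonneg hq1
    have e2 := Real.log_nonneg hM0
    positivity
  have h6 : (d : ℝ) * (Y' / q + M + q) ≤ 2 * (Y / (d * q) + d * M + d * q) := by
    have e1 : (d : ℝ) * (Y' / q + M + q) = Y / (d * q) + M / q + d * M + d * q := by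
      rw [hY']
      field_simp
    have e2 : (M : ℝ) / q ≤ d * M := by
      rw [div_le_iff₀ hq0]
      have : (1 : ℝ) ≤ d * q := by nlinarith
      nlinarith
    have e3 : 0 ≤ Y / (d * q) := by positivity
    have e4 : 0 ≤ (d : ℝ) * q := by positivity
    rw [e1]
    linarith
  calc (d : ℝ) * ∑ m ∈ Icc 1 M, mn (Y' / m) (m * ((d : ℝ) ^ 2 * θ))
      ≤ d * (100 * (Y' / q + M + q) * (1 + Real.log q) * (1 + Real.log M)) :=
        mul_le_mul_of_nonneg_left h5 hd0.le
    _ = 100 * (d * (Y' / q + M + q)) * ((1 + Real.log q) * (1 + Real.log M)) := by ring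
    _ ≤ 100 * (2 * (Y / (d * q) + d * M + d * q)) * ((1 + Real.log q) * (1 + Real.log M)) := by
        apply mul_le_mul_of_nonneg_right _ hlog
        linarith
    _ = _ := by ring

end Pool.Agent.GC.E
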