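import Pool.Agent.Lib.MP_0da313_nt.GC.M
import Pool.Agent.Lib.MP_0da313_nt.MT.Mertens

set_option autoImplicit false

/-!
Project GC, section M, piece tl: truncation errors of the sieve.
-/

namespace Pool.Agent.GC.M

open Finset Filter
open Pool.Agent.MP89da58 (kapD)
open Pool.Agent.Lib.MP_0da313_nt (W U E)

private theorem gc_tl_UW (ρ : ℕ → ℝ) (B : Finset ℕ) : ∀ b : ℕ, B.card ≤ b → U ρ B b = W ρ B := by
  induction B using Finset.induction_on with
  | empty =>
    intro b _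
    unfold U
    rw [Finset.sum_range_succ']
    simp [Lib.MP_0da313_nt.E_empty_succ, Lib.MP_0da313_nt.E_zero, W]
  | insert p B hp ih =>
    intro b hb
    rw [card_insert_of_notMem hp] at hb
    obtain ⟨b', rfl⟩ : ∃ b', b = b' + 1 := ⟨b - 1, by omega⟩
    rw [Lib.MP_0da313_nt.U_insert ρ hp, ih _ (by omega), ih _ (by omega)]
    unfold W
    rw [prod_insert hp]
    ring

private theorem gc_tl_tail (ρ : ℕ → ℝ) (B : Finset ℕ) (h0 : ∀ p ∈ B, 0 ≤ ρ p) (j : ℕ) :
    |U ρ B j - W ρ B| ≤ Real.exp (-2 * j) * Real.exp (Real.exp 2 * ∑ p ∈ B, ρ p) := by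
  set y := ∑ p ∈ B, ρ p with hy
  have hy0 : 0 ≤ y := sum_nonneg h0
  set N := max j B.card with hN
  have h1 : U ρ B N - U ρ B j = ∑ i ∈ Ico (j + 1) (N + 1), (-1) ^ i * E ρ B i := by
    rw [sum_Ico_eq_sub _ (by omega)]
    rfl
  have h2 : |U ρ B j - W ρ B| = |∑ i ∈ Ico (j + 1) (N + 1), (-1) ^ i * E ρ B i| := by
    rw [← h1, gc_tl_UW ρ B N (le_max_right _ _), abs_sub_comm]
  rw [h2]
  have h3 : ∀ i ∈ Ico (j + 1) (N + 1), |(-1 : ℝ) ^ i * E ρ B i| ≤
      Real.exp (-2 * j) * ((Real.exp 2 * y) ^ i / (i.factorial : ℝ)) := by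
    intro i hi
    rw [mem_Ico] at hi
    have e1 : |(-1 : ℝ) ^ i * E ρ B i| = E ρ B i := by
      rw [abs_mul, abs_pow, abs_neg, abs_one, one_pow, one_mul,
        abs_of_nonneg (Lib.MP_0da313_nt.E_nonneg h0 i)]
    have e2 := Lib.MP_0da313_nt.E_le ρ B h0 i
    have hf : (0 : ℝ) < (i.factorial : ℝ) := by exact_mod_cast i.factorial_pos
    have e3 : E ρ B i ≤ y ^ i / (i.factorial : ℝ) := by
      rw [le_div_iff₀ hf]
      linarith
    have e4 : (1 : ℝ) ≤ Real.exp (-2 * j) * Real.exp 2 ^ i := by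
      rw [← Real.exp_nat_mul, ← Real.exp_add]
      apply Real.one_le_exp
      have : (j : ℝ) + 1 ≤ i := by exact_mod_cast hi.1
      linarith
    rw [e1, mul_pow]
    have e5 : Real.exp (-2 * j) * (Real.exp 2 ^ i * y ^ i / (i.factorial : ℝ)) =
        (Real.exp (-2 * j) * Real.exp 2 ^ i) * (y ^ i / (i.factorial : ℝ)) := by ring
    rw [e5]
    have e6 : 0 ≤ y ^ i / (i.factorial : ℝ) := by positivity
    nlinarith
  have hx0 : 0 ≤ Real.exp 2 * y := by positivity
  calc |∑ i ∈ Ico (j + 1) (N + 1), (-1) ^ i * E ρ B i|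
      ≤ ∑ i ∈ Ico (j + 1) (N + 1), |(-1) ^ i * E ρ B i| := abs_sum_le_sum_abs _ _
    _ ≤ ∑ i ∈ Ico (j + 1) (N + 1),
        Real.exp (-2 * j) * ((Real.exp 2 * y) ^ i / (i.factorial : ℝ)) := sum_le_sum h3
    _ ≤ ∑ i ∈ range (N + 1),
        Real.exp (-2 * j) * ((Real.exp 2 * y) ^ i / (i.factorial : ℝ)) := by
      refine sum_le_sum_of_subset_of_nonneg ?_ fun i _ _ => by positivity
      intro i hi
      rw [mem_Ico] at hi
      rw [mem_range]
      exact hi.2
    _ = Real.exp (-2 * j) * ∑ i ∈ range (N + 1), ((Real.exp 2 * y) ^ i / (i.factorial : ℝ)) :=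
      (mul_sum _ _ _).symm
    _ ≤ Real.exp (-2 * j) * Real.exp (Real.exp 2 * y) :=
      mul_le_mul_of_nonneg_left (Real.sum_le_exp_of_nonneg hx0 _) (Real.exp_pos _).le

private theorem gc_tl_mem {w p : ℕ} (hp : p ∈ prs w) : 2 ≤ p ∧ p ≤ w := by
  rw [prs, mem_filter, mem_Icc] at hp
  exact ⟨hp.2.two_le, hp.1.2⟩

private theorem gc_tl_s (w : ℕ) : Real.exp (∑ p ∈ prs w, 1 / (p : ℝ)) ≤ (kapD w)⁻¹ := by
  rw [Real.exp_sum]
  unfold kapD
  rw [← prod_inv_distrib]
  refine prod_le_prod (fun p _ => (Real.exp_pos _).le) fun p hp => ?_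
  have h1 := (gc_tl_mem hp).1
  have h2 : (2 : ℝ) ≤ p := by exact_mod_cast h1
  have h3 : 1 / (p : ℝ) ≤ 1 / 2 := one_div_le_one_div_of_le (by norm_num) h2
  have h4 : 0 < 1 - 1 / (p : ℝ) := by linarith
  rw [← one_div, le_div_iff₀ h4]
  have h5 := Real.add_one_le_exp (-(1 / (p : ℝ)))
  have h6 : Real.exp (1 / (p : ℝ)) * Real.exp (-(1 / (p : ℝ))) = 1 := by
    rw [← Real.exp_add]
    simp
  have h7 := Real.exp_pos (1 / (p : ℝ))
  nlinarith

private theorem gc_tl_card (P : Finset ℕ) (k : ℕ) :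
    ((P.powerset.filter (fun S => S.card ≤ k)).card : ℝ) ≤ (1 + (P.card : ℝ)) ^ k := by
  have h1 : P.powerset.filter (fun S => S.card ≤ k) ⊆
      (range (k + 1)).biUnion fun i => P.powersetCard i := by
    intro S hS
    rw [mem_filter, mem_powerset] at hS
    rw [mem_biUnion]
    exact ⟨S.card, mem_range.2 (by omega), mem_powersetCard.2 ⟨hS.1, rfl⟩⟩
  have h2 := (card_le_card h1).trans card_biUnion_le
  have h3 : ((∑ i ∈ range (k + 1), (P.powersetCard i).card : ℕ) : ℝ) =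
      ∑ i ∈ range (k + 1), E (fun _ => 1) P i := by
    push_cast
    refine sum_congr rfl fun i _ => ?_
    unfold E
    simp
  have h4 := Lib.MP_0da313_nt.sum_E_le (fun _ => 1) P (fun _ _ => zero_le_one) k
  have h5 : ((P.powerset.filter (fun S => S.card ≤ k)).card : ℝ) ≤
      ((∑ i ∈ range (k + 1), (P.powersetCard i).card : ℕ) : ℝ) := by exact_mod_cast h2
  rw [h3] at h5
  refine h5.trans (h4.trans_eq ?_)
  simp

theorem p_tl : S_tl := by
  intro c hc
  refine ⟨32 * c, ?_⟩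
  have hcr : (1 : ℝ) ≤ c := by exact_mod_cast hc
  filter_upwards [eventually_ge_atTop (1 : ℝ),
    Real.tendsto_log_atTop.eventually_ge_atTop ((1000 : ℝ) ^ c)] with X hX1 hX2 w k hPm
  set L := Real.log X with hL
  have h1000 : (1000 : ℝ) ≤ (1000 : ℝ) ^ c := by
    calc (1000 : ℝ) = (1000 : ℝ) ^ 1 := (pow_one _).symm
      _ ≤ (1000 : ℝ) ^ c := pow_le_pow_right₀ (by norm_num) hc
  have hL1 : (1000 : ℝ) ≤ L := h1000.trans hX2
  have hL0 : 0 < L := by linarith
  -- bounds for `w`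
  have hwL : L ≤ w := by
    refine le_trans ?_ hPm.w_ge
    calc L = L ^ 1 := (pow_one _).symm
      _ ≤ L ^ (32 * c) := pow_le_pow_right₀ (by linarith) (by omega)
  have hw1 : (1000 : ℝ) ≤ w := hL1.trans hwL
  have hw2 : 2 ≤ w := by
    have : (2 : ℝ) ≤ w := by linarith
    exact_mod_cast this
  have hwX : (w : ℝ) ≤ X ^ (1 / 50 : ℝ) := by
    refine le_trans ?_ hPm.wk
    calc (w : ℝ) = (w : ℝ) ^ 1 := (pow_one _).symm
      _ ≤ (w : ℝ) ^ (k + 1) := pow_le_pow_right₀ (by linarith) (by omega)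
  have hlw : Real.log w ≤ L := by
    have h1 := Real.log_le_log (by linarith) hwX
    rw [Real.log_rpow (by linarith)] at h1
    linarith
  have hkap : (kapD w)⁻¹ ≤ 1000 * L := by
    have h1 := MT.mertens w hw2
    have h2 := MT.kapD_pos w
    rw [← one_div, div_le_iff₀ h2]
    have h3 : kapD w * Real.log w ≤ kapD w * L := mul_le_mul_of_nonneg_left hlw h2.le
    linarith
  set s := ∑ p ∈ prs w, 1 / (p : ℝ) with hs
  have hs0 : 0 ≤ s := sum_nonneg fun p _ => by positivity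
  have hes : Real.exp s ≤ 1000 * L := (gc_tl_s w).trans hkap
  have hlL : 0 < Real.log L := Real.log_pos (by linarith)
  have hs1 : s ≤ 2 * Real.log L := by
    have h1 : s ≤ Real.log (1000 * L) := by
      rw [← Real.log_exp s]
      exact Real.log_le_log (Real.exp_pos _) hes
    rw [Real.log_mul (by norm_num) (by linarith)] at h1
    have h2 := Real.log_le_log (by norm_num : (0 : ℝ) < 1000) hL1
    linarith
  refine ⟨?_, ?_, hkap, ?_⟩
  · intro ρ P j hP hρ hj
    have h0 : ∀ p ∈ P, 0 ≤ ρ p := fun p hp => (hρ p hp).1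
    refine (gc_tl_tail ρ P h0 j).trans ?_
    rw [← Real.exp_add]
    apply Real.exp_le_exp.2
    have h1 : ∑ p ∈ P, ρ p ≤ c * s := by
      calc ∑ p ∈ P, ρ p ≤ ∑ p ∈ P, (c : ℝ) * (1 / (p : ℝ)) := by
            refine sum_le_sum fun p hp => ?_
            have := (hρ p hp).2
            rwa [mul_one_div]
        _ ≤ ∑ p ∈ prs w, (c : ℝ) * (1 / (p : ℝ)) :=
            sum_le_sum_of_subset_of_nonneg hP fun p _ _ => by positivity
        _ = c * s := by rw [hs, mul_sum]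
    have h2 : Real.exp 2 ≤ 8 := by
      have h3 := Real.exp_one_lt_d9
      have h4 : Real.exp 2 = Real.exp 1 * Real.exp 1 := by
        rw [← Real.exp_add]
        norm_num
      have h5 := Real.exp_pos 1
      rw [h4]
      nlinarith
    have h3 : 0 ≤ ∑ p ∈ P, ρ p := sum_nonneg h0
    have h4 : Real.exp 2 * ∑ p ∈ P, ρ p ≤ 8 * (c * (2 * Real.log L)) := by
      have h5 : c * s ≤ c * (2 * Real.log L) := mul_le_mul_of_nonneg_left hs1 (by linarith)
      have h6 := Real.exp_pos 2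
      nlinarith
    have h5 := hPm.k_ge
    push_cast at h5
    linarith
  · calc ∏ p ∈ prs w, (1 + (c : ℝ) / p) ≤ ∏ p ∈ prs w, Real.exp (c * (1 / (p : ℝ))) := by
          refine prod_le_prod (fun p _ => by positivity) fun p _ => ?_
          rw [mul_one_div, add_comm]
          exact Real.add_one_le_exp _
      _ = Real.exp s ^ c := by
          rw [← Real.exp_sum, ← mul_sum, Real.exp_nat_mul]
      _ ≤ (1000 * L) ^ c := pow_le_pow_left₀ (Real.exp_pos _).le hes c
      _ = 1000 ^ c * L ^ c := mul_pow _ _ _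
      _ ≤ L * L ^ c := mul_le_mul_of_nonneg_right hX2 (by positivity)
      _ = L ^ (c + 1) := by ring
  · intro P hP
    refine (gc_tl_card P k).trans ?_
    have h1 : P.card + 1 ≤ w := by
      have h2 : P ⊆ Icc 2 w := fun p hp => mem_Icc.2 (gc_tl_mem (hP hp))
      have h3 := card_le_card h2
      rw [Nat.card_Icc] at h3
      omega
    have h2 : 1 + (P.card : ℝ) ≤ w := by
      have : ((P.card + 1 : ℕ) : ℝ) ≤ w := by exact_mod_cast h1
      push_cast at this
      linarith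
    calc (1 + (P.card : ℝ)) ^ k ≤ (w : ℝ) ^ k := pow_le_pow_left₀ (by positivity) h2 k
      _ ≤ (w : ℝ) ^ (k + 1) := pow_le_pow_right₀ (by linarith) (by omega)
      _ ≤ X ^ (1 / 50 : ℝ) := hPm.wk
      _ ≤ X ^ (1 / 25 : ℝ) := Real.rpow_le_rpow_of_exponent_le hX1 (by norm_num)

end Pool.Agent.GC.M
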