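import Pool.Agent.Lib.MP_0da313_nt.GC.M
import Pool.Agent.Lib.MP_0da313_nt.MT.Mertens

set_option autoImplicit false

/-!
Project GC, piece [GC tr]: the trivial bound.
-/

namespace Pool.Agent.GC.M

open Finset Filter
open Pool.Agent.MP89da58 (kapD)
open Pool.Agent.CH (thP)

/-- The number of the `t ≤ N` in a class modulo `d` and divisible by `m`. -/
private lemma gc_tr_count (N d a m : ℕ) (hd : 1 ≤ d) (hm : 1 ≤ m) (hc : m.Coprime d) :
    (((Icc 1 N).filter (fun t => t ≡ a [MOD d])).filter (fun t => m ∣ t)).card ≤ N / (m * d) + 1 := by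
  have hmd : 0 < m * d := Nat.mul_pos hm hd
  have h := Finset.card_le_card_of_injOn (s := ((Icc 1 N).filter (fun t => t ≡ a [MOD d])).filter (fun t => m ∣ t))
    (t := range (N / (m * d) + 1)) (fun t => t / (m * d)) ?_ ?_
  · rwa [Finset.card_range] at h
  · intro t ht
    simp only [Finset.coe_filter, Finset.mem_filter, Finset.mem_Icc, Set.mem_ofPred_eq] at ht
    simp only [Finset.coe_range, Set.mem_Iio]
    exact Nat.lt_succ_of_le (Nat.div_le_div_right ht.1.1.2)
  · intro t ht s hs hts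
    simp only [Finset.coe_filter, Finset.mem_filter, Finset.mem_Icc, Set.mem_ofPred_eq] at ht hs
    simp only at hts
    have h1 : t ≡ s [MOD d] := ht.1.2.trans hs.1.2.symm
    have h2 : t ≡ s [MOD m] := by
      have e1 : t ≡ 0 [MOD m] := (Nat.modEq_zero_iff_dvd).2 ht.2
      have e2 : s ≡ 0 [MOD m] := (Nat.modEq_zero_iff_dvd).2 hs.2
      exact e1.trans e2.symm
    have h3 : t ≡ s [MOD m * d] := (Nat.modEq_and_modEq_iff_modEq_mul hc).1 ⟨h2, h1⟩
    have h4 : t % (m * d) = s % (m * d) := h3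
    rw [← Nat.div_add_mod t (m * d), ← Nat.div_add_mod s (m * d), h4, hts]

/-- The product of the indicators. -/
private lemma gc_tr_prod (t : ℕ) (S : Finset ℕ) (hS : ∀ p ∈ S, p.Prime) :
    ∏ p ∈ S, dv t p = if (∏ p ∈ S, p) ∣ t then 1 else 0 := by
  split_ifs with h
  · refine Finset.prod_eq_one fun p hp => ?_
    unfold dv
    rw [if_pos ((Finset.dvd_prod_of_mem _ hp).trans h)]
  · by_contra hne
    apply h
    refine Finset.prod_primes_dvd t (fun p hp => (hS p hp).prime) fun p hp => ?_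
    by_contra hpt
    apply hne
    refine Finset.prod_eq_zero hp ?_
    unfold dv
    rw [if_neg hpt]

/-- The bound for the sum of one product. -/
private lemma gc_tr_one (Y V : ℝ) (N d a w k : ℕ) (hd : 1 ≤ d) (hc : a.Coprime d) (hN : (N : ℝ) ≤ Y) (hw : 1 ≤ w)
    (hV : (w : ℝ) ^ k ≤ V) (S : Finset ℕ) (hS : S ⊆ prs w) (hk : S.card ≤ k) :
    ∑ t ∈ (Icc 1 N).filter (fun t => t ≡ a [MOD d]), ∏ p ∈ S, dv t p ≤
      (Y / d + V) * ∏ p ∈ S, (p : ℝ)⁻¹ := by
  have hpr : ∀ p ∈ S, p.Prime := fun p hp => (Finset.mem_filter.1 (hS hp)).2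
  have hle : ∀ p ∈ S, p ≤ w := fun p hp => (Finset.mem_Icc.1 (Finset.mem_filter.1 (hS hp)).1).2
  set m : ℕ := ∏ p ∈ S, p with hmdef
  have hm : 1 ≤ m := Nat.one_le_iff_ne_zero.2 (Finset.prod_ne_zero_iff.2 fun p hp => (hpr p hp).ne_zero)
  have hmr : (0 : ℝ) < m := by exact_mod_cast hm
  have hdr : (0 : ℝ) < d := by exact_mod_cast hd
  have hY : 0 ≤ Y := le_trans (Nat.cast_nonneg _) hN
  have hinv : ∏ p ∈ S, (p : ℝ)⁻¹ = (m : ℝ)⁻¹ := by
    rw [hmdef, Finset.prod_inv_distrib]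
    push_cast
    rfl
  have hmV : (m : ℝ) ≤ V := by
    have h1 : (m : ℝ) ≤ (w : ℝ) ^ S.card := by
      rw [hmdef]
      push_cast
      rw [← Finset.prod_const]
      refine Finset.prod_le_prod (fun p _ => Nat.cast_nonneg p) fun p hp => ?_
      exact_mod_cast hle p hp
    refine h1.trans (le_trans ?_ hV)
    exact pow_le_pow_right₀ (by exact_mod_cast hw) hk
  have hsum : ∑ t ∈ (Icc 1 N).filter (fun t => t ≡ a [MOD d]), ∏ p ∈ S, dv t p =
      ((((Icc 1 N).filter (fun t => t ≡ a [MOD d])).filter (fun t => m ∣ t)).card : ℝ) := by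
    rw [Finset.card_filter]
    push_cast
    exact Finset.sum_congr rfl fun t _ => gc_tr_prod t S hpr
  rw [hsum, hinv]
  by_cases hcop : m.Coprime d
  · have h1 := gc_tr_count N d a m hd hm hcop
    have h2 : ((((Icc 1 N).filter (fun t => t ≡ a [MOD d])).filter (fun t => m ∣ t)).card : ℝ) ≤
        Y / (m * d) + 1 := by
      have h3 : ((N / (m * d) : ℕ) : ℝ) ≤ (N : ℝ) / ((m * d : ℕ) : ℝ) := Nat.cast_div_le
      have h4 : (N : ℝ) / ((m * d : ℕ) : ℝ) ≤ Y / (m * d) := by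
        push_cast
        exact div_le_div_of_nonneg_right hN (by positivity)
      have h5 : ((((Icc 1 N).filter (fun t => t ≡ a [MOD d])).filter (fun t => m ∣ t)).card : ℝ) ≤
        ((N / (m * d) : ℕ) : ℝ) + 1 := by exact_mod_cast h1
      linarith
    refine h2.trans ?_
    have h6 : (Y / d + V) * (m : ℝ)⁻¹ = Y / (m * d) + V / m := by
      field_simp
    rw [h6]
    have h7 : 1 ≤ V / m := by
      rw [one_le_div hmr]
      exact hmV
    linarith
  · have h0 : (((Icc 1 N).filter (fun t => t ≡ a [MOD d])).filter (fun t => m ∣ t)) = ∅ := by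
      apply Finset.filter_eq_empty_iff.2
      intro t ht hmt
      have ht' := (Finset.mem_filter.1 ht).2
      apply hcop
      have h1 : t.Coprime d := by
        have h2 : Nat.gcd t d = Nat.gcd a d := ht'.gcd_eq
        rw [Nat.Coprime, h2]
        exact hc
      exact Nat.Coprime.coprime_dvd_left hmt h1
    rw [h0, Finset.card_empty]
    push_cast
    have : 0 ≤ V := le_trans (by positivity) hV
    positivity

/-- The bound for the sum of the absolute values of the model. -/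
private lemma gc_tr_HH (Y V : ℝ) (N d a w k : ℕ) (hd : 1 ≤ d) (hc : a.Coprime d) (hN : (N : ℝ) ≤ Y) (hw : 1 ≤ w)
    (hV : (w : ℝ) ^ k ≤ V) :
    ∑ t ∈ (Icc 1 N).filter (fun t => t ≡ a [MOD d]), |HH w k t| ≤
      (kapD w)⁻¹ * (kapD w)⁻¹ * (Y / d + V) := by
  have hκ := Pool.Agent.MT.kapD_pos w
  have hdr : (0 : ℝ) < d := by exact_mod_cast hd
  have hY : 0 ≤ Y := le_trans (Nat.cast_nonneg _) hN
  have hV0 : 0 ≤ V := le_trans (by positivity) hV
  have hdv : ∀ t p, 0 ≤ dv t p := by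
    intro t p
    unfold dv
    split_ifs <;> norm_num
  have hU : ∀ t, |HH w k t| ≤ (kapD w)⁻¹ * ∑ S ∈ (prs w).powerset.filter (fun S => S.card ≤ k),
      ∏ p ∈ S, dv t p := by
    intro t
    unfold HH
    rw [abs_mul, abs_of_pos (inv_pos.2 hκ)]
    refine mul_le_mul_of_nonneg_left ?_ (inv_pos.2 hκ).le
    unfold Pool.Agent.Lib.MP_0da313_nt.U
    refine (Finset.abs_sum_le_sum_abs _ _).trans ?_
    have e1 : ∀ i ∈ range (k + 1), |(-1 : ℝ) ^ i * Pool.Agent.Lib.MP_0da313_nt.E (dv t) (prs w) i| =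
        ∑ S ∈ ((prs w).powerset.filter (fun S => S.card ≤ k)).filter (fun S => S.card = i), ∏ p ∈ S, dv t p := by
      intro i hi
      rw [abs_mul, abs_pow, abs_neg, abs_one, one_pow, one_mul]
      unfold Pool.Agent.Lib.MP_0da313_nt.E
      rw [abs_of_nonneg (Finset.sum_nonneg fun S _ => Finset.prod_nonneg fun p _ => hdv t p)]
      refine Finset.sum_congr ?_ fun _ _ => rfl
      ext S
      have := Finset.mem_range.1 hi
      simp only [Finset.mem_powersetCard, Finset.mem_filter, Finset.mem_powerset]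
      constructor
      · rintro ⟨h1, h2⟩
        exact ⟨⟨h1, by omega⟩, h2⟩
      · rintro ⟨⟨h1, _⟩, h3⟩
        exact ⟨h1, h3⟩
    rw [Finset.sum_congr rfl e1]
    rw [Finset.sum_fiberwise_of_maps_to]
    intro S hS
    rw [Finset.mem_filter] at hS
    exact Finset.mem_range.2 (by omega)
  calc ∑ t ∈ (Icc 1 N).filter (fun t => t ≡ a [MOD d]), |HH w k t|
      ≤ ∑ t ∈ (Icc 1 N).filter (fun t => t ≡ a [MOD d]),
        (kapD w)⁻¹ * ∑ S ∈ (prs w).powerset.filter (fun S => S.card ≤ k), ∏ p ∈ S, dv t p :=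
        Finset.sum_le_sum fun t _ => hU t
    _ = (kapD w)⁻¹ * ∑ S ∈ (prs w).powerset.filter (fun S => S.card ≤ k),
        ∑ t ∈ (Icc 1 N).filter (fun t => t ≡ a [MOD d]), ∏ p ∈ S, dv t p := by
        rw [← Finset.mul_sum, Finset.sum_comm]
    _ ≤ (kapD w)⁻¹ * ∑ S ∈ (prs w).powerset.filter (fun S => S.card ≤ k),
        (Y / d + V) * ∏ p ∈ S, (p : ℝ)⁻¹ := by
        refine mul_le_mul_of_nonneg_left (Finset.sum_le_sum fun S hS => ?_) (inv_pos.2 hκ).le
        rw [Finset.mem_filter, Finset.mem_powerset] at hS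
        exact gc_tr_one Y V N d a w k hd hc hN hw hV S hS.1 hS.2
    _ ≤ (kapD w)⁻¹ * ((Y / d + V) * ∑ S ∈ (prs w).powerset, ∏ p ∈ S, (p : ℝ)⁻¹) := by
        rw [← Finset.mul_sum]
        refine mul_le_mul_of_nonneg_left (mul_le_mul_of_nonneg_left ?_ (by positivity)) (inv_pos.2 hκ).le
        refine Finset.sum_le_sum_of_subset_of_nonneg (Finset.filter_subset _ _) fun S _ _ => ?_
        exact Finset.prod_nonneg fun p _ => by positivity
    _ ≤ (kapD w)⁻¹ * ((Y / d + V) * (kapD w)⁻¹) := by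
        refine mul_le_mul_of_nonneg_left (mul_le_mul_of_nonneg_left ?_ (by positivity)) (inv_pos.2 hκ).le
        rw [← Finset.prod_one_add, Pool.Agent.MT.kapD_inv]
        unfold prs
        refine Finset.prod_le_prod (fun p _ => by positivity) fun p hp => ?_
        have hp2 : (2 : ℝ) ≤ p := by exact_mod_cast (Finset.mem_filter.1 hp).2.two_le
        have hpi : (p : ℝ)⁻¹ ≤ 1 / 2 := by
          rw [← one_div]
          exact one_div_le_one_div_of_le (by norm_num) hp2
        have h0 : 0 < 1 - (p : ℝ)⁻¹ := by linarith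
        rw [le_inv_comm₀ (by positivity) h0, ← sub_nonneg]
        have h1 : 0 < 1 + (p : ℝ)⁻¹ := by positivity
        have h2 : (1 + (p : ℝ)⁻¹)⁻¹ = 1 / (1 + (p : ℝ)⁻¹) := by rw [one_div]
        rw [h2, sub_nonneg, le_div_iff₀ h1]
        nlinarith [sq_nonneg ((p : ℝ)⁻¹)]
    _ = (kapD w)⁻¹ * (kapD w)⁻¹ * (Y / d + V) := by ring

theorem p_tr : S_tr := by
  unfold S_tr R_tr
  have hlog : Tendsto (fun X : ℝ => Real.log X) atTop atTop := Real.tendsto_log_atTop
  filter_upwards [eventually_ge_atTop (2 : ℝ), hlog.eventually_ge_atTop (10000 : ℝ)] with X hX hL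
  intro w k hP d a hd hdX hc
  have hX0 : 0 < X := by linarith
  have hX1 : 1 ≤ X := by linarith
  set L := Real.log X with hLdef
  have hw1 : L ≤ w := by
    have := hP.w_ge
    rwa [pow_one] at this
  have hw2 : 2 ≤ w := by
    have : (2 : ℝ) ≤ w := by linarith
    exact_mod_cast this
  have hwr : (1 : ℝ) ≤ w := by linarith
  have hwk : (w : ℝ) ^ k ≤ X ^ (1 / 100 : ℝ) :=
    (pow_le_pow_right₀ hwr (Nat.le_succ k)).trans hP.wk
  have hwX : (w : ℝ) ≤ X := by
    have h1 : (w : ℝ) ≤ (w : ℝ) ^ (k + 1) := by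
      calc (w : ℝ) = (w : ℝ) ^ 1 := (pow_one _).symm
        _ ≤ (w : ℝ) ^ (k + 1) := pow_le_pow_right₀ hwr (by omega)
    refine (h1.trans hP.wk).trans ?_
    calc X ^ (1 / 100 : ℝ) ≤ X ^ (1 : ℝ) := Real.rpow_le_rpow_of_exponent_le hX1 (by norm_num)
      _ = X := Real.rpow_one X
  have hdr : (1 : ℝ) ≤ d := by exact_mod_cast hd
  have hd0 : (0 : ℝ) < d := by linarith
  -- X / d is large
  have hXd : X ^ (1 / 100 : ℝ) ≤ X / d := by
    rw [le_div_iff₀ hd0]
    calc X ^ (1 / 100 : ℝ) * d ≤ X ^ (1 / 100 : ℝ) * X ^ (1 / 50 : ℝ) :=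
          mul_le_mul_of_nonneg_left hdX (by positivity)
      _ = X ^ (1 / 100 + 1 / 50 : ℝ) := (Real.rpow_add hX0 _ _).symm
      _ ≤ X ^ (1 : ℝ) := Real.rpow_le_rpow_of_exponent_le hX1 (by norm_num)
      _ = X := Real.rpow_one X
  have hone : 1 ≤ X ^ (1 / 100 : ℝ) := Real.one_le_rpow hX1 (by norm_num)
  have hXd1 : 1 ≤ X / d := hone.trans hXd
  set N := ⌊2 * X⌋₊ with hNdef
  have hN : (N : ℝ) ≤ 2 * X := Nat.floor_le (by linarith)
  -- the primes
  have hcard : (((Icc 1 N).filter (fun t => t ≡ a [MOD d])).card : ℝ) ≤ 2 * X / d + 1 := by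
    have h1 := gc_tr_count N d a 1 hd le_rfl (Nat.coprime_one_left d)
    have h2 : ((Icc 1 N).filter (fun t => t ≡ a [MOD d])).filter (fun t => 1 ∣ t) =
        (Icc 1 N).filter (fun t => t ≡ a [MOD d]) := by
      apply Finset.filter_true_of_mem
      intro t _
      exact one_dvd t
    rw [h2, one_mul] at h1
    have h3 : ((N / d : ℕ) : ℝ) ≤ (N : ℝ) / d := Nat.cast_div_le
    have h4 : (N : ℝ) / d ≤ 2 * X / d := div_le_div_of_nonneg_right hN hd0.le
    have h5 : (((Icc 1 N).filter (fun t => t ≡ a [MOD d])).card : ℝ) ≤ ((N / d : ℕ) : ℝ) + 1 := by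
      exact_mod_cast h1
    linarith
  have hth : ∑ t ∈ (Icc 1 N).filter (fun t => t ≡ a [MOD d]), |thP t| ≤ (2 * X / d + 1) * (2 * L) := by
    have h1 : ∀ t ∈ (Icc 1 N).filter (fun t => t ≡ a [MOD d]), |thP t| ≤ 2 * L := by
      intro t ht
      rw [Finset.mem_filter, Finset.mem_Icc] at ht
      have ht1 : (1 : ℝ) ≤ t := by exact_mod_cast ht.1.1
      have ht2 : (t : ℝ) ≤ 2 * X := le_trans (by exact_mod_cast ht.1.2) hN
      have h2 : Real.log t ≤ 2 * L := by
        calc Real.log t ≤ Real.log (X * X) := Real.log_le_log (by linarith) (by nlinarith)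
          _ = 2 * L := by
            rw [Real.log_mul hX0.ne' hX0.ne']
            ring
      unfold thP
      split_ifs
      · rw [abs_of_nonneg (Real.log_nonneg ht1)]
        exact h2
      · rw [abs_zero]
        linarith
    calc ∑ t ∈ (Icc 1 N).filter (fun t => t ≡ a [MOD d]), |thP t|
        ≤ ∑ t ∈ (Icc 1 N).filter (fun t => t ≡ a [MOD d]), 2 * L := Finset.sum_le_sum h1
      _ = (((Icc 1 N).filter (fun t => t ≡ a [MOD d])).card : ℝ) * (2 * L) := by
        rw [Finset.sum_const, nsmul_eq_mul]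
      _ ≤ _ := mul_le_mul_of_nonneg_right hcard (by linarith)
  have hHH := gc_tr_HH (2 * X) (X ^ (1 / 100 : ℝ)) N d a w k hd hc hN (by omega) hwk
  have hκ := Pool.Agent.MT.kapD_pos w
  have hκi : (kapD w)⁻¹ ≤ 1000 * L := by
    have h1 := Pool.Agent.MT.mertens w hw2
    have h2 : Real.log w ≤ L := Real.log_le_log (by linarith) hwX
    rw [inv_le_iff_one_le_mul₀ hκ]
    have h3 : 0 ≤ kapD w * (L - Real.log w) := mul_nonneg hκ.le (by linarith)
    nlinarith
  have hκi0 : 0 < (kapD w)⁻¹ := inv_pos.2 hκ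
  have hκ2 : (kapD w)⁻¹ * (kapD w)⁻¹ ≤ (1000 * L) * (1000 * L) :=
    mul_le_mul hκi hκi hκi0.le (by linarith)
  set Z := X / d with hZ
  have e1 : 2 * X / d = 2 * Z := by rw [hZ]; ring
  rw [e1] at hth hHH
  have htot : ∑ t ∈ (Icc 1 N).filter (fun t => t ≡ a [MOD d]), |thP t - HH w k t| ≤
      (2 * Z + 1) * (2 * L) + (1000 * L) * (1000 * L) * (3 * Z) := by
    calc ∑ t ∈ (Icc 1 N).filter (fun t => t ≡ a [MOD d]), |thP t - HH w k t|
        ≤ ∑ t ∈ (Icc 1 N).filter (fun t => t ≡ a [MOD d]), (|thP t| + |HH w k t|) :=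
          Finset.sum_le_sum fun t _ => abs_sub _ _
      _ = _ := Finset.sum_add_distrib
      _ ≤ (2 * Z + 1) * (2 * L) + (kapD w)⁻¹ * (kapD w)⁻¹ * (2 * Z + X ^ (1 / 100 : ℝ)) :=
          add_le_add hth hHH
      _ ≤ (2 * Z + 1) * (2 * L) + (1000 * L) * (1000 * L) * (3 * Z) := by
          refine add_le_add le_rfl (mul_le_mul hκ2 (by linarith) (by positivity) (by positivity))
  refine htot.trans ?_
  have hZ1 : 1 ≤ Z := hXd1
  have hL0 : 0 < L := by linarith
  have h1 : (2 * Z + 1) * (2 * L) ≤ Z * (6 * L) := by nlinarith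
  have h2 : (1000 * L) * (1000 * L) * (3 * Z) = Z * (3000000 * L ^ 2) := by ring
  rw [h2]
  have h3 : 6 * L + 3000000 * L ^ 2 ≤ L ^ 4 := by
    have h4 : (100000000 : ℝ) ≤ L ^ 2 := by nlinarith
    have h5 : L ^ 4 = L ^ 2 * L ^ 2 := by ring
    rw [h5]
    nlinarith
  calc (2 * Z + 1) * (2 * L) + Z * (3000000 * L ^ 2) ≤ Z * (6 * L) + Z * (3000000 * L ^ 2) := by linarith
    _ = Z * (6 * L + 3000000 * L ^ 2) := by ring
    _ ≤ Z * L ^ 4 := mul_le_mul_of_nonneg_left h3 (by linarith)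

end Pool.Agent.GC.M
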