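import Pool.Agent.Lib.MP_0da313_nt.GC.M
import Pool.Agent.Lib.MP_8a4e59_co.P.Q04

set_option autoImplicit false

namespace Pool.Agent.GC.M

open Finset Filter
open Pool.Agent.MP89da58 (kapD)
open Pool.Agent.Lib.MP_0da313_nt (W)

theorem p_tt : S_tt := by
  intro w K hw hK
  have h := Pool.Agent.APP.Q.q_tot (w : ℝ) K (by exact_mod_cast hw) hK
  have e1 : Pool.Agent.APP.CQ (w : ℝ) = (kapD w)⁻¹ := by
    unfold Pool.Agent.APP.CQ kapD
    rw [Nat.floor_natCast, prod_inv_distrib]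
  have e2 : Pool.Agent.APP.Q.Vq (w : ℝ) K =
      W (fun p => 1 / (p : ℝ)) ((prs w).filter (fun p => ¬ p ∣ K)) := by
    unfold Pool.Agent.APP.Q.Vq Pool.Agent.APP.Q.prQ W prs
    rw [Nat.floor_natCast]
  rw [e1, e2] at h
  exact h

end Pool.Agent.GC.M
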