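import Pool.Agent.Lib.MP_0da313_nt.GC.M

set_option autoImplicit false

namespace Pool.Agent.GC.M

open Finset Filter
open Pool.Agent.MP89da58 (tri)
open Pool.Agent.CH (thP)
open Pool.Agent.CM (wd mu)
open Pool.Agent.SP80 (ex mn)

private theorem gc_tz_ex_add (x y : ℝ) : ex (x + y) = ex x * ex y := by
  unfold ex
  rw [← Complex.exp_add]
  congr 1
  push_cast
  ring

private theorem gc_tz_norm_ex (x : ℝ) : ‖ex x‖ = 1 := by
  unfold ex
  exact Complex.norm_exp_ofReal_mul_I _

private theorem gc_tz_ex_lip (x y : ℝ) : ‖ex x - ex y‖ ≤ 2 * Real.pi * |x - y| := by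
  have h1 : ex x - ex y = ex y * (ex (x - y) - 1) := by
    rw [mul_sub, ← gc_tz_ex_add, mul_one]
    congr 2
    ring
  rw [h1, norm_mul, gc_tz_norm_ex, one_mul]
  have h2 := Real.norm_exp_I_mul_ofReal_sub_one_le (x := 2 * Real.pi * (x - y))
  have h3 : ex (x - y) = Complex.exp (Complex.I * ((2 * Real.pi * (x - y) : ℝ) : ℂ)) := by
    unfold ex
    rw [mul_comm]
  rw [h3]
  refine h2.trans (le_of_eq ?_)
  rw [Real.norm_eq_abs, abs_mul, abs_of_pos (by positivity)]

private theorem gc_tz_tz_lip (x y : ℝ) : |tz x - tz y| ≤ 100 * |x - y| := by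
  unfold tz
  have h1 : |min 1 (max 0 (2 - 100 * |x - 1|)) - min 1 (max 0 (2 - 100 * |y - 1|))| ≤
      |(2 - 100 * |x - 1|) - (2 - 100 * |y - 1|)| := by
    refine (abs_min_sub_min_le_max _ _ _ _).trans ?_
    rw [sub_self, abs_zero]
    refine max_le (abs_nonneg _) ?_
    refine (abs_max_sub_max_le_max _ _ _ _).trans ?_
    rw [sub_self, abs_zero]
    exact max_le (abs_nonneg _) le_rfl
  refine h1.trans ?_
  have h2 : (2 - 100 * |x - 1|) - (2 - 100 * |y - 1|) = 100 * (|y - 1| - |x - 1|) := by ring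
  rw [h2, abs_mul, abs_of_pos (by norm_num : (0:ℝ) < 100)]
  have h3 : |(|y - 1| - |x - 1|)| ≤ |x - y| := by
    have := abs_abs_sub_abs_le (y - 1) (x - 1)
    rw [show y - 1 - (x - 1) = -(x - y) by ring, abs_neg] at this
    exact this
  linarith

private theorem gc_tz_tz_nonneg (x : ℝ) : 0 ≤ tz x := le_min zero_le_one (le_max_left _ _)

private theorem gc_tz_tz_le (x : ℝ) : tz x ≤ 1 := min_le_left _ _

private theorem gc_tz_tz_zero (x : ℝ) (h : 1 / 50 ≤ |x - 1|) : tz x = 0 := by
  unfold tz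
  rw [max_eq_left (by linarith), min_eq_right zero_le_one]

private theorem gc_tz_tri0 {u : ℝ} (h : 1 ≤ |u|) : tri u = 0 := by
  unfold tri
  rw [max_eq_left (by linarith)]

/-- the partition of unity -/
private theorem gc_tz_tri (y : ℝ) (hy : 0 ≤ y) (J : Finset ℕ) (F : ℕ → ℂ)
    (hF : ∀ j, j ∉ J → F j = 0) (G : ℂ) (δ : ℝ) (hδ : ∀ j : ℕ, |y - j| ≤ 1 → ‖G - F j‖ ≤ δ) :
    ‖G - ∑ j ∈ J, F j * (tri (y - j) : ℂ)‖ ≤ δ := by
  set j0 := ⌊y⌋₊ with hj0
  have h0 : (j0 : ℝ) ≤ y := Nat.floor_le hy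
  have h1 : y < j0 + 1 := Nat.lt_floor_add_one y
  have hs : ∑ j ∈ J, F j * (tri (y - j) : ℂ) =
      F j0 * (tri (y - j0) : ℂ) + F (j0 + 1) * (tri (y - ((j0 + 1 : ℕ) : ℝ)) : ℂ) := by
    have e1 : ∑ j ∈ J, F j * (tri (y - j) : ℂ) = ∑ j ∈ J ∪ {j0, j0 + 1}, F j * (tri (y - j) : ℂ) := by
      refine sum_subset subset_union_left ?_
      intro j _ hj
      rw [hF j hj, zero_mul]
    have e2 : ∑ j ∈ ({j0, j0 + 1} : Finset ℕ), F j * (tri (y - j) : ℂ) =
        ∑ j ∈ J ∪ {j0, j0 + 1}, F j * (tri (y - j) : ℂ) := by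
      refine sum_subset subset_union_right ?_
      intro j _ hj
      simp only [mem_insert, mem_singleton, not_or] at hj
      have : tri (y - j) = 0 := by
        refine gc_tz_tri0 ?_
        rcases Nat.lt_or_gt_of_ne hj.1 with hlt | hgt
        · have : (j : ℝ) + 1 ≤ j0 := by exact_mod_cast hlt
          rw [abs_of_nonneg (by linarith)]
          linarith
        · have h3 : j0 + 2 ≤ j := by omega
          have : (j0 : ℝ) + 2 ≤ j := by exact_mod_cast h3
          rw [abs_of_neg (by linarith)]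
          linarith
      rw [this]
      simp
    rw [e1, ← e2, sum_pair (by omega)]
  have hta : tri (y - j0) = 1 - (y - j0) := by
    unfold tri
    rw [abs_of_nonneg (by linarith), max_eq_right (by linarith)]
  have htb : tri (y - ((j0 + 1 : ℕ) : ℝ)) = y - j0 := by
    unfold tri
    push_cast
    rw [abs_of_neg (by linarith), max_eq_right (by linarith)]
    ring
  rw [hs, hta, htb]
  have e3 : G - (F j0 * ((1 - (y - j0) : ℝ) : ℂ) + F (j0 + 1) * ((y - j0 : ℝ) : ℂ)) =
      (G - F j0) * ((1 - (y - j0) : ℝ) : ℂ) + (G - F (j0 + 1)) * ((y - j0 : ℝ) : ℂ) := by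
    push_cast
    ring
  rw [e3]
  refine (norm_add_le _ _).trans ?_
  rw [norm_mul, norm_mul, Complex.norm_real, Complex.norm_real, Real.norm_of_nonneg (by linarith),
    Real.norm_of_nonneg (by linarith)]
  have k0 := hδ j0 (by rw [abs_of_nonneg (by linarith)]; linarith)
  have k1 := hδ (j0 + 1) (by push_cast; rw [abs_of_neg (by linarith)]; linarith)
  have k2 : 0 ≤ 1 - (y - (j0:ℝ)) := by linarith
  have k3 : 0 ≤ y - (j0:ℝ) := by linarith
  calc ‖G - F j0‖ * (1 - (y - j0)) + ‖G - F (j0 + 1)‖ * (y - j0)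
      ≤ δ * (1 - (y - j0)) + δ * (y - j0) := by gcongr
    _ = δ := by ring

private theorem gc_tz_range (P : ℕ → Prop) [DecidablePred P] (f : ℕ → ℂ) (N N' : ℕ)
    (h : ∀ t, 1 ≤ t → f t ≠ 0 → t ≤ N ∧ t ≤ N') :
    ∑ t ∈ (Icc 1 N).filter P, f t = ∑ t ∈ (Icc 1 N').filter P, f t := by
  have key : ∀ K, K ≤ N + N' → (∀ t, 1 ≤ t → f t ≠ 0 → t ≤ K) →
      ∑ t ∈ (Icc 1 K).filter P, f t = ∑ t ∈ (Icc 1 (N + N')).filter P, f t := by
    intro K hK hf
    refine sum_subset (filter_subset_filter _ (Icc_subset_Icc_right hK)) ?_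
    intro t ht hn
    rw [mem_filter, mem_Icc] at ht hn
    by_contra h0
    exact hn ⟨⟨ht.1.1, hf t ht.1.1 h0⟩, ht.2⟩
  rw [key N (by omega) fun t h1 h2 => (h t h1 h2).1, key N' (by omega) fun t h1 h2 => (h t h1 h2).2]

theorem p_tz : S_tz := by
  intro htr A B
  refine ⟨A + B + 6, ?_⟩
  have hL : ∀ᶠ X : ℝ in atTop, 1000 ≤ Real.log X := Real.tendsto_log_atTop.eventually_ge_atTop 1000
  filter_upwards [htr, hL, eventually_ge_atTop (1:ℝ)] with X htrX hLX hX1
  intro w k hP d a q b θ hd hdX had hq hθ lam hlam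
  have hX0 : (0:ℝ) < X := by linarith
  have hd0 : (0:ℝ) < d := by exact_mod_cast hd
  have hq0 : (0:ℝ) < q := by exact_mod_cast hq
  set L := Real.log X with hLdef
  have hL1 : (1:ℝ) ≤ L := by linarith
  have hL0 : (0:ℝ) < L := by linarith
  have hlam0 : 1000 ≤ lam := by
    rw [hlam]
    calc (1000:ℝ) ≤ L := hLX
      _ = L ^ 1 := (pow_one L).symm
      _ ≤ L ^ (A + B + 6) := pow_le_pow_right₀ hL1 (by omega)
  have hlampos : 0 < lam := by linarith
  -- notation
  set β : ℝ := θ - b / ((d : ℝ) ^ 2 * q) with hβ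
  set g : ℝ → ℂ := fun y => (tz (y / X) : ℂ) * ex (β * y) with hg
  set J := Icc ⌈lam * Real.log (9 / 10 * X)⌉₊ ⌊lam * Real.log (11 / 10 * X)⌋₊ with hJ
  set T := (Icc 1 ⌊2 * X⌋₊).filter (fun t => t ≡ a [MOD d]) with hT
  set c : ℕ → ℝ := fun t => thP t - HH w k t with hc
  set e0 : ℕ → ℂ := fun t => ex ((b : ℝ) * t / ((d : ℝ) ^ 2 * q)) with he0
  have hgnorm : ∀ y, ‖g y‖ ≤ 1 := by
    intro y
    rw [hg]
    simp only
    rw [norm_mul, gc_tz_norm_ex, mul_one, Complex.norm_real, Real.norm_of_nonneg (gc_tz_tz_nonneg _)]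
    exact gc_tz_tz_le _
  -- g vanishes outside J
  have hgJ : ∀ j : ℕ, j ∉ J → g (Real.exp (j / lam)) = 0 := by
    intro j hj
    have hz : tz (Real.exp (j / lam) / X) = 0 := by
      refine gc_tz_tz_zero _ ?_
      rw [hJ, mem_Icc, not_and_or, not_le, not_le] at hj
      rcases hj with hj | hj
      · have h1 : (j:ℝ) < lam * Real.log (9 / 10 * X) := Nat.lt_ceil.1 hj
        have h2 : (j:ℝ) / lam < Real.log (9 / 10 * X) := by
          rw [div_lt_iff₀ hlampos]; linarith
        have h3 : Real.exp (j / lam) < 9 / 10 * X := by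
          rw [← Real.exp_log (show (0:ℝ) < 9 / 10 * X by positivity)]
          exact Real.exp_lt_exp.2 h2
        have h4 : Real.exp (j / lam) / X < 9 / 10 := by
          rw [div_lt_iff₀ hX0]; exact h3
        rw [abs_of_neg (by linarith)]
        linarith
      · have h1 : lam * Real.log (11 / 10 * X) < j := by
          have := Nat.lt_of_floor_lt hj
          exact this
        have h2 : Real.log (11 / 10 * X) < (j:ℝ) / lam := by
          rw [lt_div_iff₀ hlampos]; linarith
        have h3 : 11 / 10 * X < Real.exp (j / lam) := by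
          rw [← Real.exp_log (show (0:ℝ) < 11 / 10 * X by positivity)]
          exact Real.exp_lt_exp.2 h2
        have h4 : 11 / 10 < Real.exp (j / lam) / X := by
          rw [lt_div_iff₀ hX0]; exact h3
        rw [abs_of_pos (by linarith)]
        linarith
    rw [hg]
    simp only
    rw [hz]
    simp
  -- Lipschitz
  have hglip : ∀ y z : ℝ, ‖g y - g z‖ ≤ (100 / X + 2 * Real.pi * |β|) * |y - z| := by
    intro y z
    have e1 : g y - g z = ((tz (y / X) - tz (z / X) : ℝ) : ℂ) * ex (β * y) +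
        (tz (z / X) : ℂ) * (ex (β * y) - ex (β * z)) := by
      rw [hg]; push_cast; ring
    rw [e1]
    refine (norm_add_le _ _).trans ?_
    rw [norm_mul, norm_mul, gc_tz_norm_ex, mul_one, Complex.norm_real, Complex.norm_real,
      Real.norm_of_nonneg (gc_tz_tz_nonneg _), Real.norm_eq_abs]
    have k1 : |tz (y / X) - tz (z / X)| ≤ 100 / X * |y - z| := by
      refine (gc_tz_tz_lip _ _).trans (le_of_eq ?_)
      rw [← sub_div, abs_div, abs_of_pos hX0]
      ring
    have k2 : tz (z / X) * ‖ex (β * y) - ex (β * z)‖ ≤ 2 * Real.pi * |β| * |y - z| := by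
      calc tz (z / X) * ‖ex (β * y) - ex (β * z)‖ ≤ 1 * (2 * Real.pi * |β * y - β * z|) := by
            refine mul_le_mul (gc_tz_tz_le _) (gc_tz_ex_lip _ _) (norm_nonneg _) zero_le_one
        _ = 2 * Real.pi * |β| * |y - z| := by
            rw [← mul_sub, abs_mul]; ring
    linarith
  -- the windows
  have hwd : ∀ (t j : ℕ), 1 ≤ t → wd lam (Real.exp (j / lam)) t = tri (lam * Real.log t - j) := by
    intro t j ht
    have ht0 : (0:ℝ) < t := by exact_mod_cast ht
    unfold wd
    rw [Real.log_div ht0.ne' (Real.exp_pos _).ne', Real.log_exp]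
    congr 1
    field_simp
  -- pointwise
  set δ : ℝ := L ^ (B + 1) / lam with hδ
  have hpt : ∀ t ∈ T, ‖g t - ∑ j ∈ J, g (Real.exp (j / lam)) *
      (wd lam (Real.exp (j / lam)) t : ℂ)‖ ≤ δ := by
    intro t ht
    rw [hT, mem_filter, mem_Icc] at ht
    have ht1 : 1 ≤ t := ht.1.1
    have ht0 : (1:ℝ) ≤ t := by exact_mod_cast ht1
    have ht2 : (t:ℝ) ≤ 2 * X := (Nat.le_floor_iff (by positivity)).1 ht.1.2
    have e1 : ∑ j ∈ J, g (Real.exp (j / lam)) * (wd lam (Real.exp (j / lam)) t : ℂ) =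
        ∑ j ∈ J, g (Real.exp (j / lam)) * (tri (lam * Real.log t - j) : ℂ) :=
      sum_congr rfl fun j _ => by rw [hwd t j ht1]
    rw [e1]
    refine gc_tz_tri (lam * Real.log t) (mul_nonneg hlampos.le (Real.log_nonneg ht0)) J
      (fun j => g (Real.exp (j / lam))) hgJ (g t) δ ?_
    intro j hj
    refine (hglip _ _).trans ?_
    -- |t - X_j|
    have h1 : |Real.log t - j / lam| ≤ 1 / lam := by
      have : Real.log t - j / lam = (lam * Real.log t - j) / lam := by field_simp
      rw [this, abs_div, abs_of_pos hlampos]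
      gcongr
    have h2 : |(t:ℝ) - Real.exp (j / lam)| ≤ 4 * X / lam := by
      have h3 : Real.exp (j / lam) = t * Real.exp (j / lam - Real.log t) := by
        rw [Real.exp_sub, Real.exp_log (by linarith)]
        field_simp
      have h4 : |j / lam - Real.log t| ≤ 1 := by
        rw [abs_sub_comm]
        refine h1.trans ?_
        rw [div_le_one hlampos]; linarith
      have h5 : |Real.exp (j / lam - Real.log t) - 1| ≤ 2 * |j / lam - Real.log t| := by
        have := Real.norm_exp_sub_one_sub_id_le (x := j / lam - Real.log t) (by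
          rw [Real.norm_eq_abs]; exact h4)
        rw [Real.norm_eq_abs, Real.norm_eq_abs] at this
        have h6 : |j / lam - Real.log t| ^ 2 ≤ |j / lam - Real.log t| := by
          rw [sq]
          calc _ ≤ 1 * |j / lam - Real.log t| := by gcongr
            _ = _ := one_mul _
        have h7 : Real.exp (j / lam - Real.log t) - 1 =
          (Real.exp (j / lam - Real.log t) - 1 - (j / lam - Real.log t)) +
            (j / lam - Real.log t) := by ring
        rw [h7]
        refine (abs_add_le _ _).trans ?_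
        linarith
      have h8 : (t:ℝ) - Real.exp (j / lam) = -(t * (Real.exp (j / lam - Real.log t) - 1)) := by
        rw [mul_sub, ← h3]; ring
      rw [h8, abs_neg, abs_mul, abs_of_pos (by linarith : (0:ℝ) < t)]
      calc (t:ℝ) * |Real.exp (j / lam - Real.log t) - 1| ≤ (2 * X) * (2 * (1 / lam)) := by
            refine mul_le_mul ht2 (h5.trans ?_) (abs_nonneg _) (by positivity)
            rw [abs_sub_comm] at h1
            linarith
        _ = 4 * X / lam := by ring
    calc (100 / X + 2 * Real.pi * |β|) * |(t:ℝ) - Real.exp (j / lam)|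
        ≤ (100 / X + 2 * Real.pi * (L ^ B / X)) * (4 * X / lam) := by
          have hpi := Real.pi_pos
          gcongr
      _ = (400 + 8 * Real.pi * L ^ B) / lam := by field_simp; ring
      _ ≤ L ^ (B + 1) / lam := by
          have hB1 : 1 ≤ L ^ B := one_le_pow₀ hL1
          have hpi4 := Real.pi_le_four
          gcongr
          rw [pow_succ]
          nlinarith
      _ = δ := rfl
  -- ES
  have hES : ES w k X d a θ = ∑ t ∈ T, ((c t : ℝ) : ℂ) * e0 t * g t := by
    unfold ES
    refine sum_congr rfl fun t _ => ?_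
    have e1 : θ * t = (b : ℝ) * t / ((d : ℝ) ^ 2 * q) + β * t := by
      rw [hβ]; field_simp; ring
    rw [e1, gc_tz_ex_add, hg, he0, hc]
    push_cast
    ring
  -- the inner sums
  have hin : ∀ j ∈ J, ∑ t ∈ (Icc 1 ⌊3 * Real.exp (j / lam)⌋₊).filter (fun t => t ≡ a [MOD d]),
      ((c t : ℝ) : ℂ) * e0 t * (wd lam (Real.exp (j / lam)) t : ℂ) =
      ∑ t ∈ T, ((c t : ℝ) : ℂ) * e0 t * (wd lam (Real.exp (j / lam)) t : ℂ) := by
    intro j hj
    rw [hJ, mem_Icc] at hj
    refine gc_tz_range (fun t => t ≡ a [MOD d]) _ _ _ ?_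
    intro t ht hne
    have ht0 : (1:ℝ) ≤ t := by exact_mod_cast ht
    have hw : tri (lam * Real.log t - j) ≠ 0 := by
      intro h0
      apply hne
      rw [hwd t j ht, h0]
      simp
    have h1 : |lam * Real.log t - j| < 1 := by
      by_contra h0
      exact hw (gc_tz_tri0 (not_lt.1 h0))
    have h2 : Real.log t < j / lam + 1 / lam := by
      rw [← add_div, lt_div_iff₀ hlampos]
      have := (abs_lt.1 h1).2
      linarith
    have h3 : (t:ℝ) < Real.exp (j / lam) * Real.exp (1 / lam) := by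
      rw [← Real.exp_add]
      rw [← Real.exp_log (show (0:ℝ) < t by linarith)]
      exact Real.exp_lt_exp.2 h2
    have h4 : Real.exp (1 / lam) ≤ 3 / 2 := by
      have h5 : (1:ℝ) / lam ≤ 1 / 1000 := by gcongr
      have h6 : Real.exp (1 / lam) ≤ Real.exp (1 / 1000) := Real.exp_le_exp.2 h5
      have h7 : Real.exp (1 / 1000 : ℝ) ≤ 1 / (1 - 1 / 1000) := by
        have := Real.one_sub_le_exp_neg (1 / 1000 : ℝ)
        rw [Real.exp_neg] at this
        rw [le_div_iff₀ (by norm_num)]
        have h8 := Real.exp_pos (1 / 1000 : ℝ)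
        calc Real.exp (1 / 1000 : ℝ) * (1 - 1 / 1000) ≤
            Real.exp (1 / 1000 : ℝ) * (Real.exp (1 / 1000 : ℝ))⁻¹ := by gcongr
          _ = 1 := mul_inv_cancel₀ h8.ne'
      linarith
    have hXj : Real.exp (j / lam) ≤ 11 / 10 * X := by
      have h5 : (j:ℝ) ≤ lam * Real.log (11 / 10 * X) := by
        refine (Nat.le_floor_iff ?_).1 hj.2
        refine mul_nonneg hlampos.le (Real.log_nonneg ?_)
        linarith
      have h6 : (j:ℝ) / lam ≤ Real.log (11 / 10 * X) := by
        rw [div_le_iff₀ hlampos]; linarith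
      calc Real.exp (j / lam) ≤ Real.exp (Real.log (11 / 10 * X)) := Real.exp_le_exp.2 h6
        _ = 11 / 10 * X := Real.exp_log (by positivity)
    have hXj0 := Real.exp_pos ((j:ℝ) / lam)
    constructor
    · refine Nat.le_floor ?_
      nlinarith
    · refine Nat.le_floor ?_
      nlinarith
  -- conclusion
  have hsplit : ES w k X d a θ = (∑ j ∈ J, g (Real.exp (j / lam)) *
      ∑ t ∈ T, ((c t : ℝ) : ℂ) * e0 t * (wd lam (Real.exp (j / lam)) t : ℂ)) +
      ∑ t ∈ T, ((c t : ℝ) : ℂ) * e0 t * (g t - ∑ j ∈ J, g (Real.exp (j / lam)) *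
      (wd lam (Real.exp (j / lam)) t : ℂ)) := by
    rw [hES]
    have e1 : ∑ j ∈ J, g (Real.exp (j / lam)) *
        ∑ t ∈ T, ((c t : ℝ) : ℂ) * e0 t * (wd lam (Real.exp (j / lam)) t : ℂ) =
        ∑ t ∈ T, ((c t : ℝ) : ℂ) * e0 t * ∑ j ∈ J, g (Real.exp (j / lam)) *
          (wd lam (Real.exp (j / lam)) t : ℂ) := by
      simp_rw [mul_sum]
      rw [sum_comm]
      exact sum_congr rfl fun t _ => sum_congr rfl fun j _ => by ring
    rw [e1, ← sum_add_distrib]
    exact sum_congr rfl fun t _ => by ring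
  rw [hsplit]
  refine (norm_add_le _ _).trans (add_le_add ?_ ?_)
  · refine (norm_sum_le _ _).trans (sum_le_sum fun j hj => ?_)
    rw [norm_mul, ← hin j hj]
    calc ‖g (Real.exp (j / lam))‖ * _ ≤ 1 * _ :=
          mul_le_mul_of_nonneg_right (hgnorm _) (norm_nonneg _)
      _ = _ := one_mul _
  · have hδ0 : 0 ≤ δ := by positivity
    calc ‖∑ t ∈ T, ((c t : ℝ) : ℂ) * e0 t * (g t - ∑ j ∈ J, g (Real.exp (j / lam)) *
          (wd lam (Real.exp (j / lam)) t : ℂ))‖
        ≤ ∑ t ∈ T, |c t| * δ := by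
          refine (norm_sum_le _ _).trans (sum_le_sum fun t ht => ?_)
          rw [norm_mul, norm_mul, Complex.norm_real, Real.norm_eq_abs, he0]
          simp only
          rw [gc_tz_norm_ex, mul_one]
          exact mul_le_mul_of_nonneg_left (hpt t ht) (abs_nonneg _)
      _ = (∑ t ∈ T, |c t|) * δ := by rw [sum_mul]
      _ ≤ (X / d * L ^ 4) * δ := by
          refine mul_le_mul_of_nonneg_right ?_ hδ0
          exact htrX w k hP d a hd hdX had
      _ ≤ X / d / L ^ A := by
          rw [hδ, hlam]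
          have e1 : X / d * L ^ 4 * (L ^ (B + 1) / L ^ (A + B + 6)) = X / d / L ^ A * (1 / L) := by
            have e2 : L ^ (A + B + 6) = L ^ A * L ^ (B + 1) * L ^ 4 * L := by ring
            rw [e2]
            field_simp
          rw [e1]
          have h1 : 0 ≤ X / d / L ^ A := by positivity
          have h2 : 1 / L ≤ 1 := by rw [div_le_one hL0]; exact hL1
          exact mul_le_of_le_one_right h1 h2

end Pool.Agent.GC.M
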