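import Pool.Agent.Lib.MP_0da313_nt.GC.B

set_option autoImplicit false

/-!
Project GC, [GC un]: the Bombieri-Vinogradov theorem for the exponential sums, without weights.
-/

namespace Pool.Agent.GC.B

open Finset Filter

private theorem gc_un_Pm {X ε : ℝ} {K K' w k : ℕ} (hL : 1 ≤ Real.log X) (hK : K' ≤ K)
    (h : Pm X ε K w k) : Pm X ε K' w k := by
  have hLL : 0 ≤ Real.log (Real.log X) := Real.log_nonneg hL
  refine ⟨le_trans (pow_le_pow_right₀ hL hK) h.w_ge, ?_, h.even, h.wk⟩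
  refine le_trans ?_ h.k_ge
  have : (K' : ℝ) ≤ K := by exact_mod_cast hK
  nlinarith

/-- `∑_{d ≤ D} 1/d ≤ 1 + log D`. -/
private theorem gc_un_harm (D : ℕ) :
    ∑ d ∈ Icc 1 D, (1 : ℝ) / d ≤ 1 + Real.log D := by
  have h := harmonic_le_one_add_log D
  have h2 : ((harmonic D : ℚ) : ℝ) = ∑ d ∈ Icc 1 D, (1 : ℝ) / d := by
    rw [harmonic_eq_sum_Icc]
    push_cast
    simp
  rw [← h2]
  exact h

/-- The largeness conditions on `X`. -/
private theorem gc_un_large (B : ℕ) : ∀ᶠ X : ℝ in atTop,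
    1 ≤ X ∧ 3 ≤ Real.log X ∧ X ^ (1 / 25 : ℝ) * Real.log X ^ B ≤ X := by
  have h1 : ∀ᶠ X : ℝ in atTop, (3 : ℝ) ≤ Real.log X :=
    Real.tendsto_log_atTop.eventually_ge_atTop 3
  have h2 : ∀ᶠ X : ℝ in atTop, (1 : ℝ) ≤ X := eventually_ge_atTop 1
  have h3 : (fun X : ℝ => Real.log X ^ (B : ℝ)) =o[atTop] fun X : ℝ => X ^ (24 / 25 : ℝ) :=
    isLittleO_log_rpow_rpow_atTop _ (by norm_num)
  have h4 := h3.bound (show (0 : ℝ) < 1 by norm_num)
  filter_upwards [h1, h2, h4] with X h1 h2 h4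
  refine ⟨h2, h1, ?_⟩
  have hX0 : (0 : ℝ) < X := by linarith
  rw [Real.norm_of_nonneg (Real.rpow_nonneg (by linarith) _),
    Real.norm_of_nonneg (Real.rpow_nonneg hX0.le _), one_mul, Real.rpow_natCast] at h4
  calc X ^ (1 / 25 : ℝ) * Real.log X ^ B ≤ X ^ (1 / 25 : ℝ) * X ^ (24 / 25 : ℝ) :=
        mul_le_mul_of_nonneg_left h4 (Real.rpow_nonneg hX0.le _)
    _ = X := by
        rw [← Real.rpow_add hX0]
        norm_num

theorem p_un : S_un := by
  intro hmA hMA A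
  obtain ⟨B, hB⟩ := hmA (A + 2)
  obtain ⟨K0, hK0⟩ := hMA (A + 1) B
  refine ⟨K0 + 1, ?_⟩
  filter_upwards [hB, hK0, gc_un_large B] with X hB hK0 hX w k hP a θ ha
  obtain ⟨hX1, hL3, hXB⟩ := hX
  set L := Real.log X with hLdef
  have hL1 : 1 ≤ L := by linarith
  have hL0 : 0 < L := by linarith
  have hX0 : 0 < X := by linarith
  have hLB : 0 < L ^ B := pow_pos hL0 B
  have hLB1 : 1 ≤ L ^ B := one_le_pow₀ hL1
  have hP1 : Pm X (1 / 100) 1 w k := gc_un_Pm hL1 (by omega) hP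
  have hPK : Pm X (1 / 100) K0 w k := gc_un_Pm hL1 (by omega) hP
  have hBd := hB w k hP1
  have hMd := hK0 w k hPK
  set D := ⌊X ^ (1 / 50 : ℝ)⌋₊ with hD
  -- bounds for d
  have hdX : ∀ d ∈ Icc 1 D, 1 ≤ d ∧ (d : ℝ) ≤ X ^ (1 / 50 : ℝ) := by
    intro d hd
    rw [Finset.mem_Icc] at hd
    refine ⟨hd.1, ?_⟩
    exact le_trans (by exact_mod_cast hd.2) (Nat.floor_le (Real.rpow_nonneg hX0.le _))
  have hd2 : ∀ d ∈ Icc 1 D, (d : ℝ) ^ 2 * L ^ B ≤ X := by
    intro d hd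
    obtain ⟨h1, h2⟩ := hdX d hd
    refine le_trans ?_ hXB
    refine mul_le_mul_of_nonneg_right ?_ hLB.le
    calc (d : ℝ) ^ 2 ≤ (X ^ (1 / 50 : ℝ)) ^ 2 := by
          exact pow_le_pow_left₀ (by positivity) h2 2
      _ = X ^ (1 / 25 : ℝ) := by
          rw [← Real.rpow_natCast, ← Real.rpow_mul hX0.le]
          norm_num
  -- Dirichlet
  have hdir : ∀ d : ℕ, ∃ r : ℚ, d ∈ Icc 1 D →
      |(d : ℝ) ^ 2 * θ d - r| ≤ 1 / ((⌊X / ((d : ℝ) ^ 2 * L ^ B)⌋₊ + 1) * r.den) ∧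
      r.den ≤ ⌊X / ((d : ℝ) ^ 2 * L ^ B)⌋₊ := by
    intro d
    by_cases hd : d ∈ Icc 1 D
    · have hn : 0 < ⌊X / ((d : ℝ) ^ 2 * L ^ B)⌋₊ := by
        rw [Nat.floor_pos, le_div_iff₀, one_mul]
        · exact hd2 d hd
        · have : (0 : ℝ) < d := by exact_mod_cast (hdX d hd).1
          positivity
      obtain ⟨r, h1, h2⟩ := Real.exists_rat_abs_sub_le_and_den_le ((d : ℝ) ^ 2 * θ d) hn
      exact ⟨r, fun _ => ⟨h1, h2⟩⟩
    · exact ⟨0, fun h => absurd h hd⟩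
  choose r hr using hdir
  classical
  set S : Finset ℕ := (Icc 1 D).filter (fun d => ((r d).den : ℝ) < L ^ B) with hS
  have hsub : S ⊆ Icc 1 D := Finset.filter_subset _ _
  have hSbd : ∑ d ∈ S, ‖ES w k X d (a d) (θ d)‖ ≤ X / L ^ (A + 1) := by
    refine hMd a (fun d => (r d).den) (fun d => (r d).num) θ S hsub ha ?_
    intro d hd
    have hdI := hsub hd
    obtain ⟨hd1, hdX'⟩ := hdX d hdI
    obtain ⟨h1, h2⟩ := hr d hdI
    have hden : 1 ≤ (r d).den := (r d).pos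
    have hden' : (1 : ℝ) ≤ (r d).den := by exact_mod_cast hden
    have hd0 : (0 : ℝ) < d := by exact_mod_cast hd1
    refine ⟨hden, ?_, ?_⟩
    · rw [hS, Finset.mem_filter] at hd
      exact hd.2.le
    · have hq : ((r d : ℚ) : ℝ) = ((r d).num : ℝ) / ((r d).den : ℝ) := by
        exact Rat.cast_def (r d)
      have e1 : θ d - ((r d).num : ℝ) / ((d : ℝ) ^ 2 * ((r d).den : ℝ))
          = ((d : ℝ) ^ 2 * θ d - r d) / (d : ℝ) ^ 2 := by
        rw [hq]
        field_simp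
      show |θ d - ((r d).num : ℝ) / ((d : ℝ) ^ 2 * ((r d).den : ℝ))| ≤ L ^ B / X
      rw [e1, abs_div, abs_of_pos (show (0 : ℝ) < (d : ℝ) ^ 2 by positivity), div_le_iff₀ (by positivity)]
      refine le_trans h1 ?_
      have hfl : X / ((d : ℝ) ^ 2 * L ^ B) ≤ (⌊X / ((d : ℝ) ^ 2 * L ^ B)⌋₊ : ℝ) + 1 :=
        (Nat.lt_floor_add_one _).le
      have hpos : 0 < X / ((d : ℝ) ^ 2 * L ^ B) := by positivity
      calc 1 / (((⌊X / ((d : ℝ) ^ 2 * L ^ B)⌋₊ : ℝ) + 1) * ((r d).den : ℝ))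
          ≤ 1 / (X / ((d : ℝ) ^ 2 * L ^ B)) := by
            refine one_div_le_one_div_of_le hpos ?_
            nlinarith
        _ = L ^ B / X * (d : ℝ) ^ 2 := by
            field_simp
  have hNbd : ∑ d ∈ (Icc 1 D).filter (fun d => ¬ ((r d).den : ℝ) < L ^ B),
      ‖ES w k X d (a d) (θ d)‖ ≤ ∑ d ∈ Icc 1 D, (X / L ^ (A + 2)) * (1 / (d : ℝ)) := by
    refine le_trans (Finset.sum_le_sum (g := fun d : ℕ => (X / L ^ (A + 2)) * (1 / (d : ℝ))) ?_)
      (Finset.sum_le_sum_of_subset_of_nonneg (Finset.filter_subset _ _) ?_)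
    · intro d hd
      rw [Finset.mem_filter, not_lt] at hd
      obtain ⟨hdI, hq⟩ := hd
      obtain ⟨hd1, hdX'⟩ := hdX d hdI
      obtain ⟨h1, h2⟩ := hr d hdI
      have hd0 : (0 : ℝ) < d := by exact_mod_cast hd1
      have hden' : (1 : ℝ) ≤ (r d).den := by exact_mod_cast (r d).pos
      have h3 := hBd d (a d) (r d).den (r d).num (θ d) hd1 hdX' (ha d) hq ?_ ?_ ?_
      · refine le_trans h3 (le_of_eq ?_)
        field_simp
      · refine le_trans (by exact_mod_cast h2) (Nat.floor_le ?_)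
        positivity
      · rw [Int.isCoprime_iff_gcd_eq_one]
        exact (r d).reduced
      · have hq' : ((r d : ℚ) : ℝ) = ((r d).num : ℝ) / ((r d).den : ℝ) := by
          exact Rat.cast_def (r d)
        rw [← hq']
        refine le_trans h1 (one_div_le_one_div_of_le (by positivity) ?_)
        have h4 : ((r d).den : ℝ) ≤ (⌊X / ((d : ℝ) ^ 2 * L ^ B)⌋₊ : ℝ) := by exact_mod_cast h2
        nlinarith
    · intro d _ _
      positivity
  have hlogD : Real.log D ≤ L := by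
    rcases Nat.eq_zero_or_pos D with h0 | h0
    · rw [h0]
      simp
      linarith
    · refine Real.log_le_log (by exact_mod_cast h0) ?_
      refine le_trans (Nat.floor_le (Real.rpow_nonneg hX0.le _)) ?_
      calc X ^ (1 / 50 : ℝ) ≤ X ^ (1 : ℝ) :=
            Real.rpow_le_rpow_of_exponent_le hX1 (by norm_num)
        _ = X := Real.rpow_one X
  have hN2 : ∑ d ∈ Icc 1 D, (X / L ^ (A + 2)) * (1 / (d : ℝ)) ≤ 2 * (X / L ^ (A + 1)) := by
    rw [← Finset.mul_sum]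
    calc (X / L ^ (A + 2)) * ∑ d ∈ Icc 1 D, 1 / (d : ℝ)
        ≤ (X / L ^ (A + 2)) * (2 * L) := by
          refine mul_le_mul_of_nonneg_left ?_ (by positivity)
          have := gc_un_harm D
          linarith
      _ = 2 * (X / L ^ (A + 1)) := by
          rw [pow_succ L (A + 1)]
          field_simp
  have hsplit := Finset.sum_filter_add_sum_filter_not (Icc 1 D) (fun d => ((r d).den : ℝ) < L ^ B)
    (fun d => ‖ES w k X d (a d) (θ d)‖)
  rw [← hsplit]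
  have hfin : X / L ^ (A + 1) * 3 ≤ X / L ^ A := by
    rw [pow_succ L A, div_mul_eq_mul_div, div_le_div_iff₀ (by positivity) (by positivity)]
    have h5 : 0 < L ^ A := by positivity
    nlinarith [mul_pos hX0 h5]
  linarith

end Pool.Agent.GC.B
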