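import Pool.Agent.Lib.MP_0da313_nt.GC.B
import Pool.Agent.Lib.MP_89da58_nt.BvW

set_option autoImplicit false

/-!
Project GC, section B, piece bv: the final form of the Bombieri-Vinogradov estimate for the
exponential sums, with weights and with the maximum over the classes and the frequencies.
-/

namespace Pool.Agent.GC.B

open Finset Filter
open Pool.Agent.MP89da58 (sum_omega_le)
open Pool.Agent.CH (thP)
open Pool.Agent.SP80 (ex)

/-- The parameters for a smaller exponent. -/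
private theorem gc_bv_mono {X ε : ℝ} {K0 K1 w k : ℕ} (h : Pm X ε K0 w k) (hK : K1 ≤ K0)
    (hL : 1 ≤ Real.log X) : Pm X ε K1 w k := by
  refine ⟨le_trans (pow_le_pow_right₀ hL hK) h.w_ge, le_trans ?_ h.k_ge, h.even, h.wk⟩
  exact mul_le_mul_of_nonneg_right (by exact_mod_cast hK) (Real.log_nonneg hL)

/-- The exponential sum is at most the sum of the absolute values. -/
private theorem gc_bv_triv (w k : ℕ) (X : ℝ) (d a : ℕ) (θ : ℝ) :
    ‖ES w k X d a θ‖ ≤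
      ∑ t ∈ (Icc 1 ⌊2 * X⌋₊).filter (fun t => t ≡ a [MOD d]), |thP t - HH w k t| := by
  unfold ES
  refine (norm_sum_le _ _).trans (Finset.sum_le_sum fun t _ => ?_)
  rw [norm_mul]
  have h1 : ‖ex (θ * t)‖ = 1 := by
    unfold Pool.Agent.SP80.ex
    rw [Complex.norm_exp]
    simp
  rw [h1, mul_one, Complex.norm_real, Real.norm_eq_abs, abs_mul]
  have h2 : |tz (t / X)| ≤ 1 := by
    unfold tz
    rw [abs_of_nonneg (le_min zero_le_one (le_max_left _ _))]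
    exact min_le_left _ _
  exact mul_le_of_le_one_right (abs_nonneg _) h2

theorem p_bv : S_bv := by
  classical
  intro hun htr A b
  obtain ⟨K1, hK1⟩ := hun (2 * A + b ^ 2 + 6)
  refine ⟨max K1 1, ?_⟩
  filter_upwards [hK1, htr, eventually_ge_atTop (Real.exp 14)] with X hX hXtr hXe
  intro w k hP
  have hXpos : 0 < X := lt_of_lt_of_le (Real.exp_pos 14) hXe
  have hL14 : 14 ≤ Real.log X := by
    rw [Real.le_log_iff_exp_le hXpos]; exact hXe
  have hX3 : 3 ≤ X := by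
    have := Real.add_one_le_exp (14 : ℝ)
    linarith
  have hP1 : Pm X (1 / 100) K1 w k := gc_bv_mono hP (le_max_left _ _) (by linarith)
  have hP2 : Pm X (1 / 100) 1 w k := gc_bv_mono hP (le_max_right _ _) (by linarith)
  set L := Real.log X with hLdef
  have hLpos : 0 < L := by linarith
  set N := ⌊X ^ (1 / 50 : ℝ)⌋₊ with hN
  have hXp : 0 ≤ X ^ (1 / 50 : ℝ) := Real.rpow_nonneg hXpos.le _
  have hN1 : 1 ≤ N := Nat.le_floor (by
    push_cast
    exact Real.one_le_rpow (by linarith) (by norm_num))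
  have hNle : (N : ℝ) ≤ X ^ (1 / 50 : ℝ) := Nat.floor_le hXp
  have hNpos : (0 : ℝ) < N := by exact_mod_cast hN1
  have hlogN : Real.log N ≤ 1 / 50 * L := by
    have := Real.log_le_log hNpos hNle
    rwa [Real.log_rpow hXpos] at this
  have hlogN0 : 0 ≤ Real.log N := Real.log_nonneg (by exact_mod_cast hN1)
  -- the trivial bound
  have htriv : ∀ d a : ℕ, ∀ θ : ℝ, 1 ≤ d → (d : ℝ) ≤ X ^ (1 / 50 : ℝ) → a.Coprime d →
      ‖ES w k X d a θ‖ ≤ X / d * L ^ 4 := fun d a θ h1 h2 h3 =>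
    (gc_bv_triv w k X d a θ).trans (hXtr w k hP2 d a h1 h2 h3)
  let T : ℕ → Set ℝ := fun d => {x | ∃ (a : ℕ) (θ : ℝ), a.Coprime d ∧ x = ‖ES w k X d a θ‖}
  let E : ℕ → ℝ := fun d => if 1 ≤ d ∧ (d : ℝ) ≤ X ^ (1 / 50 : ℝ) then sSup (T d) else 0
  have hTne : ∀ d, (T d).Nonempty := fun d => ⟨_, 1, 0, Nat.coprime_one_left d, rfl⟩
  have hTbd : ∀ d : ℕ, 1 ≤ d → (d : ℝ) ≤ X ^ (1 / 50 : ℝ) → BddAbove (T d) := by
    intro d h1 h2
    refine ⟨X / d * L ^ 4, ?_⟩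
    rintro x ⟨a, θ, ha, rfl⟩
    exact htriv d a θ h1 h2 ha
  have hEle : ∀ d : ℕ, 1 ≤ d → (d : ℝ) ≤ X ^ (1 / 50 : ℝ) → E d ≤ X / d * L ^ 4 := by
    intro d h1 h2
    have h3 : E d = sSup (T d) := if_pos ⟨h1, h2⟩
    rw [h3]
    refine csSup_le (hTne d) ?_
    rintro x ⟨a, θ, ha, rfl⟩
    exact htriv d a θ h1 h2 ha
  have hEge : ∀ (d a : ℕ) (θ : ℝ), 1 ≤ d → (d : ℝ) ≤ X ^ (1 / 50 : ℝ) → a.Coprime d →
      ‖ES w k X d a θ‖ ≤ E d := by
    intro d a θ h1 h2 ha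
    have h3 : E d = sSup (T d) := if_pos ⟨h1, h2⟩
    rw [h3]
    exact le_csSup (hTbd d h1 h2) ⟨a, θ, ha, rfl⟩
  have hE0 : ∀ d, 0 ≤ E d := by
    intro d
    by_cases h : 1 ≤ d ∧ (d : ℝ) ≤ X ^ (1 / 50 : ℝ)
    · exact (norm_nonneg _).trans (hEge d 1 0 h.1 h.2 (Nat.coprime_one_left d))
    · have h3 : E d = 0 := if_neg h
      rw [h3]
  have hch : ∀ d : ℕ, ∃ p : ℕ × ℝ, p.1.Coprime d ∧ E d ≤ 2 * ‖ES w k X d p.1 p.2‖ := by
    intro d
    by_cases h : 1 ≤ d ∧ (d : ℝ) ≤ X ^ (1 / 50 : ℝ)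
    · rcases (hE0 d).eq_or_lt with h0 | h0
      · refine ⟨(1, 0), Nat.coprime_one_left d, ?_⟩
        rw [← h0]
        positivity
      · have h3 : E d = sSup (T d) := if_pos h
        have h4 : E d / 2 < sSup (T d) := by rw [← h3]; linarith
        obtain ⟨x, ⟨a, θ, ha, rfl⟩, hx⟩ := exists_lt_of_lt_csSup (hTne d) h4
        exact ⟨(a, θ), ha, by linarith⟩
    · have h3 : E d = 0 := if_neg h
      refine ⟨(1, 0), Nat.coprime_one_left d, ?_⟩
      rw [h3]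
      positivity
  choose p hp1 hp2 using hch
  refine ⟨E, hE0, hEge, ?_⟩
  -- the unweighted sum
  have hsum1 : ∑ d ∈ (Icc 1 N).filter Squarefree, E d ≤ 2 * (X / L ^ (2 * A + b ^ 2 + 6)) := by
    calc ∑ d ∈ (Icc 1 N).filter Squarefree, E d ≤ ∑ d ∈ Icc 1 N, E d :=
          Finset.sum_le_sum_of_subset_of_nonneg (Finset.filter_subset _ _) fun _ _ _ => hE0 _
      _ ≤ ∑ d ∈ Icc 1 N, 2 * ‖ES w k X d (p d).1 (p d).2‖ := Finset.sum_le_sum fun d _ => hp2 d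
      _ = 2 * ∑ d ∈ Icc 1 N, ‖ES w k X d (p d).1 (p d).2‖ := by rw [Finset.mul_sum]
      _ ≤ 2 * (X / L ^ (2 * A + b ^ 2 + 6)) :=
          mul_le_mul_of_nonneg_left (hX w k hP1 (fun d => (p d).1) (fun d => (p d).2) hp1) (by norm_num)
  -- the weighted trivial bound
  have hsum2 : ∑ q ∈ (Icc 1 N).filter Squarefree, ((b : ℝ) ^ q.primeFactors.card) ^ 2 * E q ≤
      X * L ^ 4 * L ^ (b ^ 2) := by
    have h1 : ∀ q ∈ (Icc 1 N).filter Squarefree, ((b : ℝ) ^ q.primeFactors.card) ^ 2 * E q ≤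
        X * L ^ 4 * (((b ^ 2 : ℕ) : ℝ) ^ q.primeFactors.card / q) := by
      intro q hq
      obtain ⟨hq1, hq2⟩ := Finset.mem_Icc.1 (Finset.mem_filter.1 hq).1
      have hqN : (q : ℝ) ≤ X ^ (1 / 50 : ℝ) := le_trans (by exact_mod_cast hq2) hNle
      calc ((b : ℝ) ^ q.primeFactors.card) ^ 2 * E q
          ≤ ((b : ℝ) ^ q.primeFactors.card) ^ 2 * (X / q * L ^ 4) :=
            mul_le_mul_of_nonneg_left (hEle q hq1 hqN) (by positivity)
        _ = _ := by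
            push_cast
            rw [← pow_mul, ← pow_mul, mul_comm 2]
            ring
    refine (Finset.sum_le_sum h1).trans ?_
    rw [← Finset.mul_sum]
    apply mul_le_mul_of_nonneg_left _ (by positivity)
    refine (sum_omega_le (b ^ 2) N hN1).trans ?_
    exact pow_le_pow_left₀ (by linarith) (by linarith) _
  -- Cauchy-Schwarz
  have hCS := Finset.sum_mul_sq_le_sq_mul_sq ((Icc 1 N).filter Squarefree)
    (fun q => (b : ℝ) ^ q.primeFactors.card * Real.sqrt (E q)) (fun q => Real.sqrt (E q))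
  have h1 : ∑ q ∈ (Icc 1 N).filter Squarefree,
      ((b : ℝ) ^ q.primeFactors.card * Real.sqrt (E q)) * Real.sqrt (E q) =
      ∑ q ∈ (Icc 1 N).filter Squarefree, (b : ℝ) ^ q.primeFactors.card * E q := by
    refine Finset.sum_congr rfl fun q _ => ?_
    rw [mul_assoc, Real.mul_self_sqrt (hE0 q)]
  have h2 : ∑ q ∈ (Icc 1 N).filter Squarefree,
      ((b : ℝ) ^ q.primeFactors.card * Real.sqrt (E q)) ^ 2 =
      ∑ q ∈ (Icc 1 N).filter Squarefree, ((b : ℝ) ^ q.primeFactors.card) ^ 2 * E q := by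
    refine Finset.sum_congr rfl fun q _ => ?_
    rw [mul_pow, Real.sq_sqrt (hE0 q)]
  have h3 : ∑ q ∈ (Icc 1 N).filter Squarefree, Real.sqrt (E q) ^ 2 =
      ∑ q ∈ (Icc 1 N).filter Squarefree, E q :=
    Finset.sum_congr rfl fun q _ => Real.sq_sqrt (hE0 q)
  rw [h1, h2, h3] at hCS
  have h4 : (∑ q ∈ (Icc 1 N).filter Squarefree, ((b : ℝ) ^ q.primeFactors.card) ^ 2 * E q) *
      (∑ q ∈ (Icc 1 N).filter Squarefree, E q) ≤
      X * L ^ 4 * L ^ (b ^ 2) * (2 * (X / L ^ (2 * A + b ^ 2 + 6))) :=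
    mul_le_mul hsum2 hsum1 (Finset.sum_nonneg fun q _ => hE0 q) (by positivity)
  have h5 : X * L ^ 4 * L ^ (b ^ 2) * (2 * (X / L ^ (2 * A + b ^ 2 + 6))) ≤
      (X / L ^ A) ^ 2 := by
    have h6 : L ^ (2 * A + b ^ 2 + 6) = L ^ A * L ^ A * L ^ (b ^ 2) * L ^ 4 * L * L := by
      ring
    rw [h6]
    have h7 : X * L ^ 4 * L ^ (b ^ 2) *
        (2 * (X / (L ^ A * L ^ A * L ^ (b ^ 2) * L ^ 4 * L * L))) = 2 / (L * L) * (X / L ^ A) ^ 2 := by
      field_simp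
    rw [h7]
    have h8 : 2 / (L * L) ≤ 1 := by
      rw [div_le_one (by positivity)]
      have := mul_le_mul hL14 hL14 (by norm_num) hLpos.le
      linarith
    have h9 : 0 ≤ (X / L ^ A) ^ 2 := sq_nonneg _
    exact mul_le_of_le_one_left h9 h8
  have h6 : (∑ q ∈ (Icc 1 N).filter Squarefree, (b : ℝ) ^ q.primeFactors.card * E q) ^ 2 ≤
      (X / L ^ A) ^ 2 := hCS.trans (h4.trans h5)
  exact le_of_sq_le_sq h6 (by positivity)

end Pool.Agent.GC.B
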