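import Pool.Agent.Lib.MP_0da313_nt.GC.M

set_option autoImplicit false

/-!
Project GC, section M, piece df: the difference of the primes and the model, on average over the moduli.
-/

namespace Pool.Agent.GC.M

open Finset Filter
open ArithmeticFunction (vonMangoldt)
open Pool.Agent.MP89da58 (tri primChars kapD)
open Pool.Agent.CH (thP)
open Pool.Agent.CM (wd mu)
open Pool.Agent.SP80 (ex mn)

private theorem gc_df_harm (D : ℕ) :
    ∑ d ∈ Icc 1 D, (1 : ℝ) / d ≤ 1 + Real.log D := by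
  have h := harmonic_le_one_add_log D
  have h2 : ((harmonic D : ℚ) : ℝ) = ∑ d ∈ Icc 1 D, (1 : ℝ) / d := by
    rw [harmonic_eq_sum_Icc]
    push_cast
    simp
  rw [← h2]
  exact h

private theorem gc_df_large (A : ℕ) : ∀ᶠ X : ℝ in atTop,
    1 ≤ X ∧ 8 ≤ Real.log X ∧
      X ^ (1 / 49 : ℝ) * (2 * Real.sqrt (3 * X) * Real.log (3 * X)) ≤
        X / (Real.log X) ^ A / 2 := by
  have h1 : ∀ᶠ X : ℝ in atTop, (8 : ℝ) ≤ Real.log X :=
    Real.tendsto_log_atTop.eventually_ge_atTop 8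
  have h2 : ∀ᶠ X : ℝ in atTop, (1 : ℝ) ≤ X := eventually_ge_atTop 1
  have h3 : (fun X : ℝ => Real.log X ^ ((A + 1 : ℕ) : ℝ)) =o[atTop] fun X : ℝ => X ^ (47 / 98 : ℝ) :=
    isLittleO_log_rpow_rpow_atTop _ (by norm_num)
  have h4 := h3.bound (show (0 : ℝ) < 1 / 16 by norm_num)
  filter_upwards [h1, h2, h4] with X hX1 hX2 hX4
  refine ⟨hX2, hX1, ?_⟩
  have hX0 : 0 < X := by linarith
  have hL0 : 0 < Real.log X := by linarith
  rw [Real.norm_of_nonneg (by positivity), Real.norm_of_nonneg (by positivity),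
    Real.rpow_natCast] at hX4
  have hs : Real.sqrt (3 * X) ≤ 2 * X ^ (1 / 2 : ℝ) := by
    rw [← Real.sqrt_eq_rpow]
    have : (2 : ℝ) * Real.sqrt X = Real.sqrt (4 * X) := by
      rw [Real.sqrt_mul (by norm_num)]
      have : Real.sqrt 4 = 2 := by
        rw [show (4 : ℝ) = 2 ^ 2 by norm_num, Real.sqrt_sq (by norm_num)]
      rw [this]
    rw [this]
    exact Real.sqrt_le_sqrt (by linarith)
  have hl3 : Real.log 3 ≤ 2 := by
    have := Real.log_le_sub_one_of_pos (show (0 : ℝ) < 3 by norm_num)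
    linarith
  have hl : Real.log (3 * X) ≤ 2 * Real.log X := by
    rw [Real.log_mul (by norm_num) hX0.ne']
    linarith
  have hl0 : 0 ≤ Real.log (3 * X) := Real.log_nonneg (by linarith)
  have e1 : X ^ (1 / 49 : ℝ) * X ^ (1 / 2 : ℝ) * X ^ (47 / 98 : ℝ) = X := by
    rw [← Real.rpow_add hX0, ← Real.rpow_add hX0]
    norm_num
  rw [div_div, le_div_iff₀ (by positivity)]
  calc X ^ (1 / 49 : ℝ) * (2 * Real.sqrt (3 * X) * Real.log (3 * X)) * ((Real.log X) ^ A * 2)
      ≤ X ^ (1 / 49 : ℝ) * (2 * (2 * X ^ (1 / 2 : ℝ)) * (2 * Real.log X)) *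
          ((Real.log X) ^ A * 2) := by
        gcongr
    _ = X ^ (1 / 49 : ℝ) * X ^ (1 / 2 : ℝ) * (16 * (Real.log X) ^ (A + 1)) := by ring
    _ ≤ X ^ (1 / 49 : ℝ) * X ^ (1 / 2 : ℝ) * X ^ (47 / 98 : ℝ) := by
        apply mul_le_mul_of_nonneg_left _ (by positivity)
        linarith
    _ = X := e1

private theorem gc_df_ex (x : ℝ) : ‖ex x‖ = 1 := by
  unfold ex
  exact Complex.norm_exp_ofReal_mul_I _

private theorem gc_df_wd (lam X : ℝ) (n : ℕ) : 0 ≤ wd lam X n ∧ wd lam X n ≤ 1 := by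
  unfold wd tri
  constructor
  · exact le_max_left _ _
  · apply max_le (by norm_num)
    have := abs_nonneg (lam * Real.log (n / X))
    linarith

private theorem gc_df_th (t : ℕ) : thP t ≤ vonMangoldt t := by
  unfold thP
  split_ifs with h
  · rw [ArithmeticFunction.vonMangoldt_apply_prime h]
  · exact ArithmeticFunction.vonMangoldt_nonneg

private theorem gc_df_sum (X : ℝ) (hX : 1 ≤ X) :
    ∑ t ∈ Icc 1 ⌊3 * X⌋₊, (vonMangoldt t - thP t) ≤
      2 * Real.sqrt (3 * X) * Real.log (3 * X) := by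
  have h := Chebyshev.abs_psi_sub_theta_le_sqrt_mul_log (x := 3 * X) (by linarith)
  have h1 := (abs_le.1 h).2
  have e1 : Chebyshev.psi (3 * X) = ∑ t ∈ Icc 1 ⌊3 * X⌋₊, vonMangoldt t := rfl
  have e2 : Chebyshev.theta (3 * X) = ∑ t ∈ Icc 1 ⌊3 * X⌋₊, thP t := by
    unfold Chebyshev.theta thP
    rw [Finset.sum_filter]
    rfl
  rw [Finset.sum_sub_distrib, ← e1, ← e2]
  exact h1

/-- The difference of the primes and the model, on average over the moduli. -/
theorem p_df : S_df := by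
  intro hbL hhf A B
  obtain ⟨K0, hK0⟩ := hhf (A + 2) B
  refine ⟨K0, ?_⟩
  filter_upwards [hbL (A + 1) B, hK0, gc_df_large A] with X hb hh hlarge w k hPm lam hlam a q b ha hq
  obtain ⟨hX1, hL8, hbig⟩ := hlarge
  have hX0 : 0 < X := by linarith
  have hL0 : 0 < Real.log X := by linarith
  set D : ℕ := ⌊X ^ (1 / 49 : ℝ)⌋₊ with hD
  set L : ℝ := Real.log X with hL
  have hDX : (D : ℝ) ≤ X ^ (1 / 49 : ℝ) := Nat.floor_le (by positivity)
  have hb' := hb lam hlam a q b ha hq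
  set S : ℕ → Finset ℕ := fun d => (Icc 1 ⌊3 * X⌋₊).filter (fun t => t ≡ a d [MOD d]) with hS
  -- each modulus
  have hone : ∀ d ∈ Icc 1 D, ‖∑ t ∈ S d,
      ((thP t - HH w k t : ℝ) : ℂ) * ex ((b d : ℝ) * t / ((d : ℝ) ^ 2 * q d)) * (wd lam X t : ℂ)‖ ≤
      ‖∑ t ∈ S d, (vonMangoldt t : ℂ) * ex ((b d : ℝ) * t / ((d : ℝ) ^ 2 * q d)) * (wd lam X t : ℂ) -
        ((mu lam * X : ℝ) : ℂ) / (Nat.totient (d ^ 2 * q d) : ℂ) * GG d (q d) (a d) (b d)‖ +
      X / d / L ^ (A + 2) + 2 * Real.sqrt (3 * X) * Real.log (3 * X) := by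
    intro d hd
    rw [Finset.mem_Icc] at hd
    have hdX : (d : ℝ) ≤ X ^ (1 / 49 : ℝ) := by
      have : (d : ℝ) ≤ D := by exact_mod_cast hd.2
      linarith
    have h1 := hh w k hPm lam hlam d (q d) (a d) (b d) hd.1 hdX (hq d).1 (hq d).2 (ha d)
    set M : ℂ := ((mu lam * X : ℝ) : ℂ) / (Nat.totient (d ^ 2 * q d) : ℂ) * GG d (q d) (a d) (b d)
      with hM
    have h3 : ‖∑ t ∈ S d, ((vonMangoldt t - thP t : ℝ) : ℂ) *
        ex ((b d : ℝ) * t / ((d : ℝ) ^ 2 * q d)) * (wd lam X t : ℂ)‖ ≤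
        2 * Real.sqrt (3 * X) * Real.log (3 * X) := by
      calc ‖∑ t ∈ S d, ((vonMangoldt t - thP t : ℝ) : ℂ) *
            ex ((b d : ℝ) * t / ((d : ℝ) ^ 2 * q d)) * (wd lam X t : ℂ)‖
          ≤ ∑ t ∈ S d, (vonMangoldt t - thP t) := by
            refine (norm_sum_le _ _).trans (Finset.sum_le_sum fun t _ => ?_)
            have h4 : 0 ≤ vonMangoldt t - thP t := by linarith [gc_df_th t]
            obtain ⟨h5, h6⟩ := gc_df_wd lam X t
            rw [norm_mul, norm_mul, gc_df_ex, mul_one, Complex.norm_of_nonneg h4,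
              Complex.norm_of_nonneg h5]
            nlinarith
        _ ≤ ∑ t ∈ Icc 1 ⌊3 * X⌋₊, (vonMangoldt t - thP t) := by
            apply Finset.sum_le_sum_of_subset_of_nonneg (Finset.filter_subset _ _)
            intro t _ _
            linarith [gc_df_th t]
        _ ≤ _ := gc_df_sum X hX1
    have hdec : ∑ t ∈ S d,
        ((thP t - HH w k t : ℝ) : ℂ) * ex ((b d : ℝ) * t / ((d : ℝ) ^ 2 * q d)) * (wd lam X t : ℂ) =
        (∑ t ∈ S d, (vonMangoldt t : ℂ) * ex ((b d : ℝ) * t / ((d : ℝ) ^ 2 * q d)) *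
          (wd lam X t : ℂ) - M) -
        (∑ t ∈ S d, (HH w k t : ℂ) * ex ((b d : ℝ) * t / ((d : ℝ) ^ 2 * q d)) *
          (wd lam X t : ℂ) - M) -
        ∑ t ∈ S d, ((vonMangoldt t - thP t : ℝ) : ℂ) *
          ex ((b d : ℝ) * t / ((d : ℝ) ^ 2 * q d)) * (wd lam X t : ℂ) := by
      rw [sub_sub_sub_cancel_right, ← Finset.sum_sub_distrib, ← Finset.sum_sub_distrib]
      refine Finset.sum_congr rfl fun t _ => ?_
      push_cast
      ring
    rw [hdec]
    refine (norm_sub_le _ _).trans ?_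
    refine add_le_add ((norm_sub_le _ _).trans ?_) h3
    exact add_le_add le_rfl h1
  have hsum := Finset.sum_le_sum hone
  refine hsum.trans ?_
  rw [Finset.sum_add_distrib, Finset.sum_add_distrib, Finset.sum_const, Nat.card_Icc,
    Nat.add_sub_cancel, nsmul_eq_mul]
  -- the three parts
  have hLA : 0 < L ^ A := by positivity
  have p1 : X / L ^ (A + 1) ≤ X / L ^ A / 8 := by
    rw [div_div]
    apply div_le_div_of_nonneg_left hX0.le (by positivity)
    rw [pow_succ]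
    exact mul_le_mul_of_nonneg_left hL8 hLA.le
  have p2 : ∑ d ∈ Icc 1 D, X / (d : ℝ) / L ^ (A + 2) ≤ X / L ^ A / 4 := by
    have e1 : ∑ d ∈ Icc 1 D, X / (d : ℝ) / L ^ (A + 2) =
        X / L ^ (A + 2) * ∑ d ∈ Icc 1 D, (1 : ℝ) / d := by
      rw [Finset.mul_sum]
      refine Finset.sum_congr rfl fun d _ => ?_
      ring
    have e2 : Real.log D ≤ L := by
      rcases Nat.eq_zero_or_pos D with h0 | h0
      · rw [h0, Nat.cast_zero, Real.log_zero]
        exact hL0.le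
      · have hD0 : (0 : ℝ) < D := by exact_mod_cast h0
        apply Real.log_le_log hD0
        refine hDX.trans ?_
        calc X ^ (1 / 49 : ℝ) ≤ X ^ (1 : ℝ) := Real.rpow_le_rpow_of_exponent_le hX1 (by norm_num)
          _ = X := Real.rpow_one X
    have e3 : ∑ d ∈ Icc 1 D, (1 : ℝ) / d ≤ 2 * L := by
      have := gc_df_harm D
      linarith
    rw [e1]
    calc X / L ^ (A + 2) * ∑ d ∈ Icc 1 D, (1 : ℝ) / d ≤ X / L ^ (A + 2) * (2 * L) :=
          mul_le_mul_of_nonneg_left e3 (by positivity)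
      _ = 2 * (X / L ^ (A + 1)) := by
          rw [pow_succ L (A + 1)]
          field_simp
      _ ≤ X / L ^ A / 4 := by linarith
  have p3 : (D : ℝ) * (2 * Real.sqrt (3 * X) * Real.log (3 * X)) ≤ X / L ^ A / 2 := by
    refine le_trans ?_ hbig
    apply mul_le_mul_of_nonneg_right hDX
    have : 0 ≤ Real.log (3 * X) := Real.log_nonneg (by linarith)
    positivity
  have hpos : 0 < X / L ^ A := by positivity
  linarith

end Pool.Agent.GC.M
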