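import Pool.Agent.Lib.MP_0da313_nt.GC.E

set_option autoImplicit false

namespace Pool.Agent.GC.E

open Finset
open Pool.Agent.SP80 (ex mn SW1 SW3)

private lemma gc_t2_ex_mul_conj (x y : ℝ) :
    ex x * (starRingEnd ℂ) (ex y) = ex (x - y) := by
  unfold ex
  rw [← Complex.exp_conj, map_mul, Complex.conj_I, Complex.conj_ofReal, ← Complex.exp_add]
  congr 1
  push_cast
  ring

/-- The matrix. -/
private noncomputable def gc_t2_A (d a Y : ℕ) (θ : ℝ) (m l : ℕ) : ℂ :=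
  if m * l ≡ a [MOD d] ∧ m * l ≤ Y then ex (θ * ((m * l : ℕ) : ℝ)) else 0

/-- The bound. -/
private noncomputable def gc_t2_F (d M : ℕ) (θ : ℝ) (t : ℕ) : ℝ :=
  if d ∣ t then mn ((M : ℝ) / d + 1) (((t / d : ℕ) : ℝ) * ((d : ℝ) ^ 2 * θ)) else 0

private lemma gc_t2_F_nonneg (hnn : ∀ H x : ℝ, 0 ≤ H → 0 ≤ mn H x) (d M : ℕ) (θ : ℝ) (t : ℕ) :
    0 ≤ gc_t2_F d M θ t := by
  unfold gc_t2_F
  split_ifs
  · exact hnn _ _ (by positivity)
  · exact le_rfl

private lemma gc_t2_K1 (hap : R_ap) (hnn : ∀ H x : ℝ, 0 ≤ H → 0 ≤ mn H x) (d a M Y l l' : ℕ)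
    (θ : ℝ) (hd : 1 ≤ d) (ha : a.Coprime d) (hl' : 0 < l') (hll : l' ≤ l) :
    ‖∑ m ∈ Ioc M (2 * M), gc_t2_A d a Y θ m l * (starRingEnd ℂ) (gc_t2_A d a Y θ m l')‖
      ≤ gc_t2_F d M θ ((l - l') + (l' - l)) := by
  have hl : 0 < l := lt_of_lt_of_le hl' hll
  by_cases hex : ∃ m0 ∈ Ioc M (2 * M), (m0 * l ≡ a [MOD d] ∧ m0 * l ≤ Y) ∧
      (m0 * l' ≡ a [MOD d] ∧ m0 * l' ≤ Y)
  · obtain ⟨m0, hm0, ⟨h1, h2⟩, h3, h4⟩ := hex
    have hcop : (m0 * l).Coprime d := by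
      unfold Nat.Coprime
      rw [h1.gcd_eq]
      exact ha
    have hm0d : m0.Coprime d := Nat.Coprime.coprime_mul_right hcop
    have hld : l.Coprime d := Nat.Coprime.coprime_mul_left hcop
    have hmod : l' ≡ l [MOD d] := by
      apply Nat.ModEq.cancel_left_of_coprime (c := m0) hm0d.symm
      exact h3.trans h1.symm
    have hdvd : d ∣ l - l' := (Nat.modEq_iff_dvd' hll).1 hmod
    obtain ⟨k, hk⟩ := hdvd
    have hsum : ∑ m ∈ Ioc M (2 * M), gc_t2_A d a Y θ m l * (starRingEnd ℂ) (gc_t2_A d a Y θ m l')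
        = ∑ m ∈ (Ioc M (min (2 * M) (Y / l))).filter (fun m => m ≡ m0 [MOD d]),
            ex ((θ * ((l : ℝ) - l')) * m) := by
      have hS : (Ioc M (min (2 * M) (Y / l))).filter (fun m => m ≡ m0 [MOD d])
          = (Ioc M (2 * M)).filter (fun m => m ≡ m0 [MOD d] ∧ m ≤ Y / l) := by
        ext m
        simp only [mem_filter, mem_Ioc, le_min_iff]
        tauto
      rw [hS, sum_filter]
      refine sum_congr rfl fun m _ => ?_
      by_cases hc : m ≡ m0 [MOD d] ∧ m ≤ Y / l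
      · obtain ⟨c1, c2⟩ := hc
        have e1 : m * l ≡ a [MOD d] := (c1.mul_right l).trans h1
        have e2 : m * l ≤ Y := (Nat.le_div_iff_mul_le hl).1 c2
        have e3 : m * l' ≡ a [MOD d] := (c1.mul_right l').trans h3
        have e4 : m * l' ≤ Y := le_trans (Nat.mul_le_mul_left m hll) e2
        rw [if_pos ⟨c1, c2⟩]
        unfold gc_t2_A
        rw [if_pos ⟨e1, e2⟩, if_pos ⟨e3, e4⟩, gc_t2_ex_mul_conj]
        congr 1
        push_cast
        ring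
      · rw [if_neg hc]
        have : ¬ (m * l ≡ a [MOD d] ∧ m * l ≤ Y) := by
          rintro ⟨e1, e2⟩
          apply hc
          refine ⟨?_, (Nat.le_div_iff_mul_le hl).2 e2⟩
          exact Nat.ModEq.cancel_right_of_coprime hld.symm (e1.trans h1.symm)
        unfold gc_t2_A
        rw [if_neg this, zero_mul]
    rw [hsum]
    have hvM : M ≤ min (2 * M) (Y / l) := by
      rw [mem_Ioc] at hm0
      exact le_min (by omega) (le_trans hm0.1.le ((Nat.le_div_iff_mul_le hl).2 h2))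
    have hle : (((min (2 * M) (Y / l) : ℕ) : ℝ) - (M : ℕ)) / d + 1 ≤ (M : ℝ) / d + 1 := by
      have h5 : ((min (2 * M) (Y / l) : ℕ) : ℝ) ≤ 2 * M := by
        have : min (2 * M) (Y / l) ≤ 2 * M := min_le_left _ _
        exact_mod_cast this
      have hd0 : (0 : ℝ) < d := by exact_mod_cast hd
      have : (((min (2 * M) (Y / l) : ℕ) : ℝ) - (M : ℕ)) / d ≤ (M : ℝ) / d := by
        apply div_le_div_of_nonneg_right _ hd0.le
        linarith
      linarith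
    have hmain := hap d m0 M (min (2 * M) (Y / l)) (θ * ((l : ℝ) - l')) ((M : ℝ) / d + 1) hd
      (by positivity) hle
    refine le_trans hmain (le_of_eq ?_)
    have h6 : (l - l') + (l' - l) = d * k := by omega
    unfold gc_t2_F
    rw [h6, if_pos (Dvd.intro k rfl), Nat.mul_div_cancel_left k (by omega)]
    congr 1
    have h7 : (l : ℝ) - l' = d * k := by
      have : (l : ℝ) = l' + d * k := by
        have : l = l' + d * k := by omega
        exact_mod_cast this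
      linarith
    rw [h7]
    ring
  · have h0 : ∑ m ∈ Ioc M (2 * M),
        gc_t2_A d a Y θ m l * (starRingEnd ℂ) (gc_t2_A d a Y θ m l') = 0 := by
      refine sum_eq_zero fun m hm => ?_
      by_cases c1 : m * l ≡ a [MOD d] ∧ m * l ≤ Y
      · by_cases c2 : m * l' ≡ a [MOD d] ∧ m * l' ≤ Y
        · exact absurd ⟨m, hm, c1, c2⟩ hex
        · unfold gc_t2_A
          rw [if_neg c2, map_zero, mul_zero]
      · unfold gc_t2_A
        rw [if_neg c1, zero_mul]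
    rw [h0, norm_zero]
    exact gc_t2_F_nonneg hnn d M θ _

private lemma gc_t2_K (hap : R_ap) (hnn : ∀ H x : ℝ, 0 ≤ H → 0 ≤ mn H x) (d a M Y l l' : ℕ)
    (θ : ℝ) (hd : 1 ≤ d) (ha : a.Coprime d) (hl : 0 < l) (hl' : 0 < l') :
    ‖∑ m ∈ Ioc M (2 * M), gc_t2_A d a Y θ m l * (starRingEnd ℂ) (gc_t2_A d a Y θ m l')‖
      ≤ gc_t2_F d M θ ((l - l') + (l' - l)) := by
  rcases le_total l' l with h | h
  · exact gc_t2_K1 hap hnn d a M Y l l' θ hd ha hl' h
  · have h1 := gc_t2_K1 hap hnn d a M Y l' l θ hd ha hl h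
    have h2 : ∑ m ∈ Ioc M (2 * M), gc_t2_A d a Y θ m l * (starRingEnd ℂ) (gc_t2_A d a Y θ m l')
        = (starRingEnd ℂ) (∑ m ∈ Ioc M (2 * M),
            gc_t2_A d a Y θ m l' * (starRingEnd ℂ) (gc_t2_A d a Y θ m l)) := by
      rw [map_sum]
      refine sum_congr rfl fun m _ => ?_
      rw [map_mul, Complex.conj_conj, mul_comm]
    rw [h2, RCLike.norm_conj, Nat.add_comm]
    exact h1

private lemma gc_t2_sumF (F : ℕ → ℝ) (hF : ∀ t, 0 ≤ F t) (L l : ℕ) (hl : l ∈ Ioc L (2 * L)) :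
    ∑ l' ∈ Ioc L (2 * L), F ((l - l') + (l' - l)) ≤ F 0 + 2 * ∑ t ∈ Icc 1 L, F t := by
  rw [mem_Ioc] at hl
  have h1 : ∑ l' ∈ Ioc L (2 * L), F ((l - l') + (l' - l))
      = ∑ l' ∈ (Ioc L (2 * L)).filter (fun l' => l' = l), F ((l - l') + (l' - l))
        + (∑ l' ∈ (Ioc L (2 * L)).filter (fun l' => l' < l), F ((l - l') + (l' - l))
        + ∑ l' ∈ (Ioc L (2 * L)).filter (fun l' => l < l'), F ((l - l') + (l' - l))) := by
    rw [← sum_union, ← sum_union]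
    · refine sum_congr ?_ fun _ _ => rfl
      ext l'
      simp only [mem_union, mem_filter]
      constructor
      · intro h
        rcases lt_trichotomy l' l with h2 | h2 | h2
        · exact Or.inr (Or.inl ⟨h, h2⟩)
        · exact Or.inl ⟨h, h2⟩
        · exact Or.inr (Or.inr ⟨h, h2⟩)
      · rintro (h | h | h) <;> exact h.1
    · rw [disjoint_left]
      intro x hx hy
      simp only [mem_union, mem_filter] at hx hy
      omega
    · rw [disjoint_left]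
      intro x hx hy
      simp only [mem_filter] at hx hy
      omega
  have h2 : ∑ l' ∈ (Ioc L (2 * L)).filter (fun l' => l' = l), F ((l - l') + (l' - l)) ≤ F 0 := by
    have : (Ioc L (2 * L)).filter (fun l' => l' = l) = {l} := by
      ext x
      simp only [mem_filter, mem_Ioc, mem_singleton]
      constructor
      · exact fun h => h.2
      · rintro rfl
        exact ⟨hl, rfl⟩
    rw [this, sum_singleton]
    simp
  have h3 : ∑ l' ∈ (Ioc L (2 * L)).filter (fun l' => l' < l), F ((l - l') + (l' - l))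
      ≤ ∑ t ∈ Icc 1 L, F t := by
    have e : ∑ l' ∈ (Ioc L (2 * L)).filter (fun l' => l' < l), F ((l - l') + (l' - l))
        = ∑ t ∈ ((Ioc L (2 * L)).filter (fun l' => l' < l)).image (fun l' => l - l'), F t := by
      rw [sum_image]
      · refine sum_congr rfl fun x hx => ?_
        simp only [mem_filter] at hx
        congr 1
        omega
      · intro x hx y hy hxy
        simp only [coe_filter, Set.mem_setOf_eq] at hx hy
        simp only at hxy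
        omega
    rw [e]
    apply sum_le_sum_of_subset_of_nonneg
    · intro t ht
      simp only [mem_image, mem_filter, mem_Ioc] at ht
      obtain ⟨x, hx, rfl⟩ := ht
      rw [mem_Icc]
      omega
    · intro t _ _
      exact hF t
  have h4 : ∑ l' ∈ (Ioc L (2 * L)).filter (fun l' => l < l'), F ((l - l') + (l' - l))
      ≤ ∑ t ∈ Icc 1 L, F t := by
    have e : ∑ l' ∈ (Ioc L (2 * L)).filter (fun l' => l < l'), F ((l - l') + (l' - l))
        = ∑ t ∈ ((Ioc L (2 * L)).filter (fun l' => l < l')).image (fun l' => l' - l), F t := by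
      rw [sum_image]
      · refine sum_congr rfl fun x hx => ?_
        simp only [mem_filter] at hx
        congr 1
        omega
      · intro x hx y hy hxy
        simp only [coe_filter, Set.mem_setOf_eq] at hx hy
        simp only at hxy
        omega
    rw [e]
    apply sum_le_sum_of_subset_of_nonneg
    · intro t ht
      simp only [mem_image, mem_filter, mem_Ioc] at ht
      obtain ⟨x, hx, rfl⟩ := ht
      rw [mem_Icc]
      omega
    · intro t _ _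
      exact hF t
  rw [h1]
  linarith

private lemma gc_t2_sumdvd (g : ℕ → ℝ) (hg : ∀ t, 0 ≤ g t) (d L : ℕ) (hd : 1 ≤ d) :
    ∑ t ∈ Icc 1 L, (if d ∣ t then g (t / d) else 0) ≤ ∑ k ∈ Icc 1 (L / d), g k := by
  rw [← sum_filter]
  have e : ∑ t ∈ (Icc 1 L).filter (fun t => d ∣ t), g (t / d)
      = ∑ k ∈ ((Icc 1 L).filter (fun t => d ∣ t)).image (fun t => t / d), g k := by
    rw [sum_image]
    intro x hx y hy hxy
    simp only [coe_filter, Set.mem_setOf_eq] at hx hy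
    simp only at hxy
    rw [← Nat.div_mul_cancel hx.2, ← Nat.div_mul_cancel hy.2, hxy]
  rw [e]
  apply sum_le_sum_of_subset_of_nonneg
  · intro k hk
    simp only [mem_image, mem_filter, mem_Icc] at hk
    obtain ⟨x, ⟨hx, hdx⟩, rfl⟩ := hk
    rw [mem_Icc]
    refine ⟨?_, Nat.div_le_div_right hx.2⟩
    exact Nat.div_pos (Nat.le_of_dvd (by omega) hdx) (by omega)
  · intro k _ _
    exact hg k

private lemma gc_t2_row (hnn : ∀ H x : ℝ, 0 ≤ H → 0 ≤ mn H x) (hsw : SW3)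
    (d q M L : ℕ) (θ : ℝ) (h : ℤ) (hd : 1 ≤ d) (hq : 0 < q) (hc : IsCoprime h (q : ℤ))
    (hθ : |(d : ℝ) ^ 2 * θ - h / q| ≤ 1 / (q : ℝ) ^ 2) (l : ℕ) (hl : l ∈ Ioc L (2 * L)) :
    ∑ l' ∈ Ioc L (2 * L), gc_t2_F d M θ ((l - l') + (l' - l))
      ≤ 13 * ((L : ℝ) / (d * q) + 1) * ((M : ℝ) / d + 1 + q * (1 + Real.log q)) := by
  have hH : (0 : ℝ) ≤ (M : ℝ) / d + 1 := by positivity
  have h1 := gc_t2_sumF (gc_t2_F d M θ) (gc_t2_F_nonneg hnn d M θ) L l hl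
  have h2 : ∑ t ∈ Icc 1 L, gc_t2_F d M θ t
      ≤ ∑ k ∈ Icc 1 (L / d), mn ((M : ℝ) / d + 1) ((k : ℝ) * ((d : ℝ) ^ 2 * θ)) :=
    gc_t2_sumdvd (fun k => mn ((M : ℝ) / d + 1) ((k : ℝ) * ((d : ℝ) ^ 2 * θ)))
      (fun k => hnn _ _ hH) d L hd
  have h3 := hsw ((d : ℝ) ^ 2 * θ) h q (L / d) ((M : ℝ) / d + 1) hq hc hθ hH
  have h4 : gc_t2_F d M θ 0 = (M : ℝ) / d + 1 := by
    unfold gc_t2_F mn
    simp
  have hq1 : (1 : ℝ) ≤ q := by exact_mod_cast hq
  have hlog : 0 ≤ Real.log q := Real.log_nonneg hq1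
  have hd0 : (0 : ℝ) < d := by exact_mod_cast hd
  have hq0 : (0 : ℝ) < q := by linarith
  have h5 : (((L / d : ℕ) : ℝ)) / q ≤ (L : ℝ) / (d * q) := by
    rw [div_mul_eq_div_div]
    apply div_le_div_of_nonneg_right _ hq0.le
    exact Nat.cast_div_le
  set Z : ℝ := (M : ℝ) / d + 1 + q * (1 + Real.log q) with hZ
  have hZ0 : (M : ℝ) / d + 1 ≤ Z := by
    have : 0 ≤ (q : ℝ) * (1 + Real.log q) := by positivity
    linarith
  have hZ1 : 0 ≤ Z := le_trans hH hZ0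
  have h6 : 6 * ((((L / d : ℕ) : ℝ)) / q + 1) * Z ≤ 6 * ((L : ℝ) / (d * q) + 1) * Z := by
    apply mul_le_mul_of_nonneg_right _ hZ1
    linarith
  have h7 : Z ≤ ((L : ℝ) / (d * q) + 1) * Z := by
    have : 0 ≤ (L : ℝ) / (d * q) * Z := by positivity
    linarith
  calc ∑ l' ∈ Ioc L (2 * L), gc_t2_F d M θ ((l - l') + (l' - l))
      ≤ gc_t2_F d M θ 0 + 2 * ∑ t ∈ Icc 1 L, gc_t2_F d M θ t := h1
    _ ≤ Z + 2 * (6 * ((L : ℝ) / (d * q) + 1) * Z) := by
        rw [h4]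
        linarith
    _ ≤ ((L : ℝ) / (d * q) + 1) * Z + 2 * (6 * ((L : ℝ) / (d * q) + 1) * Z) := by linarith
    _ = 13 * ((L : ℝ) / (d * q) + 1) * Z := by ring

theorem p_t2 : S_t2 := by
  intro hap hmin hsw d a q M L Y θ h α β hd ha hq hc hθ
  have hnn : ∀ H x : ℝ, 0 ≤ H → 0 ≤ mn H x := fun H x hH => (hmin.2.1 H H x hH le_rfl).1
  set C : ℝ := 13 * ((L : ℝ) / (d * q) + 1) * ((M : ℝ) / d + 1 + q * (1 + Real.log q)) with hC
  have hq1 : (1 : ℝ) ≤ q := by exact_mod_cast hq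
  have hlog : 0 ≤ Real.log q := Real.log_nonneg hq1
  have hC0 : 0 ≤ C := by positivity
  set B : ℕ → ℂ := fun m => ∑ l ∈ Ioc L (2 * L), β l * gc_t2_A d a Y θ m l with hB
  have e1 : ∑ m ∈ Ioc M (2 * M), ∑ l ∈ Ioc L (2 * L), (if m * l ≡ a [MOD d] ∧ m * l ≤ Y then
      α m * β l * ex (θ * ((m * l : ℕ) : ℝ)) else 0) = ∑ m ∈ Ioc M (2 * M), α m * B m := by
    refine sum_congr rfl fun m _ => ?_
    rw [hB]
    simp only
    rw [mul_sum]
    refine sum_congr rfl fun l _ => ?_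
    unfold gc_t2_A
    split_ifs
    · ring
    · simp
  rw [e1]
  have e2 : ‖∑ m ∈ Ioc M (2 * M), α m * B m‖ ^ 2
      ≤ (∑ m ∈ Ioc M (2 * M), ‖α m‖ ^ 2) * ∑ m ∈ Ioc M (2 * M), ‖B m‖ ^ 2 := by
    have h1 : ‖∑ m ∈ Ioc M (2 * M), α m * B m‖ ≤ ∑ m ∈ Ioc M (2 * M), ‖α m‖ * ‖B m‖ := by
      refine le_trans (norm_sum_le _ _) (le_of_eq ?_)
      exact sum_congr rfl fun m _ => norm_mul _ _
    calc ‖∑ m ∈ Ioc M (2 * M), α m * B m‖ ^ 2
        ≤ (∑ m ∈ Ioc M (2 * M), ‖α m‖ * ‖B m‖) ^ 2 :=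
          pow_le_pow_left₀ (norm_nonneg _) h1 2
      _ ≤ _ := sum_mul_sq_le_sq_mul_sq _ _ _
  have e3 : ((∑ m ∈ Ioc M (2 * M), ‖B m‖ ^ 2 : ℝ) : ℂ)
      = ∑ l ∈ Ioc L (2 * L), ∑ l' ∈ Ioc L (2 * L), β l * (starRingEnd ℂ) (β l') *
        ∑ m ∈ Ioc M (2 * M), gc_t2_A d a Y θ m l * (starRingEnd ℂ) (gc_t2_A d a Y θ m l') := by
    rw [Complex.ofReal_sum]
    have h1 : ∀ m ∈ Ioc M (2 * M), ((‖B m‖ ^ 2 : ℝ) : ℂ)
        = ∑ l ∈ Ioc L (2 * L), ∑ l' ∈ Ioc L (2 * L), β l * (starRingEnd ℂ) (β l') *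
          (gc_t2_A d a Y θ m l * (starRingEnd ℂ) (gc_t2_A d a Y θ m l')) := by
      intro m _
      have h2 : ((‖B m‖ ^ 2 : ℝ) : ℂ) = B m * (starRingEnd ℂ) (B m) := by
        rw [Complex.mul_conj, Complex.normSq_eq_norm_sq]
      rw [h2, hB]
      simp only
      rw [map_sum, sum_mul_sum]
      refine sum_congr rfl fun l _ => sum_congr rfl fun l' _ => ?_
      rw [map_mul]
      ring
    rw [sum_congr rfl h1, sum_comm]
    refine sum_congr rfl fun l _ => ?_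
    rw [sum_comm]
    refine sum_congr rfl fun l' _ => ?_
    rw [mul_sum]
  have e4 : ∑ m ∈ Ioc M (2 * M), ‖B m‖ ^ 2 ≤ C * ∑ l ∈ Ioc L (2 * L), ‖β l‖ ^ 2 := by
    have h0 : 0 ≤ ∑ m ∈ Ioc M (2 * M), ‖B m‖ ^ 2 := sum_nonneg fun _ _ => by positivity
    have h1 : ∑ m ∈ Ioc M (2 * M), ‖B m‖ ^ 2
        = ‖((∑ m ∈ Ioc M (2 * M), ‖B m‖ ^ 2 : ℝ) : ℂ)‖ := by
      rw [Complex.norm_real, Real.norm_of_nonneg h0]
    have h2 : ‖((∑ m ∈ Ioc M (2 * M), ‖B m‖ ^ 2 : ℝ) : ℂ)‖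
        ≤ ∑ l ∈ Ioc L (2 * L), ∑ l' ∈ Ioc L (2 * L),
          ((‖β l‖ ^ 2 + ‖β l'‖ ^ 2) / 2) * gc_t2_F d M θ ((l - l') + (l' - l)) := by
      rw [e3]
      refine le_trans (norm_sum_le _ _) (sum_le_sum fun l hl => ?_)
      refine le_trans (norm_sum_le _ _) (sum_le_sum fun l' hl' => ?_)
      rw [norm_mul, norm_mul, RCLike.norm_conj]
      rw [mem_Ioc] at hl hl'
      have h3 := gc_t2_K hap hnn d a M Y l l' θ hd ha (by omega) (by omega)
      have h4 : ‖β l‖ * ‖β l'‖ ≤ (‖β l‖ ^ 2 + ‖β l'‖ ^ 2) / 2 := by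
        nlinarith [sq_nonneg (‖β l‖ - ‖β l'‖)]
      exact mul_le_mul h4 h3 (norm_nonneg _) (by positivity)
    have h3 : ∑ l ∈ Ioc L (2 * L), ∑ l' ∈ Ioc L (2 * L),
          ((‖β l‖ ^ 2 + ‖β l'‖ ^ 2) / 2) * gc_t2_F d M θ ((l - l') + (l' - l))
        = ∑ l ∈ Ioc L (2 * L), ‖β l‖ ^ 2 *
            ∑ l' ∈ Ioc L (2 * L), gc_t2_F d M θ ((l - l') + (l' - l)) := by
      have h4 : ∑ l ∈ Ioc L (2 * L), ∑ l' ∈ Ioc L (2 * L),
          ‖β l'‖ ^ 2 * gc_t2_F d M θ ((l - l') + (l' - l))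
          = ∑ l ∈ Ioc L (2 * L), ∑ l' ∈ Ioc L (2 * L),
          ‖β l‖ ^ 2 * gc_t2_F d M θ ((l - l') + (l' - l)) := by
        rw [sum_comm]
        refine sum_congr rfl fun l _ => sum_congr rfl fun l' _ => ?_
        rw [Nat.add_comm]
      calc ∑ l ∈ Ioc L (2 * L), ∑ l' ∈ Ioc L (2 * L),
          ((‖β l‖ ^ 2 + ‖β l'‖ ^ 2) / 2) * gc_t2_F d M θ ((l - l') + (l' - l))
          = (∑ l ∈ Ioc L (2 * L), ∑ l' ∈ Ioc L (2 * L),
              ‖β l‖ ^ 2 * gc_t2_F d M θ ((l - l') + (l' - l))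
            + ∑ l ∈ Ioc L (2 * L), ∑ l' ∈ Ioc L (2 * L),
              ‖β l'‖ ^ 2 * gc_t2_F d M θ ((l - l') + (l' - l))) / 2 := by
            rw [← sum_add_distrib, sum_div]
            refine sum_congr rfl fun l _ => ?_
            rw [← sum_add_distrib, sum_div]
            refine sum_congr rfl fun l' _ => ?_
            ring
        _ = ∑ l ∈ Ioc L (2 * L), ∑ l' ∈ Ioc L (2 * L),
              ‖β l‖ ^ 2 * gc_t2_F d M θ ((l - l') + (l' - l)) := by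
            rw [h4]
            ring
        _ = _ := by
            refine sum_congr rfl fun l _ => ?_
            rw [mul_sum]
    rw [h1]
    refine le_trans h2 ?_
    rw [h3, mul_sum]
    refine sum_le_sum fun l hl => ?_
    rw [mul_comm C]
    apply mul_le_mul_of_nonneg_left _ (by positivity)
    exact gc_t2_row hnn hsw d q M L θ h hd hq hc hθ l hl
  calc ‖∑ m ∈ Ioc M (2 * M), α m * B m‖ ^ 2
      ≤ (∑ m ∈ Ioc M (2 * M), ‖α m‖ ^ 2) * ∑ m ∈ Ioc M (2 * M), ‖B m‖ ^ 2 := e2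
    _ ≤ (∑ m ∈ Ioc M (2 * M), ‖α m‖ ^ 2) * (C * ∑ l ∈ Ioc L (2 * L), ‖β l‖ ^ 2) := by
        apply mul_le_mul_of_nonneg_left e4
        exact sum_nonneg fun _ _ => by positivity
    _ = C * ((∑ m ∈ Ioc M (2 * M), ‖α m‖ ^ 2) * ∑ l ∈ Ioc L (2 * L), ‖β l‖ ^ 2) := by ring

end Pool.Agent.GC.E
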